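import Pool.Agent.N956.EM.Stm
import Pool.Agent.H984R4.HN.Ret
import Pool.Agent.H984R4.HN.Det
import Pool.Agent.H984R4.HN.Arms

/-!
Project EM (helper956), part AGR (helper595): far visited states do not depend on the configuration
in a box.
-/

set_option autoImplicit false

namespace Pool.Agent.N956.EM

open H974 Finset H342P H984P H984H MeasureTheory Filter Topology

namespace Agr

/-- agreement off the box -/
def Ag (r : ℤ) (ω χ : Conf) : Prop := ∀ e ∉ (bx r).edges, ω e = χ e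

theorem box_ends {r : ℤ} (_hr : 0 ≤ r) {e : Edg} (he : e ∈ (bx r).edges) :
    (sd (src e) (0, 0) ≤ r ∧ sd (tgt e) (0, 0) ≤ r) ∧
      sd (dsrc e) (0, 0) ≤ r + 1 ∧ sd (dtgt e) (0, 0) ≤ r + 1 := by
  have he' : e ∈ RE (-r) r 0 r := he
  obtain ⟨x, y, _ | _⟩ := e
  · rw [mem_RE_false] at he'
    simp only [src_mk, tgt_false, dsrc_false, dtgt_mk, det_sd_eq]
    omega
  · rw [mem_RE_true] at he'
    simp only [src_mk, tgt_true, dsrc_true, dtgt_mk, det_sd_eq]
    omega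

/-! ### the cluster -/

/-- the open edges off the axis and off the box -/
def YY (ω : Conf) (r : ℤ) : Set Edg := {e | e ∈ Ret_O ω ∧ e ∉ (bx r).edges}

theorem YY_opn {r : ℤ} {ω χ : Conf} (h : Ag r ω χ) : YY ω r ⊆ opn χ := by
  rintro e ⟨⟨h1, h2, h3⟩, h4⟩
  exact Or.inr ⟨h1, h2, by rw [← h e h4]; exact h3⟩

theorem edge_nonneg {e : Edg} (h0 : 0 ≤ e.2.1) : 0 ≤ (src e).2 ∧ 0 ≤ (tgt e).2 := by
  obtain ⟨x, y, _ | _⟩ := e
  · simp only at h0
    simp only [src_mk, tgt_false]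
    omega
  · simp only at h0
    simp only [src_mk, tgt_true]
    omega

theorem clu_aux {r : ℤ} (hr : 0 ≤ r) {ω χ : Conf} (h : Ag r ω χ) {v : Vtx}
    (hv : Reach (opn χ) v (0, 0)) : 0 ≤ v.2 → v ∉ Ret_S ω r →
    ∃ x : ℤ, x ≤ 0 ∧ Reach (YY ω r) v (x, 0) := by
  induction hv using Relation.ReflTransGen.head_induction_on with
  | refl => exact fun _ _ => ⟨0, le_rfl, Reach.refl _ _⟩
  | @head v v' hs _ ih =>
    intro hv0 hvS
    obtain ⟨e, he, hc⟩ := hs
    rcases he with ⟨h1, h2, h3⟩ | he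
    · -- an edge of the axis
      refine ⟨v.1, ?_, ?_⟩
      · obtain ⟨x, y, b⟩ := e
        simp only at h1 h2 h3
        subst h1
        subst h2
        rw [src_mk, tgt_true] at hc
        rcases hc with ⟨h4, -⟩ | ⟨-, h5⟩
        · rw [← h4]; exact h3.le
        · rw [← h5]; show x + 1 ≤ 0; omega
      · have : v = (v.1, 0) := by
          obtain ⟨x, y, b⟩ := e
          simp only at h1 h2 h3
          subst h1
          subst h2
          rw [src_mk, tgt_true] at hc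
          rcases hc with ⟨h4, -⟩ | ⟨-, h5⟩
          · rw [← h4]
          · rw [← h5]
        rw [← this]
        exact Reach.refl _ _
    · -- off the axis
      have hvr : r < sd v (0, 0) := by
        by_contra hcon
        exact hvS ⟨v, not_lt.1 hcon, hv0, Reach.refl _ _⟩
      have hbox : e ∉ (bx r).edges := by
        intro hb
        have hb' := (box_ends hr hb).1
        rcases hc with ⟨h4, -⟩ | ⟨-, h5⟩
        · rw [h4] at hb'; omega
        · rw [h5] at hb'; omega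
      have heO : e ∈ Ret_O ω := ⟨he.1, he.2.1, by rw [h e hbox]; exact he.2.2⟩
      have hn := edge_nonneg he.1
      have hv'0 : 0 ≤ v'.2 := by
        rcases hc with ⟨-, h5⟩ | ⟨h4, -⟩
        · rw [← h5]; exact hn.2
        · rw [← h4]; exact hn.1
      have hv'S : v' ∉ Ret_S ω r := fun hcon => hvS (Ret_S_closed hcon ⟨e, heO, hc.symm⟩)
      obtain ⟨x, hx, hp⟩ := ih hv'0 hv'S
      exact ⟨x, hx, Reach.trans (Adj.reach ⟨e, ⟨heO, hbox⟩, hc⟩) hp⟩

theorem axis_reach (χ : Conf) {x : ℤ} (hx : x ≤ 0) : Reach (opn χ) (x, 0) (0, 0) := by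
  refine Ret_row' hx fun i _ h2 => Or.inl ⟨rfl, rfl, h2⟩

theorem clu {r : ℤ} (hr : 0 ≤ r) {ω χ χ' : Conf} (h : Ag r ω χ) (h' : Ag r ω χ') {v : Vtx}
    (hv0 : 0 ≤ v.2) (hvS : v ∉ Ret_S ω r) (hv : v ∈ Cl χ) : v ∈ Cl χ' := by
  obtain ⟨x, hx, hp⟩ := clu_aux hr h (Reach.symm hv) hv0 hvS
  exact ((hp.mono (YY_opn h')).trans (axis_reach χ' hx)).symm

/-! ### the dual cluster -/

/-- the closed edges off the axis and off the box -/
def ZZ (ω : Conf) (r : ℤ) : Set Edg := {e | e ∈ icl ω ∧ e ∉ (bx r).edges}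

theorem ZZ_clo {r : ℤ} {ω χ : Conf} (h : Ag r ω χ) : ZZ ω r ⊆ clo χ := by
  rintro e ⟨⟨h1, h2, h3⟩, h4⟩
  refine ⟨h1, ?_⟩
  rintro (⟨h5, h6, -⟩ | ⟨-, -, h5⟩)
  · exact h2 ⟨h5, h6⟩
  · rw [← h e h4, h3] at h5
    exact absurd h5 (by simp)

theorem face_nonneg {e : Edg} (h0 : 0 ≤ e.2.1) (h1 : ¬ (e.2.1 = 0 ∧ e.2.2 = true)) :
    0 ≤ (dsrc e).2 ∧ 0 ≤ (dtgt e).2 := by
  obtain ⟨x, y, _ | _⟩ := e
  · simp only at h0
    simp only [dsrc_false, dtgt_mk]
    omega
  · simp only [and_true] at h0 h1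
    simp only [dsrc_true, dtgt_mk]
    omega

theorem dclu_aux {r : ℤ} (hr : 0 ≤ r) {ω χ : Conf} (h : Ag r ω χ) {f : Vtx} {x : ℤ}
    (hf : DReach (clo χ) f (x, -1)) : 0 ≤ f.2 → f ∉ Du ω r →
    ∃ x' : ℤ, 0 ≤ x' ∧ DReach (ZZ ω r) f (x', 0) := by
  induction hf using Relation.ReflTransGen.head_induction_on with
  | refl =>
    intro h0
    exact absurd h0 (by simp)
  | @head f f' hs _ ih =>
    intro hf0 hfD
    obtain ⟨e, ⟨he0, heo⟩, hc⟩ := hs
    by_cases hax : e.2.1 = 0 ∧ e.2.2 = true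
    · obtain ⟨a, y, b⟩ := e
      obtain ⟨h1, h2⟩ := hax
      simp only at h1 h2
      subst h1
      subst h2
      have ha : 0 ≤ a := by
        by_contra hcon
        exact heo (Or.inl ⟨rfl, rfl, by simp only; omega⟩)
      rw [dsrc_true, dtgt_mk] at hc
      rcases hc with ⟨h4, -⟩ | ⟨-, h5⟩
      · rw [← h4] at hf0
        simp only at hf0
        omega
      · exact ⟨a, ha, by rw [← h5]; exact DReach.refl _ _⟩
    · have hfr : r + 1 < sd f (0, 0) := by
        by_contra hcon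
        exact hfD ⟨f, not_lt.1 hcon, hf0, DReach.refl _ _⟩
      have hbox : e ∉ (bx r).edges := by
        intro hb
        have hb' := (box_ends hr hb).2
        rcases hc with ⟨h4, -⟩ | ⟨-, h5⟩
        · rw [h4] at hb'; omega
        · rw [h5] at hb'; omega
      have hχ : χ e = false := by
        by_contra hcon
        exact heo (Or.inr ⟨he0, hax, by simpa using hcon⟩)
      have heI : e ∈ icl ω := ⟨he0, hax, by rw [h e hbox]; exact hχ⟩
      have hn := face_nonneg he0 hax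
      have hf'0 : 0 ≤ f'.2 := by
        rcases hc with ⟨-, h5⟩ | ⟨h4, -⟩
        · rw [← h5]; exact hn.2
        · rw [← h4]; exact hn.1
      have hf'D : f' ∉ Du ω r := by
        rintro ⟨g, hg1, hg2, hg3⟩
        exact hfD ⟨g, hg1, hg2, hg3.trans (DAdj.reach ⟨e, heI, hc.symm⟩)⟩
      obtain ⟨x', hx', hp⟩ := ih hf'0 hf'D
      exact ⟨x', hx', DReach.trans (DAdj.reach ⟨e, ⟨heI, hbox⟩, hc⟩) hp⟩

theorem dclu {r : ℤ} (hr : 0 ≤ r) {ω χ χ' : Conf} (h : Ag r ω χ) (h' : Ag r ω χ') {f : Vtx}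
    (hf0 : 0 ≤ f.2) (hfD : f ∉ Du ω r) (hf : f ∈ Dl χ) : f ∈ Dl χ' := by
  obtain ⟨x, -, hx⟩ := hf
  obtain ⟨x', hx', hp⟩ := dclu_aux hr h hx.symm hf0 hfD
  refine ⟨x', hx', ?_⟩
  refine DReach.trans (DAdj.reach ⟨(x', 0, true), ⟨le_rfl, ?_⟩, Or.inl ⟨?_, rfl⟩⟩)
    (hp.mono (ZZ_clo h')).symm
  · rintro (⟨-, -, h5⟩ | ⟨-, h5, -⟩)
    · simp only at h5
      omega
    · exact h5 ⟨rfl, rfl⟩
  · rw [dsrc_true]
    simp

/-! ### the path -/

theorem prev {ω : Conf} {σ τ : St} (hστ : step (opn ω) σ = τ) (hτ : τ ≠ ((0, 0), .ne)) :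
    (∃ k, path ω k = τ) ↔ ∃ k, path ω k = σ := by
  constructor
  · rintro ⟨k, hk⟩
    cases k with
    | zero => exact absurd hk.symm hτ
    | succ k =>
      refine ⟨k, ?_⟩
      rw [path_succ] at hk
      rw [← nxt_step (opn ω) (path ω k), hk, ← hστ, nxt_step]
  · rintro ⟨k, hk⟩
    exact ⟨k + 1, by rw [path_succ, hk, hστ]⟩

theorem nw_iff (ω : Conf) {x : ℤ} (hx : 1 ≤ x) :
    (∃ k, path ω k = ((x, 0), .sw)) ↔ ∃ k, path ω k = ((x, 0), .nw) := by
  refine prev ?_ (by simp)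
  have h : ((x - 1, 0, true) : Edg) ∉ opn ω := by
    rintro (⟨-, -, h5⟩ | ⟨-, h5, -⟩)
    · simp only at h5
      omega
    · exact h5 ⟨rfl, rfl⟩
  simp [step, h]

theorem sw_iff (ω : Conf) (x : ℤ) :
    (∃ k, path ω k = ((x, 0), .se)) ↔ ∃ k, path ω k = ((x, 0), .sw) := by
  refine prev ?_ (by simp)
  have h : ((x, 0 - 1, false) : Edg) ∉ opn ω := by
    intro h
    have := Step_opn h
    simp only at this
    omega
  simp only [step]
  rw [if_neg h]

theorem main (hV : S_VIS) {r R : ℤ} (hr : 1 ≤ r) (hrR : r < R) {ω χ χ' : Conf} (h : Ag r ω χ)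
    (h' : Ag r ω χ') (hO : GoodO ω r R) (hD : GoodD ω r R) {σ : St} (hσ : R < sd σ.1 (0, 0))
    (hv : ∃ k, path χ k = σ) : ∃ k, path χ' k = σ := by
  -- states above the axis
  have above : ∀ σ : St, R < sd σ.1 (0, 0) → 0 ≤ (face σ).2 → (∃ k, path χ k = σ) →
      ∃ k, path χ' k = σ := by
    intro σ hσ hf hv
    obtain ⟨h1, h2⟩ := (hV χ σ hf).1 hv
    have hf' := arms_face σ
    refine (hV χ' σ hf).2 ⟨clu (by omega) h h' (by omega) ?_ h1, dclu (by omega) h h' hf ?_ h2⟩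
    · intro hcon
      have := hO _ hcon
      omega
    · intro hcon
      have h3 := hD _ hcon
      have h4 := det_face σ ((0, 0), .ne)
      rw [face_ne] at h4
      simp only at h4
      omega
  by_cases hf : 0 ≤ (face σ).2
  · exact above σ hσ hf hv
  have hnn : 0 ≤ σ.1.2 := by
    obtain ⟨k, hk⟩ := hv
    rw [← hk]
    exact path_nonneg χ k
  have hbad : ¬ Ret_bad σ := by
    obtain ⟨k, hk⟩ := hv
    rw [← hk]
    exact Ret_not_bad χ k
  obtain ⟨⟨x, y⟩, q⟩ := σ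
  have hf' := arms_face ((x, y), q)
  simp only at hnn hf'
  unfold Ret_bad at hbad
  simp only at hbad
  rw [det_sd_eq] at hσ
  simp only at hσ
  cases q with
  | ne => rw [face_ne] at hf; exact absurd hnn hf
  | nw => rw [face_nw] at hf; exact absurd hnn hf
  | sw =>
    rw [face_sw] at hf
    simp only at hf
    have hy : y = 0 := by omega
    subst hy
    have hx : 1 ≤ x := by
      by_contra hcon
      exact hbad ⟨rfl, Or.inl ⟨rfl, by omega⟩⟩
    rw [nw_iff _ hx] at hv ⊢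
    refine above _ ?_ ?_ hv
    · rw [det_sd_eq]
      simp only
      omega
    · rw [face_nw]
  | se =>
    rw [face_se] at hf
    simp only at hf
    have hy : y = 0 := by omega
    subst hy
    have hx : 1 ≤ x := by
      by_contra hcon
      rcases lt_or_eq_of_le (not_lt.1 (fun h : 0 < x => hcon h)) with h0 | h0
      · exact hbad ⟨rfl, Or.inr ⟨rfl, h0⟩⟩
      · omega
    rw [sw_iff, nw_iff _ hx] at hv ⊢
    refine above _ ?_ ?_ hv
    · rw [det_sd_eq]
      simp only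
      omega
    · rw [face_nw]

end Agr

/-- AGR -/
theorem agr (hV : S_VIS) : S_AGR := by
  intro ω ω' r R hr hrR hag hO hD σ hσ
  have h0 : Agr.Ag r ω ω := fun e _ => rfl
  exact ⟨Agr.main hV hr hrR h0 hag hO hD hσ, Agr.main hV hr hrR hag h0 hO hD hσ⟩

end Pool.Agent.N956.EM
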