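import Pool.Agent.N956.EM.Stm

/-!
# The almost sure logarithmic law, and its consequences
-/

set_option autoImplicit false

namespace Pool.Agent.N956.EM

open H974 Finset H342P H984P H984H MeasureTheory Filter Topology

theorem em_all (hG : S_LOG) (hP : S_PORT) (hDc : S_DEC) {c C : ℝ} (hc : 0 < c) (hC : 0 < C)
    (hL : LowA c (1/4)) (hU : TwoUp C (1/4)) : S_ALL := by
  obtain ⟨F, hF, hport⟩ := hP
  obtain ⟨K, γ, hK, hγ, hγ1, hdec⟩ := hDc
  have h1 : ∀ i, ∀ᵐ ω ∂perc, Tendsto (fun N : ℕ => (∑ n ∈ Finset.Icc 1 N, (n : ℝ)⁻¹ *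
      (F i (curve n ω) - ∫ ω', F i (curve n ω') ∂perc)) / Real.log N) atTop (𝓝 0) := by
    intro i
    obtain ⟨f1, f2⟩ := hF i
    have fm : Measurable (F i) := f2.continuous.measurable
    exact hG Conf _ perc inferInstance (fun n ω => F i (curve n ω)) K γ
      (fun n => fm.comp (curve_meas n)) (fun n ω => f1 _) hK.le hγ hγ1
      (fun m n hm hmn => hdec m n hm hmn (F i) (F i) fm f1 f1 f2)
  have h2 := ae_all_iff.2 h1
  filter_upwards [h2] with ω hω Φ hΦ hb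
  have h3 := hport (fun n => curve n ω) lawH ?_ ?_ Φ hΦ hb
  · simp only [lawH_int _ hΦ] at h3
    exact h3
  · intro ε hε
    obtain ⟨Λ, hΛ, ht⟩ := lawH_tight hc hC hL hU (β := 1/2) (by norm_num) (by norm_num) hε
    exact ⟨_, goodC_compact (by norm_num) hΛ, ht⟩
  · intro i
    have := hω i
    simp only [lawH_int _ (hF i).2.continuous]
    exact this

/-- random averages along a sequence -/
theorem em_along (hA : S_ALL) {φ : ℕ → ℕ} (hφ : Tendsto φ atTop atTop)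
    {ν : ProbabilityMeasure C(unitInterval, ℂ)}
    (hν : ∀ Φ : C(unitInterval, ℂ) → ℝ, Continuous Φ → (∃ M, ∀ f, |Φ f| ≤ M) →
      Tendsto (fun i => avg Φ (φ i)) atTop (𝓝 (∫ f, Φ f ∂(ν : Measure C(unitInterval, ℂ))))) :
    ∀ᵐ ω ∂perc, ∀ Φ : C(unitInterval, ℂ) → ℝ, Continuous Φ → (∃ M, ∀ f, |Φ f| ≤ M) →
      Tendsto (fun i => (∑ n ∈ Finset.Icc 1 (φ i), (n : ℝ)⁻¹ * Φ (curve n ω)) /
        Real.log (φ i)) atTop (𝓝 (∫ f, Φ f ∂(ν : Measure C(unitInterval, ℂ)))) := by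
  filter_upwards [hA] with ω hω Φ hΦ hb
  have h1 := (hω Φ hΦ hb).comp hφ
  have h2 := hν Φ hΦ hb
  have h3 := h1.add h2
  rw [zero_add] at h3
  refine h3.congr fun i => ?_
  simp only [Function.comp_apply, avg]
  rw [← add_div, ← Finset.sum_add_distrib]
  congr 1
  refine Finset.sum_congr rfl fun n _ => ?_
  ring

/-- the averages of the laws if the scaling limit exists -/
theorem em_ces (hCes : S_CES) {ν : ProbabilityMeasure C(unitInterval, ℂ)}
    (hν : Tendsto lawH atTop (𝓝 ν)) : ∀ Φ : C(unitInterval, ℂ) → ℝ, Continuous Φ →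
      (∃ M, ∀ f, |Φ f| ≤ M) →
      Tendsto (fun i => avg Φ i) atTop (𝓝 (∫ f, Φ f ∂(ν : Measure C(unitInterval, ℂ)))) := by
  intro Φ hΦ ⟨M, hM⟩
  have h1 := (ProbabilityMeasure.tendsto_iff_forall_integral_tendsto.1 hν)
    (BoundedContinuousFunction.ofNormedAddCommGroup Φ hΦ M hM)
  simp only [BoundedContinuousFunction.coe_ofNormedAddCommGroup] at h1
  have h2 : Tendsto (fun n => ∫ ω, Φ (curve n ω) ∂perc) atTop
      (𝓝 (∫ f, Φ f ∂(ν : Measure C(unitInterval, ℂ)))) := by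
    refine h1.congr fun n => ?_
    exact lawH_int n hΦ
  exact hCes _ _ h2

end Pool.Agent.N956.EM
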