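import Pool.Agent.N956.EM.Stm
import Pool.Agent.H984R4.HN.Ret
import Pool.Agent.H984R4.HN.Arms

/-!
# Project EM (helper956): probabilities of arms in the half-annulus
-/

set_option autoImplicit false

namespace Pool.Agent.N956.EM

open H974 Finset H342P H984P H984H MeasureTheory Filter Topology

namespace Arm

/-- The analogue of `Ret_arm` for faces. -/
theorem darm (ω : Conf) {r R : ℕ} (hrR : r + 2 ≤ R) {f : Vtx} (hf : f ∈ Du ω r)
    (hR : (R : ℤ) ≤ sd f (0, 0)) :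
    H12S.DCrs 0 0 (r + 1) (R - 1) (↑((bx R).edges \ cut ω R) : Set Edg) := by
  obtain ⟨g, hg, hg0, hreach⟩ := hf
  rw [Ret_sd, max_le_iff, abs_le, abs_le] at hg
  have hfR : f.1 ≤ -(R:ℤ) ∨ (R:ℤ) ≤ f.1 ∨ f.2 ≤ -(R:ℤ) ∨ (R:ℤ) ≤ f.2 := by
    rw [Ret_sd, le_max_iff, le_abs, le_abs] at hR
    omega
  have hcast : ((R - 1 : ℕ) : ℤ) = (R : ℤ) - 1 := by omega
  obtain ⟨z, hz, hp⟩ := arms_dreach (F := icl ω) (X := (↑((bx R).edges) : Set Edg))
    (G := (↑((bx R).edges \ cut ω R) : Set Edg))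
    (fun z => (-(R:ℤ) + 1 < z.1 ∧ z.1 < (R:ℤ) - 1) ∧ (-(R:ℤ) + 1 < z.2 ∧ z.2 < (R:ℤ) - 1))
    (fun e he hB => by
      obtain ⟨he1, he2, -⟩ := he
      rw [Finset.mem_coe]
      obtain ⟨x, y, _ | _⟩ := e
      · show ((x, y, false) : Edg) ∈ RE (-(R:ℤ)) R 0 R
        simp only at he1
        simp only [dsrc_false, dtgt_mk] at hB
        rw [mem_RE_false]
        omega
      · show ((x, y, true) : Edg) ∈ RE (-(R:ℤ)) R 0 R
        simp only [and_true] at he1 he2
        simp only [dsrc_true, dtgt_mk] at hB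
        rw [mem_RE_true]
        omega)
    (by
      rintro e ⟨⟨-, -, he3⟩, he4⟩
      rw [Finset.mem_coe] at he4 ⊢
      rw [Finset.mem_sdiff]
      refine ⟨he4, fun hcon => ?_⟩
      unfold cut at hcon
      rw [Finset.mem_filter] at hcon
      rw [he3] at hcon
      exact Bool.noConfusion hcon.2)
    hreach (by omega)
  refine ⟨g, z, ?_, ?_, hp⟩
  · unfold inR
    push_cast
    omega
  · rw [hcast]
    omega

end Arm

open Arm in
theorem arm : S_ARM := by
  obtain ⟨κ, hκ, hW⟩ := H12S.win_half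
  obtain ⟨C, c, hC, hc, harm⟩ := H12S.win_arm_of
    (fun h _ h1 h2 => fun c1 c2 S => H12S.win_blk h h1 h2 c1 c2 S) κ hκ
  have h4 : (0:ℝ) < (4:ℝ) ^ c := Real.rpow_pos_of_pos (by norm_num) _
  refine ⟨c, (C + 1) * (4:ℝ) ^ c, hc, by positivity, ?_⟩
  intro r R hr hrR
  have hr0 : (0:ℝ) < (r:ℝ) := by exact_mod_cast (by omega : 0 < r)
  have hR0 : (0:ℝ) < (R:ℝ) := by exact_mod_cast (by omega : 0 < R)
  have hrr : (1:ℝ) ≤ (r:ℝ) := by exact_mod_cast hr
  have hq : (0:ℝ) ≤ ((r:ℝ) / R) ^ c := by positivity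
  by_cases hs : R ≤ r + 1
  · have h1 : (1:ℝ) ≤ 4 * ((r:ℝ) / R) := by
      have h2 : (R:ℝ) ≤ r + 1 := by exact_mod_cast hs
      rw [← mul_div_assoc, le_div_iff₀ hR0]
      linarith
    have h2 : (1:ℝ) ≤ (4 * ((r:ℝ) / R)) ^ c := Real.one_le_rpow h1 hc.le
    rw [Real.mul_rpow (by norm_num) (by positivity)] at h2
    have h3 : (1:ℝ) ≤ (C + 1) * (4:ℝ) ^ c * ((r:ℝ) / R) ^ c := by
      have h5 : (0:ℝ) ≤ (4:ℝ) ^ c * ((r:ℝ) / R) ^ c := by positivity
      nlinarith [mul_nonneg hC.le h5]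
    exact ⟨measureReal_le_one.trans h3, measureReal_le_one.trans h3⟩
  · push Not at hs
    lift r to ℕ using (by omega) with r'
    lift R to ℕ using (by omega) with R'
    have hr1 : 1 ≤ r' := by exact_mod_cast hr
    have hrR' : r' + 2 ≤ R' := by omega
    simp only [Int.cast_natCast] at hr0 hR0 hrr hq ⊢
    constructor
    · have h1 : perc.real {ω | ¬ GoodO ω r' R'} ≤
          perc.real {ω | H12S.Crs 0 0 r' R' (↑(cut ω R') : Set Edg)} := by
        apply measureReal_mono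
        · intro ω hω
          simp only [GoodO, Set.mem_ofPred_eq] at hω
          push Not at hω
          obtain ⟨v, hv, hv2⟩ := hω
          exact Ret_arm ω (by omega) hv hv2
        · exact measure_ne_top _ _
      refine h1.trans ?_
      rw [perc_cut (R' : ℤ) (fun F => H12S.Crs 0 0 r' R' (↑F : Set Edg))]
      have h2 := (harm (1/2) R' (hW R') r' R' hr1 (by omega) le_rfl 0 0 (bx R').edges).1
      refine h2.trans ?_
      have h5 : (1:ℝ) ≤ (4:ℝ) ^ c := Real.one_le_rpow (by norm_num) hc.le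
      apply mul_le_mul_of_nonneg_right _ hq
      nlinarith
    · have h1 : perc.real {ω | ¬ GoodD ω r' R'} ≤
          perc.real {ω | H12S.DCrs 0 0 (r' + 1) (R' - 1)
            (↑((bx R').edges \ cut ω R') : Set Edg)} := by
        apply measureReal_mono
        · intro ω hω
          simp only [GoodD, Set.mem_ofPred_eq] at hω
          push Not at hω
          obtain ⟨f, hf, hf2⟩ := hω
          exact darm ω hrR' hf hf2
        · exact measure_ne_top _ _
      refine h1.trans ?_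
      rw [perc_cut (R' : ℤ) (fun F => H12S.DCrs 0 0 (r' + 1) (R' - 1)
        (↑((bx R').edges \ F) : Set Edg))]
      have h2 := (harm (1/2) R' (hW R') (r' + 1) (R' - 1) (by omega) (by omega) (by omega) 0 0
        (bx R').edges).2
      refine h2.trans ?_
      have hR2 : (2:ℝ) ≤ (R':ℝ) := by exact_mod_cast (by omega : 2 ≤ R')
      have hcast : ((R' - 1 : ℕ) : ℝ) = (R' : ℝ) - 1 := by
        rw [Nat.cast_sub (by omega)]
        simp
      have hcast2 : ((r' + 1 : ℕ) : ℝ) = (r' : ℝ) + 1 := by push_cast; ring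
      have h6 : ((r' + 1 : ℕ) : ℝ) / ((R' - 1 : ℕ) : ℝ) ≤ 4 * ((r':ℝ) / R') := by
        rw [hcast, hcast2, ← mul_div_assoc, div_le_div_iff₀ (by linarith) hR0]
        nlinarith
      have h7 : (((r' + 1 : ℕ) : ℝ) / ((R' - 1 : ℕ) : ℝ)) ^ c ≤ (4:ℝ) ^ c * ((r':ℝ) / R') ^ c := by
        rw [← Real.mul_rpow (by norm_num) (by positivity)]
        exact Real.rpow_le_rpow (by positivity) h6 hc.le
      calc C * (((r' + 1 : ℕ) : ℝ) / ((R' - 1 : ℕ) : ℝ)) ^ c
          ≤ C * ((4:ℝ) ^ c * ((r':ℝ) / R') ^ c) := mul_le_mul_of_nonneg_left h7 hC.le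
        _ ≤ (C + 1) * (4:ℝ) ^ c * ((r':ℝ) / R') ^ c := by
          have h5 : (0:ℝ) ≤ (4:ℝ) ^ c * ((r':ℝ) / R') ^ c := by positivity
          nlinarith

end Pool.Agent.N956.EM
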