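import Pool.Agent.N956.EM.Stm

/-!
# Coalescence of the paths in two configurations which agree off a box
-/

set_option autoImplicit false

namespace Pool.Agent.N956.EM

open H974 Finset H342P H984P H984H MeasureTheory Filter Topology

theorem coal_states (R : ℤ) : {σ : St | sd σ.1 (0, 0) ≤ R}.Finite := by
  refine Set.Finite.subset (((Finset.Icc (-R) R ×ˢ Finset.Icc (-R) R) ×ˢ
    (Finset.univ : Finset Q4)).finite_toSet) ?_
  rintro ⟨⟨x, y⟩, q⟩ h
  simp only [Set.mem_ofPred_eq, Ret_sd, max_le_iff, abs_le] at h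
  simp only [Finset.coe_product, Finset.coe_univ, Set.mem_prod, Finset.coe_Icc, Set.mem_Icc,
    Set.mem_univ, and_true]
  omega

theorem coal_last (ω : Conf) {R : ℤ} (hR : 0 ≤ R) : ∃ T0 : ℕ, sd (path ω T0).1 (0, 0) ≤ R ∧
    ∀ j, T0 < j → R < sd (path ω j).1 (0, 0) := by
  have hfin : {k : ℕ | sd (path ω k).1 (0, 0) ≤ R}.Finite := by
    have h := (coal_states R).preimage (f := path ω)
      (fun a _ b _ hab => by_contra fun hne => path_inj ω hne hab)
    exact h
  have hne : hfin.toFinset.Nonempty := by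
    refine ⟨0, ?_⟩
    rw [Set.Finite.mem_toFinset]
    show sd (path ω 0).1 (0, 0) ≤ R
    simp [path, sd, hR]
  refine ⟨hfin.toFinset.max' hne, ?_, ?_⟩
  · have := hfin.toFinset.max'_mem hne
    rwa [Set.Finite.mem_toFinset] at this
  · intro j hj
    by_contra hcon
    have h1 : j ∈ hfin.toFinset := by
      rw [Set.Finite.mem_toFinset]
      exact not_lt.1 hcon
    exact absurd (hfin.toFinset.le_max' j h1) (not_le.2 hj)

theorem coal_edge {r : ℤ} {e : Edg} {v : Vtx} (hv : r < sd v (0, 0)) (he : src e = v ∨ tgt e = v) :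
    e ∉ (bx r).edges := by
  intro hmem
  have hmem' : e ∈ RE (-r) r 0 r := hmem
  rw [Ret_sd, lt_max_iff, lt_abs, lt_abs] at hv
  obtain ⟨x, y, b⟩ := e
  cases b
  · rw [mem_RE_false] at hmem'
    rcases he with rfl | rfl
    · simp only [src_mk] at hv; omega
    · simp only [tgt_false] at hv; omega
  · rw [mem_RE_true] at hmem'
    rcases he with rfl | rfl
    · simp only [src_mk] at hv; omega
    · simp only [tgt_true] at hv; omega

theorem coal_step {ω ω' : Conf} {r : ℤ} (h : ∀ e ∉ (bx r).edges, ω e = ω' e) {σ : St}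
    (hσ : r < sd σ.1 (0, 0)) : step (opn ω) σ = step (opn ω') σ := by
  apply step_congr
  intro e he
  have h1 := h e (coal_edge hσ he)
  unfold opn
  simp only [Set.mem_ofPred_eq, h1]

theorem coal (hA : S_AGR) : S_COAL := by
  intro ω ω' r R R₂ hr hrR hRR hag hO hD hO2 hO2'
  have hR0 : 0 ≤ R := by omega
  obtain ⟨T0, hT0, hT1⟩ := coal_last ω hR0
  have hA' := hA ω ω' r R hr hrR hag hO hD
  obtain ⟨T', hT'⟩ := (hA' (path ω (T0 + 1)) (hT1 _ (Nat.lt_succ_self _))).1 ⟨_, rfl⟩
  have hj : ∀ j, path ω (T0 + 1 + j) = path ω' (T' + j) := by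
    intro j
    induction j with
    | zero => exact hT'.symm
    | succ j ih =>
      have e1 : path ω (T0 + 1 + (j + 1)) = step (opn ω) (path ω (T0 + 1 + j)) := path_succ ω _
      have e2 : path ω' (T' + (j + 1)) = step (opn ω') (path ω' (T' + j)) := path_succ ω' _
      rw [e1, e2, ← ih]
      exact coal_step hag (by have := hT1 (T0 + 1 + j) (by omega); omega)
  refine ⟨T0 + 1, T', hj, ?_, ?_⟩
  · intro k hk
    by_contra hcon
    exact Ret_det ω hR0 hRR hO2 (k := k) (l := T0) (by omega) (not_lt.1 hcon) hT0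
  · intro k hk
    obtain ⟨t, rfl⟩ : ∃ t, T' = t + 1 := ⟨T' - 1, by omega⟩
    have ht : sd (path ω' t).1 (0, 0) ≤ R := by
      by_contra hcon
      obtain ⟨i, hi⟩ := (hA' (path ω' t) (not_le.1 hcon)).2 ⟨_, rfl⟩
      have h1 : path ω (i + 1) = path ω (T0 + 1) := by
        rw [← hT', path_succ, path_succ, hi]
        exact coal_step hag (by have := not_le.1 hcon; omega)
      have h2 : i + 1 = T0 + 1 := by
        by_contra hne
        exact path_inj ω hne h1
      have h3 : i = T0 := by omega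
      rw [← hi, h3] at hcon
      exact hcon hT0
    by_contra hcon
    exact Ret_det ω' hR0 hRR hO2' (k := k) (l := t) (by omega) (not_lt.1 hcon) ht

end Pool.Agent.N956.EM
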