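import Pool.Agent.N956.EM.Stm

/-!
# Decorrelation of the rescaled curves at different scales
-/

set_option autoImplicit false

namespace Pool.Agent.N956.EM

open H974 Finset H342P H984P H984H MeasureTheory Filter Topology

/-- the bad event -/
def Bd (r R R₂ : ℤ) (n τ : ℕ) (δ : ℝ) (ω : Conf) : Prop :=
  ¬ GoodO ω r R ∨ ¬ GoodD ω r R ∨ ¬ GoodO ω R R₂ ∨ reach τ ω ≤ 3 * (R₂ : ℝ) ∨ Osc ω (2 * n) τ δ

theorem dec_T {R₂ : ℤ} (h1 : 1 ≤ R₂) {τ T : ℕ} {ω : Conf} (h : ∀ k < T, sd (path ω k).1 (0, 0) < R₂)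
    (hr : ¬ reach τ ω ≤ 3 * (R₂ : ℝ)) : T ≤ τ := by
  by_contra hcon
  apply hr
  obtain ⟨k, hk, hk2⟩ := Disp_exists_reach ω τ
  rw [← hk2]
  have h2 : ‖gam ω k‖ ≤ 2 * ((sd (path ω k).1 (0, 0) : ℤ) : ℝ) + 1 := norm_place_le _
  have h3 : ((sd (path ω k).1 (0, 0) : ℤ) : ℝ) ≤ R₂ := by
    exact_mod_cast (h k (by omega)).le
  have h4 : (1 : ℝ) ≤ R₂ := by exact_mod_cast h1
  linarith

theorem dec_det (hC : S_COAL) (hD : S_DIF) {ω ω' : Conf} {r R R₂ : ℤ} {n τ : ℕ} {δ : ℝ}
    (hr : 1 ≤ r) (hrR : r < R) (hRR : R < R₂) (hn : 1 ≤ n) (hτ : τ ≤ n) (hδ : 0 ≤ δ)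
    (hag : ∀ e ∉ (bx r).edges, ω e = ω' e) (h : ¬ Bd r R R₂ n τ δ ω)
    (h' : ¬ Bd r R R₂ n τ δ ω') :
    dist (curve n ω) (curve n ω') ≤ 2 * δ * (n : ℝ) ^ (-(4/7) : ℝ) := by
  unfold Bd at h h'
  simp only [not_or, not_not] at h h'
  obtain ⟨g1, g2, g3, g4, g5⟩ := h
  obtain ⟨g1', g2', g3', g4', g5'⟩ := h'
  obtain ⟨T, T', hj, hT, hT'⟩ := hC ω ω' r R R₂ hr hrR hRR hag g1 g2 g3 g3'
  exact hD ω ω' n τ T T' δ hn hτ (dec_T (by omega) hT g4) (dec_T (by omega) hT' g4') hδ hj g5 g5'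

/-! ### truncation -/

/-- the configuration with the edges off the box closed -/
noncomputable def trn (r : ℤ) (ω : Conf) : Conf := fun e => if e ∈ (bx r).edges then ω e else false

theorem trn_meas (r : ℤ) : Measurable (trn r) := by
  rw [measurable_pi_iff]
  intro e
  unfold trn
  by_cases h : e ∈ (bx r).edges
  · simp only [h, if_true]; exact measurable_pi_apply e
  · simp only [h, if_false]; exact measurable_const

theorem trn_edge {r : ℤ} {e : Edg} {v : Vtx} (hv : sd v (0, 0) < r) (he : src e = v ∨ tgt e = v)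
    (h0 : 0 ≤ e.2.1) : e ∈ (bx r).edges := by
  show e ∈ RE (-r) r 0 r
  rw [Ret_sd, max_lt_iff, abs_lt, abs_lt] at hv
  obtain ⟨x, y, b⟩ := e
  simp only at h0
  cases b
  · rw [mem_RE_false]
    rcases he with rfl | rfl
    · simp only [src_mk] at hv; omega
    · simp only [tgt_false] at hv; omega
  · rw [mem_RE_true]
    rcases he with rfl | rfl
    · simp only [src_mk] at hv; omega
    · simp only [tgt_true] at hv; omega

theorem trn_step {r : ℤ} {ω : Conf} {σ : St} (h : sd σ.1 (0, 0) < r) :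
    step (opn (trn r ω)) σ = step (opn ω) σ := by
  apply step_congr
  intro e he
  unfold opn
  simp only [Set.mem_ofPred_eq]
  by_cases h0 : 0 ≤ e.2.1
  · have h1 : trn r ω e = ω e := by
      unfold trn
      rw [if_pos (trn_edge h he h0)]
    rw [h1]
  · constructor
    · rintro (⟨h1, h2, h3⟩ | ⟨h1, h2, h3⟩)
      · exact Or.inl ⟨h1, h2, h3⟩
      · exact absurd h1 h0
    · rintro (⟨h1, h2, h3⟩ | ⟨h1, h2, h3⟩)
      · exact Or.inl ⟨h1, h2, h3⟩
      · exact absurd h1 h0

theorem trn_path {r : ℤ} {ω : Conf} {m : ℕ} (h : Stay r m ω) {j : ℕ} (hj : j ≤ m) :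
    path (trn r ω) j = path ω j := by
  induction j with
  | zero => rfl
  | succ j ih =>
    rw [path_succ, path_succ, ih (by omega)]
    exact trn_step (h j (by omega))

theorem trn_curve {r : ℤ} {ω : Conf} {m : ℕ} (hm : 1 ≤ m) (h : Stay r m ω) :
    curve m (trn r ω) = curve m ω := by
  ext s
  obtain ⟨k, hk, h1, h2⟩ := H984N.pl_exists_seg hm s
  unfold curve
  rw [H984N.pl_seg hk h1 h2, H984N.pl_seg hk h1 h2]
  have e1 : gam (trn r ω) k = gam ω k := by
    unfold gam; rw [trn_path h (by omega)]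
  have e2 : gam (trn r ω) (k + 1) = gam ω (k + 1) := by
    unfold gam; rw [trn_path h (by omega)]
  rw [e1, e2]

theorem trn_stay {r : ℤ} {ω : Conf} {m : ℕ} {y : ℝ} (h : ¬ Stay r m ω) (hy : y + 1/4 ≤ r) :
    y ≤ reach m ω := by
  unfold Stay at h
  push Not at h
  obtain ⟨j, hj, hr⟩ := h
  have h1 : ((sd (path ω j).1 (0, 0) : ℤ) : ℝ) - 1/4 ≤ ‖gam ω j‖ := le_norm_place _
  have h2 : (r : ℝ) ≤ ((sd (path ω j).1 (0, 0) : ℤ) : ℝ) := by exact_mod_cast hr
  have h3 : ‖gam ω j‖ ≤ reach m ω :=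
    Finset.le_sup' (fun k => ‖gam ω k‖) (Finset.mem_range.2 (by omega))
  linarith

/-! ### flips -/

theorem flip_outer (hF : S_FLIP) (H : Finset Edg) (A : Set Conf) :
    perc (flip H ⁻¹' A) ≤ perc A := by
  calc perc (flip H ⁻¹' A) ≤ perc (flip H ⁻¹' (toMeasurable perc A)) :=
        measure_mono (Set.preimage_mono (subset_toMeasurable _ _))
    _ = perc (toMeasurable perc A) := (hF H).measure_preimage
        (measurableSet_toMeasurable _ _).nullMeasurableSet
    _ = perc A := measure_toMeasurable A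

/-- the integral of the change of a bounded Lipschitz function of the curve -/
theorem dec_flip (hF : S_FLIP) (hC : S_COAL) (hD : S_DIF) {r R R₂ : ℤ} {n τ : ℕ} {δ : ℝ}
    (hr : 1 ≤ r) (hrR : r < R) (hRR : R < R₂) (hn : 1 ≤ n) (hτ : τ ≤ n) (hδ : 0 ≤ δ)
    {Ψ : C(unitInterval, ℂ) → ℝ} (h1 : ∀ f, |Ψ f| ≤ 1) (hL : LipschitzWith 1 Ψ)
    {H : Finset Edg} (hH : H ⊆ (bx r).edges) :
    ∫ ω, |Ψ (curve n ω) - Ψ (curve n (flip H ω))| ∂perc ≤
      2 * δ * (n : ℝ) ^ (-(4/7) : ℝ) + 4 * perc.real {ω | Bd r R R₂ n τ δ ω} := by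
  set B : Set Conf := {ω | Bd r R R₂ n τ δ ω} with hB
  set B1 : Set Conf := toMeasurable perc B with hB1
  have hB1m : MeasurableSet B1 := measurableSet_toMeasurable _ _
  set B2 : Set Conf := flip H ⁻¹' B1 with hB2
  have hB2m : MeasurableSet B2 := (hF H).measurable hB1m
  set ε : ℝ := 2 * δ * (n : ℝ) ^ (-(4/7) : ℝ) with hε
  have hε0 : 0 ≤ ε := by positivity
  have hpt : ∀ ω, |Ψ (curve n ω) - Ψ (curve n (flip H ω))| ≤
      ε + 2 * B1.indicator (fun _ => (1 : ℝ)) ω + 2 * B2.indicator (fun _ => (1 : ℝ)) ω := by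
    intro ω
    have i1 : 0 ≤ B1.indicator (fun _ => (1 : ℝ)) ω := Set.indicator_nonneg (fun _ _ => by norm_num) _
    have i2 : 0 ≤ B2.indicator (fun _ => (1 : ℝ)) ω := Set.indicator_nonneg (fun _ _ => by norm_num) _
    have htr : |Ψ (curve n ω) - Ψ (curve n (flip H ω))| ≤ 2 := by
      refine (abs_sub _ _).trans ?_
      have := h1 (curve n ω); have := h1 (curve n (flip H ω)); linarith
    by_cases hb : ω ∈ B1
    · rw [Set.indicator_of_mem hb]; linarith
    · by_cases hb' : ω ∈ B2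
      · rw [Set.indicator_of_mem hb']; linarith
      · rw [Set.indicator_of_notMem hb, Set.indicator_of_notMem hb']
        have n1 : ¬ Bd r R R₂ n τ δ ω := fun h => hb (subset_toMeasurable _ _ h)
        have n2 : ¬ Bd r R R₂ n τ δ (flip H ω) := fun h => hb' (subset_toMeasurable perc B h)
        have hag : ∀ e ∉ (bx r).edges, ω e = flip H ω e := by
          intro e he
          unfold flip
          rw [if_neg (fun h => he (hH h))]
        have h3 := dec_det hC hD hr hrR hRR hn hτ hδ hag n1 n2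
        have h4 := hL.dist_le_mul (curve n ω) (curve n (flip H ω))
        rw [Real.dist_eq] at h4
        simp only [NNReal.coe_one, one_mul] at h4
        linarith
  have hmeas : Measurable (fun ω => Ψ (curve n ω)) := hL.continuous.measurable.comp (curve_meas n)
  have hint : Integrable (fun ω => |Ψ (curve n ω) - Ψ (curve n (flip H ω))|) perc := by
    refine (Integrable.of_bound (C := 2)
      (hmeas.sub (hmeas.comp (hF H).measurable)).aestronglyMeasurable ?_).abs
    refine Eventually.of_forall fun ω => ?_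
    show ‖Ψ (curve n ω) - Ψ (curve n (flip H ω))‖ ≤ 2
    rw [Real.norm_eq_abs]
    refine (abs_sub _ _).trans ?_
    have := h1 (curve n ω); have := h1 (curve n (flip H ω)); linarith
  have j1 : Integrable (B1.indicator (fun _ => (1 : ℝ))) perc :=
    (integrable_const _).indicator hB1m
  have j2 : Integrable (B2.indicator (fun _ => (1 : ℝ))) perc :=
    (integrable_const _).indicator hB2m
  have k1 : Integrable (fun ω => 2 * B1.indicator (fun _ => (1 : ℝ)) ω) perc := j1.const_mul 2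
  have k2 : Integrable (fun ω => 2 * B2.indicator (fun _ => (1 : ℝ)) ω) perc := j2.const_mul 2
  have k3 : Integrable (fun ω => ε + 2 * B1.indicator (fun _ => (1 : ℝ)) ω) perc :=
    (integrable_const ε).add k1
  have k4 : Integrable (fun ω => ε + 2 * B1.indicator (fun _ => (1 : ℝ)) ω +
    2 * B2.indicator (fun _ => (1 : ℝ)) ω) perc := k3.add k2
  have hle := integral_mono hint k4 hpt
  refine hle.trans ?_
  have e1 : ∫ ω, (ε + 2 * B1.indicator (fun _ => (1 : ℝ)) ω +
      2 * B2.indicator (fun _ => (1 : ℝ)) ω) ∂perc =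
      ε + 2 * perc.real B1 + 2 * perc.real B2 := by
    have i1 : ∫ ω, 2 * B1.indicator (fun _ => (1 : ℝ)) ω ∂perc = 2 * perc.real B1 := by
      rw [integral_const_mul, integral_indicator_const _ hB1m]; simp
    have i2 : ∫ ω, 2 * B2.indicator (fun _ => (1 : ℝ)) ω ∂perc = 2 * perc.real B2 := by
      rw [integral_const_mul, integral_indicator_const _ hB2m]; simp
    have i3 : ∫ _ : Conf, ε ∂perc = ε := by simp
    rw [integral_add k3 k2, integral_add (integrable_const ε) k1, i1, i2, i3]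
  rw [e1]
  have m1 : perc.real B1 = perc.real B := by
    unfold Measure.real; rw [hB1, measure_toMeasurable]
  have m2 : perc.real B2 = perc.real B1 := by
    unfold Measure.real
    rw [hB2, (hF H).measure_preimage hB1m.nullMeasurableSet]
  rw [m2, m1]
  linarith

/-- decorrelation in terms of the parameters -/
theorem dec_cov (hF : S_FLIP) (hM : S_MIX) (hC : S_COAL) (hD : S_DIF) {r R R₂ : ℤ} {m n τ : ℕ}
    {δ : ℝ} (hr : 1 ≤ r) (hrR : r < R) (hRR : R < R₂) (hm : 1 ≤ m) (hn : 1 ≤ n) (hτ : τ ≤ n)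
    (hδ : 0 ≤ δ) {Φ Ψ : C(unitInterval, ℂ) → ℝ} (hΦ : Measurable Φ) (h0 : ∀ f, |Φ f| ≤ 1)
    (h1 : ∀ f, |Ψ f| ≤ 1) (hL : LipschitzWith 1 Ψ) :
    |∫ ω, Φ (curve m ω) * Ψ (curve n ω) ∂perc -
      (∫ ω, Φ (curve m ω) ∂perc) * ∫ ω, Ψ (curve n ω) ∂perc| ≤
      2 * δ * (n : ℝ) ^ (-(4/7) : ℝ) + 4 * perc.real {ω | Bd r R R₂ n τ δ ω} +
        4 * perc.real {ω | ¬ Stay r m ω} := by
  set f : Conf → ℝ := fun ω => Φ (curve m (trn r ω)) with hf
  set f0 : Conf → ℝ := fun ω => Φ (curve m ω) with hf0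
  set g : Conf → ℝ := fun ω => Ψ (curve n ω) with hg
  have mg : Measurable g := hL.continuous.measurable.comp (curve_meas n)
  have mf0 : Measurable f0 := hΦ.comp (curve_meas m)
  have mf : Measurable f := mf0.comp (trn_meas r)
  set δ' : ℝ := 2 * δ * (n : ℝ) ^ (-(4/7) : ℝ) + 4 * perc.real {ω | Bd r R R₂ n τ δ ω} with hδ'
  have hmix := hM (bx r).edges f g δ' mf mg (fun ω => h0 _) (fun ω => h1 _)
    (fun ω ω' h => by
      have : trn r ω = trn r ω' := by
        funext e
        unfold trn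
        by_cases he : e ∈ (bx r).edges
        · simp only [he, if_true]; exact h e he
        · simp only [he, if_false]
      simp only [hf, this])
    (fun H hH => dec_flip hF hC hD hr hrR hRR hn hτ hδ h1 hL hH)
  -- comparison of `f` and `f0`
  set S : Set Conf := {ω | ¬ Stay r m ω} with hS
  have hSm : MeasurableSet S := (stay_meas r m).compl
  have hpt : ∀ ω, |f0 ω - f ω| ≤ 2 * S.indicator (fun _ => (1 : ℝ)) ω := by
    intro ω
    by_cases hs : ω ∈ S
    · rw [Set.indicator_of_mem hs]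
      refine (abs_sub _ _).trans ?_
      have := h0 (curve m ω); have := h0 (curve m (trn r ω))
      simp only [hf, hf0]; linarith
    · rw [Set.indicator_of_notMem hs]
      have : Stay r m ω := by
        by_contra h; exact hs h
      simp only [hf, hf0, trn_curve hm this]
      simp
  have bf0 : Integrable f0 perc := Integrable.of_bound (C := 1) mf0.aestronglyMeasurable
    (Eventually.of_forall fun ω => h0 _)
  have bf : Integrable f perc := Integrable.of_bound (C := 1) mf.aestronglyMeasurable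
    (Eventually.of_forall fun ω => h0 _)
  have bg : Integrable g perc := Integrable.of_bound (C := 1) mg.aestronglyMeasurable
    (Eventually.of_forall fun ω => h1 _)
  have bf0g : Integrable (fun ω => f0 ω * g ω) perc := Integrable.of_bound (C := 1)
    (mf0.mul mg).aestronglyMeasurable (Eventually.of_forall fun ω => by
      rw [Real.norm_eq_abs, abs_mul]
      exact mul_le_one₀ (h0 _) (abs_nonneg _) (h1 _))
  have bfg : Integrable (fun ω => f ω * g ω) perc := Integrable.of_bound (C := 1)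
    (mf.mul mg).aestronglyMeasurable (Eventually.of_forall fun ω => by
      rw [Real.norm_eq_abs, abs_mul]
      exact mul_le_one₀ (h0 _) (abs_nonneg _) (h1 _))
  have bS : Integrable (fun ω => 2 * S.indicator (fun _ => (1 : ℝ)) ω) perc :=
    ((integrable_const _).indicator hSm).const_mul 2
  have iS : ∫ ω, 2 * S.indicator (fun _ => (1 : ℝ)) ω ∂perc = 2 * perc.real S := by
    rw [integral_const_mul, integral_indicator_const _ hSm]; simp
  have c1 : |∫ ω, f0 ω * g ω ∂perc - ∫ ω, f ω * g ω ∂perc| ≤ 2 * perc.real S := by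
    rw [← integral_sub bf0g bfg, ← iS]
    refine (abs_integral_le_integral_abs).trans (integral_mono (bf0g.sub bfg).abs bS fun ω => ?_)
    show |f0 ω * g ω - f ω * g ω| ≤ _
    rw [← sub_mul, abs_mul]
    calc |f0 ω - f ω| * |g ω| ≤ |f0 ω - f ω| * 1 :=
          mul_le_mul_of_nonneg_left (h1 _) (abs_nonneg _)
      _ ≤ _ := by rw [mul_one]; exact hpt ω
  have c2 : |∫ ω, f0 ω ∂perc - ∫ ω, f ω ∂perc| ≤ 2 * perc.real S := by
    rw [← integral_sub bf0 bf, ← iS]
    exact (abs_integral_le_integral_abs).trans (integral_mono (bf0.sub bf).abs bS hpt)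
  have c3 : |∫ ω, g ω ∂perc| ≤ 1 := by
    refine (abs_integral_le_integral_abs).trans ?_
    refine (integral_mono bg.abs (integrable_const (1 : ℝ)) fun ω => h1 _).trans ?_
    simp
  have e : ∫ ω, f0 ω * g ω ∂perc - (∫ ω, f0 ω ∂perc) * ∫ ω, g ω ∂perc =
      (∫ ω, f ω * g ω ∂perc - (∫ ω, f ω ∂perc) * ∫ ω, g ω ∂perc) +
      (∫ ω, f0 ω * g ω ∂perc - ∫ ω, f ω * g ω ∂perc) -
      (∫ ω, f0 ω ∂perc - ∫ ω, f ω ∂perc) * ∫ ω, g ω ∂perc := by ring
  show |∫ ω, f0 ω * g ω ∂perc - (∫ ω, f0 ω ∂perc) * ∫ ω, g ω ∂perc| ≤ _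
  rw [e]
  refine (abs_sub _ _).trans ?_
  refine (add_le_add (abs_add_le _ _) le_rfl).trans ?_
  have c4 : |(∫ ω, f0 ω ∂perc - ∫ ω, f ω ∂perc) * ∫ ω, g ω ∂perc| ≤ 2 * perc.real S := by
    rw [abs_mul]
    calc _ ≤ (2 * perc.real S) * 1 := mul_le_mul c2 c3 (abs_nonneg _) (by positivity)
      _ = _ := mul_one _
  linarith

end Pool.Agent.N956.EM
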