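import Pool.Agent.N956.EM.Dec

/-!
# Decorrelation of the rescaled curves at different scales: choice of the parameters
-/

set_option autoImplicit false

namespace Pool.Agent.N956.EM

open H974 Finset H342P H984P H984H MeasureTheory Filter Topology

theorem d2_ceil {x u : ℝ} (hx : 1 ≤ x) (hu : 1 < u) : x < (⌈x * u⌉ : ℤ) ∧
    x * u ≤ (⌈x * u⌉ : ℤ) ∧ ((⌈x * u⌉ : ℤ) : ℝ) ≤ 2 * (x * u) := by
  have h1 : x * u ≤ (⌈x * u⌉ : ℤ) := Int.le_ceil _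
  have h2 : ((⌈x * u⌉ : ℤ) : ℝ) < x * u + 1 := Int.ceil_lt_add_one _
  have h3 : x < x * u := by nlinarith
  refine ⟨by linarith, h1, by linarith⟩

theorem d2_rpow_le {x c c0 : ℝ} (hx : 1 ≤ x) (h : c0 ≤ c) : x ^ (-c) ≤ x ^ (-c0) :=
  Real.rpow_le_rpow_of_exponent_le hx (by linarith)

theorem d2_ratio {p q u a : ℝ} (hp : 0 < p) (hu : 1 < u) (ha : 0 < a) (h : p * u ≤ q) :
    (p / q) ^ a ≤ u ^ (-a) := by
  have hu0 : 0 < u := by linarith
  have hq : 0 < q := lt_of_lt_of_le (by positivity) h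
  have h1 : p / q ≤ u⁻¹ := by
    rw [div_le_iff₀ hq, inv_mul_eq_div, le_div_iff₀ hu0]
    exact h
  calc (p / q) ^ a ≤ (u⁻¹) ^ a := Real.rpow_le_rpow (by positivity) h1 ha.le
    _ = u ^ (-a) := by rw [Real.rpow_neg hu0.le, Real.inv_rpow hu0.le]

theorem d2_osc_mono {ω : Conf} {N τ : ℕ} {δ δ' : ℝ} (h : δ' ≤ δ) (ho : Osc ω N τ δ) :
    Osc ω N τ δ' := by
  obtain ⟨i, j, h1, h2, h3, h4⟩ := ho
  exact ⟨i, j, h1, h2, h3, h.trans h4⟩

theorem dec_param (hA : S_ARM) (hO : S_OSC) {c C : ℝ} (hc : 0 < c) (hC : 0 < C)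
    (hL : LowA c (1/4)) (hU : TwoUp C (1/4)) :
    ∃ K c0 : ℝ, 0 < K ∧ 0 < c0 ∧ c0 ≤ 1/2 ∧ ∀ (m n : ℕ) (u : ℝ), 1 ≤ m → 1 < u →
      (n : ℝ) = m * u ^ 14 → ∃ (r R R₂ : ℤ) (τ : ℕ) (δ : ℝ), 1 ≤ r ∧ r < R ∧ R < R₂ ∧ τ ≤ n ∧
        0 ≤ δ ∧ 2 * δ * (n : ℝ) ^ (-(4/7) : ℝ) ≤ K * u ^ (-c0) ∧
        perc.real {ω | Bd r R R₂ n τ δ ω} ≤ K * u ^ (-c0) ∧
        perc.real {ω | ¬ Stay r m ω} ≤ K * u ^ (-c0) := by
  obtain ⟨a, A, ha, hA0, harm⟩ := hA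
  obtain ⟨b, B, hb, hB0, hosc⟩ := hO
  obtain ⟨a1, A1, ha1, hA1, hup⟩ := tail_up hc hC hL hU
  obtain ⟨A2, hA2, hlow⟩ := tail_low hC hU
  set c1 : ℝ := 6 * b / B with hc1
  have hc1' : 0 < c1 := by positivity
  set c0 : ℝ := min (min a b) (min (1/2) c1) with hc0
  have g1 : c0 ≤ a := (min_le_left _ _).trans (min_le_left _ _)
  have g2 : c0 ≤ b := (min_le_left _ _).trans (min_le_right _ _)
  have g3 : c0 ≤ 1/2 := (min_le_right _ _).trans (min_le_left _ _)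
  have g4 : c0 ≤ c1 := (min_le_right _ _).trans (min_le_right _ _)
  have hc0' : 0 < c0 := lt_min (lt_min ha hb) (lt_min (by norm_num) hc1')
  set K1 : ℝ := 3 * A + A2 * 48 ^ (7/4 : ℝ) + B with hK1
  set K2 : ℝ := A1 / a1 * 2 with hK2
  set K : ℝ := 4 + K1 + K2 with hK
  have hK1' : 0 < K1 := by positivity
  have hK2' : 0 < K2 := by positivity
  refine ⟨K, c0, by positivity, hc0', g3, ?_⟩
  intro m n u hm hu hnu
  have hu0 : 0 < u := by linarith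
  have hm1 : (1 : ℝ) ≤ m := by exact_mod_cast hm
  have hm0 : (0 : ℝ) < m := by linarith
  set s : ℝ := (m : ℝ) ^ (4/7 : ℝ) with hs
  have hs1 : 1 ≤ s := Real.one_le_rpow hm1 (by norm_num)
  have hn0 : (0 : ℝ) < n := by rw [hnu]; positivity
  have hn1 : 1 ≤ n := by
    have : 0 < n := by exact_mod_cast hn0
    omega
  obtain ⟨r, hr⟩ : ∃ r : ℤ, r = ⌈s * u⌉ := ⟨_, rfl⟩
  obtain ⟨r1, r2, r3⟩ := d2_ceil hs1 hu
  rw [← hr] at r1 r2 r3
  have hr1 : (1 : ℝ) ≤ r := by linarith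
  obtain ⟨R, hR⟩ : ∃ R : ℤ, R = ⌈(r : ℝ) * u⌉ := ⟨_, rfl⟩
  obtain ⟨R1, R2, R3⟩ := d2_ceil hr1 hu
  rw [← hR] at R1 R2 R3
  have hR1 : (1 : ℝ) ≤ R := by linarith
  obtain ⟨R₂, hR₂⟩ : ∃ R₂ : ℤ, R₂ = ⌈(R : ℝ) * u⌉ := ⟨_, rfl⟩
  obtain ⟨Q1, Q2, Q3⟩ := d2_ceil hR1 hu
  rw [← hR₂] at Q1 Q2 Q3
  have hQ1 : (1 : ℝ) ≤ R₂ := by linarith
  have hR₂u : (R₂ : ℝ) ≤ 8 * (s * u ^ 3) := by
    calc (R₂ : ℝ) ≤ 2 * ((R : ℝ) * u) := Q3
      _ ≤ 2 * ((2 * ((r : ℝ) * u)) * u) := by gcongr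
      _ ≤ 2 * ((2 * ((2 * (s * u)) * u)) * u) := by gcongr
      _ = 8 * (s * u ^ 3) := by ring
  -- the time
  set y : ℝ := (m : ℝ) * u ^ 7 with hy
  have hu7 : 1 ≤ u ^ 7 := one_le_pow₀ hu.le
  have hy1 : 1 ≤ y := by rw [hy]; nlinarith
  obtain ⟨τ, hτ⟩ : ∃ τ : ℕ, τ = ⌊y⌋₊ := ⟨_, rfl⟩
  have t1 : (τ : ℝ) ≤ y := by rw [hτ]; exact Nat.floor_le (by linarith)
  have t2 : y < τ + 1 := by rw [hτ]; exact Nat.lt_floor_add_one _
  have t3 : 1 ≤ τ := by rw [hτ]; exact Nat.le_floor (by simpa using hy1)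
  have t3' : (1 : ℝ) ≤ τ := by exact_mod_cast t3
  have t4 : y / 2 ≤ τ := by linarith
  have hyn : y ≤ n := by
    rw [hnu, hy]
    have : u ^ 7 ≤ u ^ 14 := pow_le_pow_right₀ hu.le (by norm_num)
    exact mul_le_mul_of_nonneg_left this hm0.le
  have t5 : τ ≤ n := by
    have : (τ : ℝ) ≤ n := t1.trans hyn
    exact_mod_cast this
  have hupow : ∀ k : ℕ, (u ^ k : ℝ) = u ^ (k : ℝ) := fun k => (Real.rpow_natCast u k).symm
  have t6 : s * u ^ 4 / 2 ≤ (τ : ℝ) ^ (4/7 : ℝ) := by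
    have h1 : (y / 2) ^ (4/7 : ℝ) ≤ (τ : ℝ) ^ (4/7 : ℝ) :=
      Real.rpow_le_rpow (by positivity) t4 (by norm_num)
    have h2 : (y / 2) ^ (4/7 : ℝ) = s * u ^ 4 / 2 ^ (4/7 : ℝ) := by
      rw [Real.div_rpow (by positivity) (by norm_num), hy,
        Real.mul_rpow hm0.le (by positivity), hupow 7, ← Real.rpow_mul hu0.le, hupow 4]
      norm_num
      exact Or.inl hs.symm
    have h3 : (2 : ℝ) ^ (4/7 : ℝ) ≤ 2 := by
      calc (2 : ℝ) ^ (4/7 : ℝ) ≤ 2 ^ (1 : ℝ) :=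
            Real.rpow_le_rpow_of_exponent_le (by norm_num) (by norm_num)
        _ = 2 := Real.rpow_one 2
    calc s * u ^ 4 / 2 ≤ s * u ^ 4 / 2 ^ (4/7 : ℝ) := by gcongr
      _ = _ := h2.symm
      _ ≤ _ := h1
  -- the size of the increments
  set η : ℝ := u ^ (-c1) with hη
  have hη0 : 0 < η := Real.rpow_pos_of_pos hu0 _
  have hη1 : η ≤ 1 := Real.rpow_le_one_of_one_le_of_nonpos hu.le (by linarith)
  set δ : ℝ := η * ((2 * n : ℕ) : ℝ) ^ (4/7 : ℝ) with hδ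
  have hpc : ∀ c' : ℝ, c0 ≤ c' → u ^ (-c') ≤ u ^ (-c0) := fun c' h => d2_rpow_le hu.le h
  have hU0 : 0 < u ^ (-c0) := Real.rpow_pos_of_pos hu0 _
  refine ⟨r, R, R₂, τ, δ, by exact_mod_cast hr1, by exact_mod_cast R1, by exact_mod_cast Q1, t5,
    by positivity, ?_, ?_, ?_⟩
  · -- the distance
    have h1 : ((2 * n : ℕ) : ℝ) ^ (4/7 : ℝ) * (n : ℝ) ^ (-(4/7) : ℝ) = 2 ^ (4/7 : ℝ) := by
      push_cast
      rw [Real.mul_rpow (by norm_num) hn0.le, mul_assoc, ← Real.rpow_add hn0]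
      norm_num
    have h3 : (2 : ℝ) ^ (4/7 : ℝ) ≤ 2 := by
      calc (2 : ℝ) ^ (4/7 : ℝ) ≤ 2 ^ (1 : ℝ) :=
            Real.rpow_le_rpow_of_exponent_le (by norm_num) (by norm_num)
        _ = 2 := Real.rpow_one 2
    calc 2 * δ * (n : ℝ) ^ (-(4/7) : ℝ)
        = 2 * η * (((2 * n : ℕ) : ℝ) ^ (4/7 : ℝ) * (n : ℝ) ^ (-(4/7) : ℝ)) := by
          rw [hδ]; ring
      _ = 2 * η * 2 ^ (4/7 : ℝ) := by rw [h1]
      _ ≤ 2 * η * 2 := by gcongr
      _ = 4 * u ^ (-c1) := by rw [hη]; ring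
      _ ≤ 4 * u ^ (-c0) := mul_le_mul_of_nonneg_left (hpc _ g4) (by norm_num)
      _ ≤ K * u ^ (-c0) := mul_le_mul_of_nonneg_right (by rw [hK]; linarith) hU0.le
  · -- the bad event
    have hsub : {ω | Bd r R R₂ n τ δ ω} ⊆ {ω | ¬ GoodO ω r R} ∪ ({ω | ¬ GoodD ω r R} ∪
        ({ω | ¬ GoodO ω R R₂} ∪ ({ω | reach τ ω ≤ 3 * (R₂ : ℝ)} ∪ {ω | Osc ω (2 * n) τ δ}))) := by
      intro ω h
      exact h
    refine (measureReal_mono hsub (measure_ne_top _ _)).trans ?_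
    refine (measureReal_union_le _ _).trans ?_
    have e1 : perc.real {ω | ¬ GoodO ω r R} ≤ A * u ^ (-c0) := by
      have h1 := (harm r R (by exact_mod_cast hr1) (by exact_mod_cast R1.le)).1
      refine h1.trans (mul_le_mul_of_nonneg_left ?_ hA0.le)
      exact (d2_ratio (by linarith) hu ha R2).trans (hpc _ g1)
    have e2 : perc.real {ω | ¬ GoodD ω r R} ≤ A * u ^ (-c0) := by
      have h1 := (harm r R (by exact_mod_cast hr1) (by exact_mod_cast R1.le)).2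
      refine h1.trans (mul_le_mul_of_nonneg_left ?_ hA0.le)
      exact (d2_ratio (by linarith) hu ha R2).trans (hpc _ g1)
    have e3 : perc.real {ω | ¬ GoodO ω R R₂} ≤ A * u ^ (-c0) := by
      have h1 := (harm R R₂ (by exact_mod_cast hR1) (by exact_mod_cast Q1.le)).1
      refine h1.trans (mul_le_mul_of_nonneg_left ?_ hA0.le)
      exact (d2_ratio (by linarith) hu ha Q2).trans (hpc _ g1)
    have e4 : perc.real {ω | reach τ ω ≤ 3 * (R₂ : ℝ)} ≤ A2 * 48 ^ (7/4 : ℝ) * u ^ (-c0) := by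
      have hτp : 0 < (τ : ℝ) ^ (4/7 : ℝ) := by positivity
      have h1 := hlow τ (48 * u⁻¹) t3 (by positivity)
      have h2 : 3 * (R₂ : ℝ) ≤ 48 * u⁻¹ * (τ : ℝ) ^ (4/7 : ℝ) := by
        calc 3 * (R₂ : ℝ) ≤ 3 * (8 * (s * u ^ 3)) := by linarith
          _ = 48 * u⁻¹ * (s * u ^ 4 / 2) := by field_simp; ring
          _ ≤ _ := by gcongr
      have h3 : perc.real {ω | reach τ ω ≤ 3 * (R₂ : ℝ)} ≤
          perc.real {ω | reach τ ω ≤ 48 * u⁻¹ * (τ : ℝ) ^ (4/7 : ℝ)} :=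
        measureReal_mono (fun ω h => le_trans h h2) (measure_ne_top _ _)
      refine (h3.trans h1).trans ?_
      rw [Real.mul_rpow (by norm_num) (by positivity), Real.inv_rpow hu0.le,
        ← Real.rpow_neg hu0.le, ← mul_assoc]
      exact mul_le_mul_of_nonneg_left (hpc (7/4) (by linarith)) (by positivity)
    have e5 : perc.real {ω | Osc ω (2 * n) τ δ} ≤ B * u ^ (-c0) := by
      have h1 := hosc (2 * n) τ η t3 (by omega) hη0 hη1
      refine h1.trans ?_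
      rw [mul_assoc]
      refine mul_le_mul_of_nonneg_left ?_ hB0.le
      have h2 : η ^ (-B) = u ^ (6 * b) := by
        rw [hη, ← Real.rpow_mul hu0.le]
        congr 1
        rw [hc1]; field_simp
      have h3 : ((τ : ℝ) / ((2 * n : ℕ) : ℝ)) ^ b ≤ u ^ (-(7 * b)) := by
        have h4 : (τ : ℝ) / ((2 * n : ℕ) : ℝ) ≤ u ^ (-7 : ℝ) := by
          push_cast
          rw [div_le_iff₀ (by positivity), hnu, hupow 14]
          calc (τ : ℝ) ≤ (m : ℝ) * u ^ 7 := t1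
            _ ≤ 2 * ((m : ℝ) * u ^ 7) := by nlinarith
            _ = u ^ (-7 : ℝ) * (2 * ((m : ℝ) * u ^ ((14 : ℕ) : ℝ))) := by
                rw [hupow 7]
                have : u ^ ((7 : ℕ) : ℝ) = u ^ (-7 : ℝ) * u ^ ((14 : ℕ) : ℝ) := by
                  rw [← Real.rpow_add hu0]; norm_num
                rw [this]; ring
        calc ((τ : ℝ) / ((2 * n : ℕ) : ℝ)) ^ b ≤ (u ^ (-7 : ℝ)) ^ b :=
              Real.rpow_le_rpow (by positivity) h4 hb.le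
          _ = u ^ (-(7 * b)) := by rw [← Real.rpow_mul hu0.le]; congr 1; ring
      calc η ^ (-B) * ((τ : ℝ) / ((2 * n : ℕ) : ℝ)) ^ b ≤ u ^ (6 * b) * u ^ (-(7 * b)) := by
            rw [h2]; gcongr
        _ = u ^ (-b) := by rw [← Real.rpow_add hu0]; congr 1; ring
        _ ≤ u ^ (-c0) := hpc _ g2
    have e6 := measureReal_union_le (μ := perc) {ω | ¬ GoodD ω r R}
      ({ω | ¬ GoodO ω R R₂} ∪ ({ω | reach τ ω ≤ 3 * (R₂ : ℝ)} ∪ {ω | Osc ω (2 * n) τ δ}))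
    have e7 := measureReal_union_le (μ := perc) {ω | ¬ GoodO ω R R₂}
      ({ω | reach τ ω ≤ 3 * (R₂ : ℝ)} ∪ {ω | Osc ω (2 * n) τ δ})
    have e8 := measureReal_union_le (μ := perc) {ω | reach τ ω ≤ 3 * (R₂ : ℝ)}
      {ω | Osc ω (2 * n) τ δ}
    have e9 : 3 * (A * u ^ (-c0)) + A2 * 48 ^ (7/4 : ℝ) * u ^ (-c0) + B * u ^ (-c0) =
        K1 * u ^ (-c0) := by rw [hK1]; ring
    have e10 : K1 * u ^ (-c0) ≤ K * u ^ (-c0) :=
      mul_le_mul_of_nonneg_right (by rw [hK]; linarith) hU0.le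
    linarith
  · -- the path of `m` steps
    have hx : (0 : ℝ) < 3/4 * u := by positivity
    have h1 := hup m (3/4 * u) hm hx
    have h2 : {ω | ¬ Stay r m ω} ⊆ {ω | 3/4 * u * (m : ℝ) ^ (4/7 : ℝ) ≤ reach m ω} := by
      intro ω h
      refine trn_stay h ?_
      rw [← hs]
      nlinarith
    refine (measureReal_mono h2 (measure_ne_top _ _)).trans (h1.trans ?_)
    set z : ℝ := a1 * (3/4 * u) ^ (1/2 : ℝ) with hz
    have hz0 : 0 < z := by positivity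
    have h3 : Real.exp (-z) ≤ 1 / z := by
      rw [Real.exp_neg, one_div]
      apply inv_anti₀ hz0
      linarith [Real.add_one_le_exp z]
    have h4 : 1 / z ≤ 1 / a1 * 2 * u ^ (-(1/2) : ℝ) := by
      have h5 : (1/2 : ℝ) ≤ (3/4 : ℝ) ^ (1/2 : ℝ) := by
        have : (3/4 : ℝ) ^ (1 : ℝ) ≤ (3/4 : ℝ) ^ (1/2 : ℝ) :=
          Real.rpow_le_rpow_of_exponent_ge (by norm_num) (by norm_num) (by norm_num)
        rw [Real.rpow_one] at this
        linarith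
      have h6 : z = a1 * (3/4 : ℝ) ^ (1/2 : ℝ) * u ^ (1/2 : ℝ) := by
        rw [hz, Real.mul_rpow (by norm_num) hu0.le]; ring
      have h7 : 0 < u ^ (1/2 : ℝ) := Real.rpow_pos_of_pos hu0 _
      rw [h6, Real.rpow_neg hu0.le]
      rw [show 1 / a1 * 2 * (u ^ (1/2 : ℝ))⁻¹ = 1 / (a1 * (1/2) * u ^ (1/2 : ℝ)) by
        field_simp]
      gcongr
    calc A1 * Real.exp (-z) ≤ A1 * (1 / a1 * 2 * u ^ (-(1/2) : ℝ)) :=
          mul_le_mul_of_nonneg_left (h3.trans h4) hA1.le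
      _ = K2 * u ^ (-(1/2) : ℝ) := by rw [hK2]; ring
      _ ≤ K2 * u ^ (-c0) := mul_le_mul_of_nonneg_left (hpc _ g3) hK2'.le
      _ ≤ K * u ^ (-c0) := mul_le_mul_of_nonneg_right (by rw [hK]; linarith) hU0.le

theorem dec (hF : S_FLIP) (hM : S_MIX) (hCo : S_COAL) (hD : S_DIF) (hA : S_ARM) (hO : S_OSC)
    {c C : ℝ} (hc : 0 < c) (hC : 0 < C) (hL : LowA c (1/4)) (hU : TwoUp C (1/4)) : S_DEC := by
  obtain ⟨K, c0, hK, hc0, hc0', h⟩ := dec_param hA hO hc hC hL hU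
  refine ⟨max 2 (9 * K), c0 / 14, by positivity, by positivity, by linarith, ?_⟩
  intro m n hm hmn Φ Ψ hΦ h0 h1 hL1
  have hm0 : (0 : ℝ) < m := by exact_mod_cast (by omega : 0 < m)
  have hn0 : (0 : ℝ) < n := by exact_mod_cast (by omega : 0 < n)
  rcases eq_or_lt_of_le hmn with he | hlt
  · -- equal scales
    subst he
    rw [div_self hm0.ne', Real.one_rpow, mul_one]
    refine le_trans ?_ (le_max_left _ _)
    have bd : ∀ f : Conf → ℝ, (∀ ω, |f ω| ≤ 1) → |∫ ω, f ω ∂perc| ≤ 1 := by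
      intro f hf
      by_cases hi : Integrable f perc
      · refine (abs_integral_le_integral_abs).trans ?_
        refine (integral_mono hi.abs (integrable_const (1 : ℝ)) fun ω => hf ω).trans ?_
        simp
      · rw [integral_undef hi]; simp
    have b1 := bd (fun ω => Φ (curve m ω) * Ψ (curve m ω)) (fun ω => by
      rw [abs_mul]; exact mul_le_one₀ (h0 _) (abs_nonneg _) (h1 _))
    have b2 := bd (fun ω => Φ (curve m ω)) (fun ω => h0 _)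
    have b3 := bd (fun ω => Ψ (curve m ω)) (fun ω => h1 _)
    refine (abs_sub _ _).trans ?_
    rw [abs_mul]
    have b4 : |∫ ω, Φ (curve m ω) ∂perc| * |∫ ω, Ψ (curve m ω) ∂perc| ≤ 1 :=
      mul_le_one₀ b2 (abs_nonneg _) b3
    linarith
  · have hlt' : (m : ℝ) < n := by exact_mod_cast hlt
    set q : ℝ := (n : ℝ) / m with hq
    have hq1 : 1 < q := by rw [hq, one_lt_div hm0]; exact hlt'
    set u : ℝ := q ^ (1/14 : ℝ) with hu
    have hu1 : 1 < u := Real.one_lt_rpow hq1 (by norm_num)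
    have hu14 : u ^ 14 = q := by
      rw [hu, ← Real.rpow_natCast, ← Real.rpow_mul (by linarith)]
      norm_num
    have hnu : (n : ℝ) = m * u ^ 14 := by
      rw [hu14, hq]; field_simp
    obtain ⟨r, R, R₂, τ, δ, p1, p2, p3, p4, p5, p6, p7, p8⟩ := h m n u hm hu1 hnu
    have hcov := dec_cov hF hM hCo hD p1 p2 p3 hm (by omega : 1 ≤ n) p4 p5 hΦ h0 h1 hL1
    have e : u ^ (-c0) = ((m : ℝ) / n) ^ (c0 / 14) := by
      rw [hu, ← Real.rpow_mul (by linarith), show (m : ℝ) / n = q⁻¹ by rw [hq, inv_div],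
        Real.inv_rpow (by linarith), ← Real.rpow_neg (by linarith)]
      congr 1; ring
    rw [← e]
    have hU0 : 0 < u ^ (-c0) := Real.rpow_pos_of_pos (by linarith) _
    calc _ ≤ _ := hcov
      _ ≤ 9 * K * u ^ (-c0) := by linarith
      _ ≤ max 2 (9 * K) * u ^ (-c0) := by
          gcongr
          exact le_max_right _ _

end Pool.Agent.N956.EM
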