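import Pool.Agent.N956.EM.Stm

/-!
# Distance of the rescaled curves of two paths which coalesce
-/

set_option autoImplicit false

namespace Pool.Agent.N956.EM

open H974 Finset H342P H984P H984H MeasureTheory Filter Topology

theorem dif_node {ω ω' : Conf} {n τ T T' : ℕ} {δ : ℝ} (hτ : τ ≤ n) (hT : T ≤ τ) (hT' : T' ≤ τ)
    (hj : ∀ j, path ω (T + j) = path ω' (T' + j)) (ho : ¬ Osc ω (2 * n) τ δ)
    (ho' : ¬ Osc ω' (2 * n) τ δ) {k : ℕ} (hk : k ≤ n) : ‖gam ω k - gam ω' k‖ ≤ 2 * δ := by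
  unfold Osc at ho ho'
  push Not at ho ho'
  have hδ : 0 ≤ δ := (norm_nonneg _).trans (ho 0 0 le_rfl (by omega) (by omega)).le
  rcases le_or_gt k τ with h | h
  · have h1 := ho 0 k (by omega) (by omega) (by omega)
    have h2 := ho' 0 k (by omega) (by omega) (by omega)
    have h3 : gam ω 0 = gam ω' 0 := rfl
    have h4 : gam ω k - gam ω' k = (gam ω k - gam ω 0) - (gam ω' k - gam ω' 0) := by
      rw [h3]; ring
    rw [h4]
    refine (norm_sub_le _ _).trans ?_
    linarith
  · have h1 : gam ω k = gam ω' (k - T + T') := by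
      have := hj (k - T)
      unfold gam
      rw [show T + (k - T) = k by omega, show T' + (k - T) = k - T + T' by omega] at this
      rw [this]
    rw [h1]
    rcases le_total (k - T + T') k with h2 | h2
    · have h3 := ho' (k - T + T') k h2 (by omega) (by omega)
      rw [norm_sub_rev] at h3
      linarith
    · have h3 := ho' k (k - T + T') h2 (by omega) (by omega)
      linarith

theorem dif : S_DIF := by
  intro ω ω' n τ T T' δ hn hτ hT hT' hδ hj ho ho'
  have hd : 0 ≤ (n : ℝ) ^ (-(4/7) : ℝ) := by positivity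
  rw [ContinuousMap.dist_le (by positivity)]
  intro s
  obtain ⟨k, hk, h1, h2⟩ := H984N.pl_exists_seg hn s
  unfold curve
  rw [H984N.pl_seg hk h1 h2, H984N.pl_seg hk h1 h2, dist_eq_norm]
  set d : ℝ := (n : ℝ) ^ (-(4/7) : ℝ) with hdd
  have a1 := dif_node hτ hT hT' hj ho ho' (k := k) (by omega)
  have a2 := dif_node hτ hT hT' hj ho ho' (k := k + 1) (by omega)
  set u : ℝ := (s : ℝ) * n - k with hu
  have hu0 : 0 ≤ u := by linarith
  have hu1 : u ≤ 1 := by linarith
  have e : (↑d * gam ω k + ((u : ℝ) : ℂ) * (↑d * gam ω (k + 1) - ↑d * gam ω k)) -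
      (↑d * gam ω' k + ((u : ℝ) : ℂ) * (↑d * gam ω' (k + 1) - ↑d * gam ω' k)) =
      ((d : ℝ) : ℂ) * (((1 - u : ℝ) : ℂ) * (gam ω k - gam ω' k) +
        ((u : ℝ) : ℂ) * (gam ω (k + 1) - gam ω' (k + 1))) := by
    push_cast; ring
  refine le_of_eq_of_le (congrArg norm e) ?_
  rw [norm_mul, Complex.norm_real, Real.norm_eq_abs, abs_of_nonneg hd, mul_comm]
  refine mul_le_mul_of_nonneg_right ((norm_add_le _ _).trans ?_) hd
  rw [norm_mul, norm_mul, Complex.norm_real, Complex.norm_real, Real.norm_eq_abs,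
    Real.norm_eq_abs, abs_of_nonneg hu0, abs_of_nonneg (by linarith : 0 ≤ 1 - u)]
  nlinarith

end Pool.Agent.N956.EM
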