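import Pool.Agent.N956.EM.Stm
import Pool.Agent.H984R4.HN.FinalH

/-!
# Limit points of the logarithmic averages exist
-/

set_option autoImplicit false

namespace Pool.Agent.N956.EM

open H974 Finset H342P H984P H984H MeasureTheory Filter Topology

namespace Exi

noncomputable section

/-- the harmonic numbers -/
def hrm (N : ℕ) : ℝ := ∑ n ∈ Finset.Icc 1 N, (n : ℝ)⁻¹

theorem hrm_eq (N : ℕ) : hrm N = harmonic N := by
  rw [harmonic_eq_sum_Icc, hrm]
  push_cast
  rfl

theorem hrm_pos {N : ℕ} (hN : 1 ≤ N) : 0 < hrm N := by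
  rw [hrm]
  refine Finset.sum_pos (fun n hn => ?_) ⟨1, Finset.mem_Icc.2 ⟨le_rfl, hN⟩⟩
  have : (1 : ℝ) ≤ n := by exact_mod_cast (Finset.mem_Icc.1 hn).1
  positivity

theorem hrm_log : Tendsto (fun N : ℕ => hrm N / Real.log N) atTop (𝓝 1) := by
  have hlog : Tendsto (fun N : ℕ => Real.log N) atTop atTop :=
    Real.tendsto_log_atTop.comp tendsto_natCast_atTop_atTop
  have h1 : Tendsto (fun N : ℕ => (Real.log N)⁻¹ + 1) atTop (𝓝 1) := by
    simpa using (tendsto_inv_atTop_zero.comp hlog).add_const (1 : ℝ)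
  refine tendsto_of_tendsto_of_tendsto_of_le_of_le' tendsto_const_nhds h1 ?_ ?_
  · filter_upwards [eventually_gt_atTop 1] with N hN
    have hN' : (1 : ℝ) < N := by exact_mod_cast hN
    have hL : 0 < Real.log N := Real.log_pos hN'
    rw [le_div_iff₀ hL, one_mul, hrm_eq]
    refine le_trans ?_ (log_add_one_le_harmonic N)
    apply Real.log_le_log (by linarith)
    push_cast
    linarith
  · filter_upwards [eventually_gt_atTop 1] with N hN
    have hN' : (1 : ℝ) < N := by exact_mod_cast hN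
    have hL : 0 < Real.log N := Real.log_pos hN'
    rw [div_le_iff₀ hL, hrm_eq, add_mul, inv_mul_cancel₀ hL.ne', one_mul]
    exact harmonic_le_one_add_log N

/-- the weights -/
def wt (N n : ℕ) : ℝ := (n : ℝ)⁻¹ / hrm N

theorem wt_nonneg (N n : ℕ) (hN : 1 ≤ N) : 0 ≤ wt N n :=
  div_nonneg (by positivity) (hrm_pos hN).le

theorem wt_sum {N : ℕ} (hN : 1 ≤ N) : ∑ n ∈ Finset.Icc 1 N, wt N n = 1 := by
  unfold wt
  rw [← Finset.sum_div]
  exact div_self (hrm_pos hN).ne'

/-- the logarithmic average of the laws -/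
def mix (N : ℕ) : Measure C(unitInterval, ℂ) :=
  ∑ n ∈ Finset.Icc 1 N, ENNReal.ofReal (wt N n) • (lawH n : Measure C(unitInterval, ℂ))

theorem mix_apply (N : ℕ) (G : Set C(unitInterval, ℂ)) :
    mix N G = ∑ n ∈ Finset.Icc 1 N,
      ENNReal.ofReal (wt N n) * (lawH n : Measure C(unitInterval, ℂ)) G := by
  rw [mix, Measure.finsetSum_apply]
  rfl

theorem mix_le {N : ℕ} (hN : 1 ≤ N) {G : Set C(unitInterval, ℂ)} {ε : ENNReal}
    (h : ∀ n, (lawH n : Measure C(unitInterval, ℂ)) G ≤ ε) : mix N G ≤ ε := by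
  rw [mix_apply]
  calc ∑ n ∈ Finset.Icc 1 N, ENNReal.ofReal (wt N n) * (lawH n : Measure C(unitInterval, ℂ)) G
      ≤ ∑ n ∈ Finset.Icc 1 N, ENNReal.ofReal (wt N n) * ε :=
        Finset.sum_le_sum fun n _ => mul_le_mul_right (h n) _
    _ = ε := by
        rw [← Finset.sum_mul, ← ENNReal.ofReal_sum_of_nonneg (fun n _ => wt_nonneg N n hN),
          wt_sum hN, ENNReal.ofReal_one, one_mul]

theorem mix_prob {N : ℕ} (hN : 1 ≤ N) : IsProbabilityMeasure (mix N) := by
  refine ⟨?_⟩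
  rw [mix_apply]
  simp only [measure_univ, mul_one]
  rw [← ENNReal.ofReal_sum_of_nonneg (fun n _ => wt_nonneg N n hN), wt_sum hN, ENNReal.ofReal_one]

theorem exists_mixP (N : ℕ) : ∃ m : ProbabilityMeasure C(unitInterval, ℂ),
    (1 ≤ N → (m : Measure C(unitInterval, ℂ)) = mix N) ∧ (¬ 1 ≤ N → m = lawH 0) := by
  by_cases hN : 1 ≤ N
  · exact ⟨⟨mix N, mix_prob hN⟩, fun _ => rfl, fun h => absurd hN h⟩
  · exact ⟨lawH 0, fun h => absurd h hN, fun _ => rfl⟩

/-- the logarithmic average as a probability measure -/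
def mixP (N : ℕ) : ProbabilityMeasure C(unitInterval, ℂ) := Classical.choose (exists_mixP N)

theorem mixP_coe {N : ℕ} (hN : 1 ≤ N) : (mixP N : Measure C(unitInterval, ℂ)) = mix N :=
  (Classical.choose_spec (exists_mixP N)).1 hN

theorem mixP_le {G : Set C(unitInterval, ℂ)} {ε : ENNReal}
    (h : ∀ n, (lawH n : Measure C(unitInterval, ℂ)) G ≤ ε) (N : ℕ) :
    (mixP N : Measure C(unitInterval, ℂ)) G ≤ ε := by
  by_cases hN : 1 ≤ N
  · rw [mixP_coe hN]
    exact mix_le hN h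
  · have h1 : mixP N = lawH 0 := (Classical.choose_spec (exists_mixP N)).2 hN
    rw [h1]
    exact h 0

theorem avg_eq {Φ : C(unitInterval, ℂ) → ℝ} (hΦ : Continuous Φ) {M : ℝ} (hM : ∀ f, |Φ f| ≤ M)
    {N : ℕ} (hN : 1 ≤ N) :
    avg Φ N = hrm N / Real.log N * ∫ f, Φ f ∂(mixP N : Measure C(unitInterval, ℂ)) := by
  have hint : ∀ n ∈ Finset.Icc 1 N, Integrable Φ
      (ENNReal.ofReal (wt N n) • (lawH n : Measure C(unitInterval, ℂ))) := by
    intro n _
    refine Integrable.smul_measure ?_ ENNReal.ofReal_ne_top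
    exact Integrable.of_bound hΦ.aestronglyMeasurable M
      (Eventually.of_forall fun f => by rw [Real.norm_eq_abs]; exact hM f)
  rw [mixP_coe hN, mix, integral_finsetSum_measure hint, avg]
  have h1 : ∀ n ∈ Finset.Icc 1 N,
      ∫ f, Φ f ∂(ENNReal.ofReal (wt N n) • (lawH n : Measure C(unitInterval, ℂ))) =
        (n : ℝ)⁻¹ * (∫ ω, Φ (curve n ω) ∂perc) / hrm N := by
    intro n _
    rw [integral_smul_measure, ENNReal.toReal_ofReal (wt_nonneg N n hN), lawH_int n hΦ, wt,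
      smul_eq_mul]
    ring
  rw [Finset.sum_congr rfl h1, ← Finset.sum_div]
  have h2 := (hrm_pos hN).ne'
  field_simp

end

end Exi

open Exi in
/-- EXI: limit points of the logarithmic averages exist -/
theorem exi {c C : ℝ} (hc : 0 < c) (hC : 0 < C) (hL : LowA c (1/4)) (hU : TwoUp C (1/4)) :
    S_EXI := by
  intro φ hφ
  obtain ⟨ψ, hψ, ν, hν⟩ := exists_limitC (β := 1 / 2) (by norm_num)
    (ν := fun i => mixP (φ i)) (by
      intro ε hε
      obtain ⟨Λ, hΛ, h⟩ := lawH_tight hc hC hL hU (β := 1 / 2) (by norm_num) (by norm_num) hε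
      exact ⟨Λ, hΛ, fun i => mixP_le h _⟩)
  refine ⟨ψ, hψ, ν, fun Φ hΦ hM => ?_⟩
  obtain ⟨M, hM⟩ := hM
  let Φb : BoundedContinuousFunction C(unitInterval, ℂ) ℝ :=
    BoundedContinuousFunction.ofNormedAddCommGroup Φ hΦ M
      (fun f => by rw [Real.norm_eq_abs]; exact hM f)
  have h1 := (ProbabilityMeasure.tendsto_iff_forall_integral_tendsto.1 hν) Φb
  have h2 : Tendsto (fun i => φ (ψ i)) atTop atTop := hφ.comp hψ.tendsto_atTop
  have h3 : Tendsto (fun i => hrm (φ (ψ i)) / Real.log (φ (ψ i) : ℕ)) atTop (𝓝 1) :=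
    hrm_log.comp h2
  have h4 := h3.mul h1
  rw [one_mul] at h4
  refine h4.congr' ?_
  filter_upwards [h2.eventually_ge_atTop 1] with i hi
  exact (avg_eq hΦ hM hi).symm

end Pool.Agent.N956.EM
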