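import Pool.Agent.N956.EM.Stm2

/-!
# Decorrelation between the first part and the whole curve, for the limits (helper684)
-/

set_option autoImplicit false

namespace Pool.Agent.N956.EM

open H974 Finset H342P H984P H984H MeasureTheory Filter Topology

theorem GA_shrink_cont (t : unitInterval) : Continuous (shrink t) := by
  let k : C(unitInterval, unitInterval) := ⟨fun s => t * s, by fun_prop⟩
  have h : shrink t = fun f : C(unitInterval, ℂ) =>
      ((((t : ℝ) ^ (-(4/7) : ℝ) : ℝ) : ℂ)) • f.comp k := by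
    funext f
    ext s
    rfl
  have h2 : Continuous (fun f : C(unitInterval, ℂ) => f.comp k) :=
    ContinuousMap.continuous_precomp k
  rw [h]
  exact h2.const_smul ((((t : ℝ) ^ (-(4/7) : ℝ) : ℝ) : ℂ))

theorem GA_lim {φ : ℕ → ℕ} {μ : ProbabilityMeasure C(unitInterval, ℂ)}
    (hμ : Tendsto (fun i => lawH (φ i)) atTop (𝓝 μ)) (g : C(unitInterval, ℂ) → ℝ)
    (hg : Continuous g) (hb : ∀ f, |g f| ≤ 1) :
    Tendsto (fun i => ∫ ω, g (curve (φ i) ω) ∂perc) atTop
      (𝓝 (∫ f, g f ∂(μ : Measure C(unitInterval, ℂ)))) := by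
  have h := ProbabilityMeasure.tendsto_iff_forall_integral_tendsto.1 hμ
    (BoundedContinuousFunction.ofNormedAddCommGroup g hg 1 (fun f => by
      rw [Real.norm_eq_abs]; exact hb f))
  simp only [BoundedContinuousFunction.coe_ofNormedAddCommGroup] at h
  refine h.congr (fun i => ?_)
  exact lawH_int (φ i) hg

theorem GA_bdd_int {g : Conf → ℝ} (hg : Measurable g) {B : ℝ} (hb : ∀ ω, |g ω| ≤ B) :
    Integrable g perc := by
  refine Integrable.mono' (integrable_const B) hg.aestronglyMeasurable ?_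
  exact Filter.Eventually.of_forall (fun ω => by rw [Real.norm_eq_abs]; exact hb ω)

theorem ga (hD : S_DEC) (hS : S_SHR1) : S_GA := by
  obtain ⟨C, c, hC, hc, -, hdec⟩ := hD
  refine ⟨C, c, hC, hc, ?_⟩
  rintro φ hφ μ hμ t ht Φ Ψ hΦb hΨb ⟨L, hL⟩ hΨ
  have htR : (0 : ℝ) < t := ht
  have ht1 : (t : ℝ) ≤ 1 := t.2.2
  have hΦc : Continuous Φ := hL.continuous
  have hΨc : Continuous Ψ := hΨ.continuous
  have hsc := GA_shrink_cont t
  have hΦm : Measurable Φ := hΦc.measurable
  have hΨm : Measurable Ψ := hΨc.measurable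
  have hsm : Measurable (shrink t) := hsc.measurable
  -- the rescaled function
  obtain ⟨K, hK1, hK⟩ : ∃ K : ℝ, 1 ≤ K ∧ ∀ f g, |Φ f - Φ g| ≤ K * dist f g := by
    refine ⟨max (L : ℝ) 1, le_max_right _ _, fun f g => ?_⟩
    have h := hL.dist_le_mul f g
    rw [Real.dist_eq] at h
    exact h.trans (mul_le_mul_of_nonneg_right (le_max_left _ _) dist_nonneg)
  have hK0 : 0 < K := by linarith
  have hΦ'b : ∀ f, |Φ f / K| ≤ 1 := by
    intro f
    rw [abs_div, abs_of_pos hK0, div_le_one hK0]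
    exact (hΦb f).trans hK1
  have hΦ'L : LipschitzWith 1 (fun f => Φ f / K) := by
    refine LipschitzWith.of_dist_le_mul (fun f g => ?_)
    rw [Real.dist_eq, ← sub_div, abs_div, abs_of_pos hK0, div_le_iff₀ hK0]
    have := hK f g
    simp only [NNReal.coe_one, one_mul]
    linarith
  have hE0 := (hS (fun f => Φ f / K) hΦ'b hΦ'L t ht).comp hφ
  set m : ℕ → ℕ := fun i => ⌊(t : ℝ) * (φ i : ℕ)⌋₊ with hm
  set E : ℕ → ℝ := fun i =>
    ∫ ω, |Φ (shrink t (curve (φ i) ω)) - Φ (curve (m i) ω)| ∂perc with hEdef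
  have hE : Tendsto E atTop (𝓝 0) := by
    have h1 := hE0.const_mul K
    rw [mul_zero] at h1
    refine h1.congr (fun i => ?_)
    simp only [Function.comp, hEdef, hm]
    rw [← integral_const_mul]
    apply integral_congr_ae
    refine Filter.Eventually.of_forall (fun ω => ?_)
    simp only
    rw [← sub_div, abs_div, abs_of_pos hK0, mul_div_cancel₀ _ hK0.ne']
  have hcm : ∀ n, Measurable (curve n) := fun n => curve_meas n
  -- limits
  have hA := GA_lim hμ (fun f => Φ (shrink t f) * Ψ f) ((hΦc.comp hsc).mul hΨc) (fun f => by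
    rw [abs_mul]
    calc |Φ (shrink t f)| * |Ψ f| ≤ 1 * 1 :=
          mul_le_mul (hΦb _) (hΨb _) (abs_nonneg _) zero_le_one
      _ = 1 := one_mul 1)
  have hB := GA_lim hμ (fun f => Φ (shrink t f)) (hΦc.comp hsc) (fun f => hΦb _)
  have hDd := GA_lim hμ Ψ hΨc hΨb
  have hlim := ((hA.sub (hB.mul hDd)).abs)
  have hrhs : Tendsto (fun i => C * (t : ℝ) ^ c + 2 * E i) atTop (𝓝 (C * (t : ℝ) ^ c)) := by
    have := (hE.const_mul 2).const_add (C * (t : ℝ) ^ c)
    simpa using this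
  refine le_of_tendsto_of_tendsto hlim hrhs ?_
  -- eventually m ≥ 1
  have hmev : ∀ᶠ i in atTop, 1 ≤ m i := by
    have h1 : Tendsto (fun i => (t : ℝ) * (φ i : ℕ)) atTop atTop :=
      Tendsto.const_mul_atTop htR (tendsto_natCast_atTop_atTop.comp hφ)
    filter_upwards [h1.eventually_ge_atTop 1] with i hi
    rw [hm]
    exact Nat.le_floor (by exact_mod_cast hi)
  filter_upwards [hmev] with i hi
  have hmn : (m i : ℝ) ≤ t * (φ i : ℕ) := Nat.floor_le (by positivity)
  have hmn' : m i ≤ φ i := by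
    have : (m i : ℝ) ≤ (φ i : ℕ) := hmn.trans (mul_le_of_le_one_left (Nat.cast_nonneg _) ht1)
    exact_mod_cast this
  have hn1 : (0 : ℝ) < (φ i : ℕ) := by
    have : 1 ≤ φ i := hi.trans hmn'
    exact_mod_cast this
  have h1 := hdec (m i) (φ i) hi hmn' Φ Ψ hΦm hΦb hΨb hΨ
  have h2 : C * ((m i : ℝ) / (φ i : ℕ)) ^ c ≤ C * (t : ℝ) ^ c := by
    apply mul_le_mul_of_nonneg_left _ hC.le
    apply Real.rpow_le_rpow (by positivity) _ hc.le
    rw [div_le_iff₀ hn1]
    exact hmn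
  -- integrability
  have i1 : Integrable (fun ω => Φ (shrink t (curve (φ i) ω)) * Ψ (curve (φ i) ω)) perc :=
    GA_bdd_int ((hΦm.comp (hsm.comp (hcm _))).mul (hΨm.comp (hcm _))) (B := 1) (fun ω => by
      rw [abs_mul]
      calc |Φ (shrink t (curve (φ i) ω))| * |Ψ (curve (φ i) ω)| ≤ 1 * 1 :=
            mul_le_mul (hΦb _) (hΨb _) (abs_nonneg _) zero_le_one
        _ = 1 := one_mul 1)
  have i2 : Integrable (fun ω => Φ (curve (m i) ω) * Ψ (curve (φ i) ω)) perc :=
    GA_bdd_int ((hΦm.comp (hcm _)).mul (hΨm.comp (hcm _))) (B := 1) (fun ω => by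
      rw [abs_mul]
      calc |Φ (curve (m i) ω)| * |Ψ (curve (φ i) ω)| ≤ 1 * 1 :=
            mul_le_mul (hΦb _) (hΨb _) (abs_nonneg _) zero_le_one
        _ = 1 := one_mul 1)
  have i3 : Integrable (fun ω => Φ (shrink t (curve (φ i) ω))) perc :=
    GA_bdd_int (hΦm.comp (hsm.comp (hcm _))) (B := 1) (fun ω => hΦb _)
  have i4 : Integrable (fun ω => Φ (curve (m i) ω)) perc :=
    GA_bdd_int (hΦm.comp (hcm _)) (B := 1) (fun ω => hΦb _)
  have i5 : Integrable (fun ω => |Φ (shrink t (curve (φ i) ω)) - Φ (curve (m i) ω)|) perc :=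
    (i3.sub i4).abs
  have e1 : |(∫ ω, Φ (shrink t (curve (φ i) ω)) * Ψ (curve (φ i) ω) ∂perc) -
      ∫ ω, Φ (curve (m i) ω) * Ψ (curve (φ i) ω) ∂perc| ≤ E i := by
    rw [← integral_sub i1 i2]
    refine (abs_integral_le_integral_abs).trans ?_
    apply integral_mono (i1.sub i2).abs i5
    intro ω
    simp only [Pi.sub_apply]
    rw [← sub_mul, abs_mul]
    exact mul_le_of_le_one_right (abs_nonneg _) (hΨb _)
  have e2 : |(∫ ω, Φ (shrink t (curve (φ i) ω)) ∂perc) -
      ∫ ω, Φ (curve (m i) ω) ∂perc| ≤ E i := by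
    rw [← integral_sub i3 i4]
    exact abs_integral_le_integral_abs
  have e3 : |∫ ω, Ψ (curve (φ i) ω) ∂perc| ≤ 1 := by
    have h := norm_integral_le_of_norm_le_const (μ := perc) (f := fun ω => Ψ (curve (φ i) ω))
      (C := 1) (Filter.Eventually.of_forall (fun ω => by rw [Real.norm_eq_abs]; exact hΨb _))
    rw [Real.norm_eq_abs] at h
    simpa using h
  set a := ∫ ω, Φ (shrink t (curve (φ i) ω)) * Ψ (curve (φ i) ω) ∂perc
  set a' := ∫ ω, Φ (curve (m i) ω) * Ψ (curve (φ i) ω) ∂perc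
  set b := ∫ ω, Φ (shrink t (curve (φ i) ω)) ∂perc
  set b' := ∫ ω, Φ (curve (m i) ω) ∂perc
  set d := ∫ ω, Ψ (curve (φ i) ω) ∂perc
  have e4 : |(b' - b) * d| ≤ E i := by
    rw [abs_mul, abs_sub_comm]
    calc |b - b'| * |d| ≤ |b - b'| * 1 := mul_le_mul_of_nonneg_left e3 (abs_nonneg _)
      _ ≤ E i := by rw [mul_one]; exact e2
  have e5 : a - b * d = (a - a') + (a' - b' * d) + (b' - b) * d := by ring
  show |a - b * d| ≤ _
  rw [e5]
  refine (abs_add_le _ _).trans ?_
  have e6 := abs_add_le (a - a') (a' - b' * d)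
  linarith

end Pool.Agent.N956.EM
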