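import Pool.Agent.N956.EM.Stm2

/-!
# Project EM, task GB: zero-one law from the decorrelation
-/

set_option autoImplicit false

namespace Pool.Agent.N956.EM

open H974 Finset H342P H984P H984H MeasureTheory Filter Topology
open scoped NNReal ENNReal

/-! ### general lemmas -/

/-- bounded functions are integrable -/
theorem GB_int {X : Type*} [MeasurableSpace X] {μ : Measure X} [IsProbabilityMeasure μ] {u : X → ℝ}
    (hu : Measurable u) {M : ℝ} (h : ∀ x, |u x| ≤ M) : Integrable u μ :=
  Integrable.of_bound hu.aestronglyMeasurable M (Eventually.of_forall fun x => h x)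

/-- the correlation of two functions changes little if one of them is approximated in mean -/
theorem GB_cor {X : Type*} [MeasurableSpace X] (μ : Measure X) [IsProbabilityMeasure μ]
    {u v w : X → ℝ} (hu : Measurable u) (hv : Measurable v) (hw : Measurable w)
    (hu1 : ∀ x, |u x| ≤ 1) (hv1 : ∀ x, |v x| ≤ 1) (hw1 : ∀ x, |w x| ≤ 1) {ε D : ℝ}
    (h1 : ∫ x, |u x - v x| ∂μ ≤ ε)
    (h2 : |∫ x, v x * w x ∂μ - (∫ x, v x ∂μ) * ∫ x, w x ∂μ| ≤ D) :
    |∫ x, u x * w x ∂μ - (∫ x, u x ∂μ) * ∫ x, w x ∂μ| ≤ D + 2 * ε := by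
  have iu := GB_int (μ := μ) hu hu1
  have iv := GB_int (μ := μ) hv hv1
  have iw := GB_int (μ := μ) hw hw1
  have b2 : ∀ a b : ℝ, |a| ≤ 1 → |b| ≤ 1 → |a * b| ≤ 1 := by
    intro a b ha hb
    rw [abs_mul]
    exact mul_le_one₀ ha (abs_nonneg _) hb
  have iuw : Integrable (fun x => u x * w x) μ :=
    GB_int (μ := μ) (hu.mul hw) fun x => b2 _ _ (hu1 x) (hw1 x)
  have ivw : Integrable (fun x => v x * w x) μ :=
    GB_int (μ := μ) (hv.mul hw) fun x => b2 _ _ (hv1 x) (hw1 x)
  have iuv : Integrable (fun x => |u x - v x|) μ := (iu.sub iv).abs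
  have e1 : |∫ x, u x * w x ∂μ - ∫ x, v x * w x ∂μ| ≤ ε := by
    rw [← integral_sub iuw ivw]
    refine (abs_integral_le_integral_abs).trans (le_trans ?_ h1)
    refine integral_mono (iuw.sub ivw).abs iuv fun x => ?_
    show |u x * w x - v x * w x| ≤ |u x - v x|
    rw [← sub_mul, abs_mul]
    exact mul_le_of_le_one_right (abs_nonneg _) (hw1 x)
  have e2 : |∫ x, u x ∂μ - ∫ x, v x ∂μ| ≤ ε := by
    rw [← integral_sub iu iv]
    exact (abs_integral_le_integral_abs).trans h1
  have e3 : |∫ x, w x ∂μ| ≤ 1 := by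
    refine (abs_integral_le_integral_abs).trans ?_
    calc ∫ x, |w x| ∂μ ≤ ∫ _x, (1 : ℝ) ∂μ :=
          integral_mono iw.abs (integrable_const _) fun x => hw1 x
      _ = 1 := by simp
  have e4 : |(∫ x, u x ∂μ - ∫ x, v x ∂μ) * ∫ x, w x ∂μ| ≤ ε := by
    rw [abs_mul]
    exact (mul_le_of_le_one_right (abs_nonneg _) e3).trans e2
  have e5 := abs_le.1 e1
  have e6 := abs_le.1 e4
  have e7 := abs_le.1 h2
  rw [abs_le]
  constructor
  · nlinarith [e5.1, e6.2, e7.1]
  · nlinarith [e5.2, e6.1, e7.2]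

/-- approximation of the indicator of a measurable set by Lipschitz functions -/
theorem GB_approx {X : Type*} [PseudoMetricSpace X] [MeasurableSpace X] [BorelSpace X]
    (ν : Measure X) [IsProbabilityMeasure ν] {A : Set X} (hA : MeasurableSet A) {ε : ℝ}
    (hε : 0 < ε) : ∃ Φ : X → ℝ, (∃ L, LipschitzWith L Φ) ∧ (∀ x, |Φ x| ≤ 1) ∧
      ∫ x, |A.indicator 1 x - Φ x| ∂ν ≤ ε := by
  obtain ⟨F, hFA, hF, hν⟩ := hA.exists_isClosed_lt_add (μ := ν) (measure_ne_top ν A)
    (ε := ENNReal.ofReal (ε / 2)) (by simpa using hε)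
  have hFm := hF.measurableSet
  -- the thickened indicators
  let δ : ℕ → ℝ := fun n => 1 / ((n : ℝ) + 1)
  have δ0 : ∀ n, 0 < δ n := fun n => Nat.one_div_pos_of_nat
  have δt : Tendsto δ atTop (𝓝 0) := tendsto_one_div_add_atTop_nhds_zero_nat
  let g : ℕ → X → ℝ := fun n x => ((thickenedIndicator (δ0 n) F x : ℝ≥0) : ℝ)
  have g_def : ∀ n x, g n x = ((thickenedIndicator (δ0 n) F x : ℝ≥0) : ℝ) := fun _ _ => rfl
  have gL : ∀ n, LipschitzWith (δ n).toNNReal⁻¹ (g n) := by
    intro n
    have h1 := lipschitzWith_thickenedIndicator (δ0 n) F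
    refine LipschitzWith.of_dist_le_mul fun x y => ?_
    exact h1.dist_le_mul x y
  have gm : ∀ n, Measurable (g n) := fun n => (gL n).continuous.measurable
  have g0 : ∀ n x, 0 ≤ g n x := fun n x => NNReal.coe_nonneg _
  have g1 : ∀ n x, g n x ≤ 1 := by
    intro n x
    exact_mod_cast thickenedIndicator_le_one (δ0 n) F x
  have gabs : ∀ n x, |g n x| ≤ 1 := fun n x => by
    rw [abs_of_nonneg (g0 n x)]
    exact g1 n x
  have gF : ∀ n, ∀ x ∈ F, g n x = 1 := by
    intro n x hx
    rw [g_def, thickenedIndicator_one (δ0 n) F hx]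
    rfl
  have glim : ∀ x, Tendsto (fun n => g n x) atTop (𝓝 (F.indicator 1 x)) := by
    intro x
    have h1 := thickenedIndicator_tendsto_indicator_closure δ0 δt F
    rw [hF.closure_eq] at h1
    have h2 := (tendsto_pi_nhds.1 h1) x
    have h3 := (NNReal.tendsto_coe.2 h2)
    refine h3.congr' ?_ |>.trans_eq ?_
    · exact Eventually.of_forall fun n => rfl
    · congr 1
      by_cases hx : x ∈ F
      · rw [Set.indicator_of_mem hx, Set.indicator_of_mem hx]
        rfl
      · rw [Set.indicator_of_notMem hx, Set.indicator_of_notMem hx]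
        rfl
  have hlim : Tendsto (fun n => ∫ x, g n x ∂ν) atTop (𝓝 (∫ x, F.indicator 1 x ∂ν)) := by
    refine tendsto_integral_of_dominated_convergence (fun _ => 1)
      (fun n => (gm n).aestronglyMeasurable) (integrable_const _) (fun n => ?_) ?_
    · exact Eventually.of_forall fun x => gabs n x
    · exact Eventually.of_forall glim
  rw [integral_indicator_one hFm] at hlim
  have h1 : ∀ᶠ n in atTop, ∫ x, g n x ∂ν < ν.real F + ε / 2 :=
    hlim.eventually (gt_mem_nhds (by linarith))
  obtain ⟨n, hn⟩ := h1.exists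
  have mA : Measurable (A.indicator (1 : X → ℝ)) := measurable_one.indicator hA
  have mF : Measurable (F.indicator (1 : X → ℝ)) := measurable_one.indicator hFm
  have bA : ∀ (B : Set X) (x : X), |B.indicator (1 : X → ℝ) x| ≤ 1 := by
    intro B x
    by_cases hx : x ∈ B
    · rw [Set.indicator_of_mem hx]
      simp
    · rw [Set.indicator_of_notMem hx]
      simp
  have iA := GB_int (μ := ν) mA (bA A)
  have iF := GB_int (μ := ν) mF (bA F)
  have ig := GB_int (μ := ν) (gm n) (gabs n)
  have iAF : Integrable (fun x => A.indicator (1 : X → ℝ) x - F.indicator (1 : X → ℝ) x) ν :=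
    iA.sub iF
  have igF : Integrable (fun x => g n x - F.indicator (1 : X → ℝ) x) ν := ig.sub iF
  refine ⟨g n, ⟨_, gL n⟩, gabs n, ?_⟩
  have h2 : ∀ x, |A.indicator (1 : X → ℝ) x - g n x| ≤
      (A.indicator (1 : X → ℝ) x - F.indicator (1 : X → ℝ) x) +
        (g n x - F.indicator (1 : X → ℝ) x) := by
    intro x
    by_cases hx : x ∈ F
    · rw [Set.indicator_of_mem hx, Set.indicator_of_mem (hFA hx), gF n x hx]
      simp
    · rw [Set.indicator_of_notMem hx]
      by_cases hx' : x ∈ A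
      · rw [Set.indicator_of_mem hx']
        have := g0 n x
        have := g1 n x
        rw [abs_le]
        constructor <;> simp only [Pi.one_apply] <;> linarith
      · rw [Set.indicator_of_notMem hx']
        have := g0 n x
        rw [abs_le]
        constructor <;> linarith
  have hνr : ν.real A ≤ ν.real F + ε / 2 := by
    have h3 : ν A ≤ ν F + ENNReal.ofReal (ε / 2) := hν.le
    have h4 := ENNReal.toReal_mono (by finiteness) h3
    rw [ENNReal.toReal_add (measure_ne_top _ _) (by finiteness),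
      ENNReal.toReal_ofReal (by linarith)] at h4
    exact h4
  calc ∫ x, |A.indicator 1 x - g n x| ∂ν ≤
      ∫ x, ((A.indicator (1 : X → ℝ) x - F.indicator (1 : X → ℝ) x) +
        (g n x - F.indicator (1 : X → ℝ) x)) ∂ν :=
        integral_mono (iA.sub ig).abs (iAF.add igF) h2
    _ = (ν.real A - ν.real F) + (∫ x, g n x ∂ν - ν.real F) := by
        rw [integral_add iAF igF, integral_sub iA iF, integral_sub ig iF,
          integral_indicator_one hA, integral_indicator_one hFm]
    _ ≤ ε := by linarith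

/-- an event which is uncorrelated with Lipschitz functions is trivial -/
theorem GB_triv {X : Type*} [PseudoMetricSpace X] [MeasurableSpace X] [BorelSpace X]
    (μ : Measure X) [IsProbabilityMeasure μ] {A : Set X} (hA : MeasurableSet A)
    (h : ∀ Ψ : X → ℝ, (∀ x, |Ψ x| ≤ 1) → LipschitzWith 1 Ψ →
      ∫ x, A.indicator 1 x * Ψ x ∂μ = (∫ x, A.indicator (1 : X → ℝ) x ∂μ) * ∫ x, Ψ x ∂μ) :
    μ A = 0 ∨ μ A = 1 := by
  have mA : Measurable (A.indicator (1 : X → ℝ)) := measurable_one.indicator hA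
  have bA : ∀ x : X, |A.indicator (1 : X → ℝ) x| ≤ 1 := by
    intro x
    by_cases hx : x ∈ A
    · rw [Set.indicator_of_mem hx]
      simp
    · rw [Set.indicator_of_notMem hx]
      simp
  have hLip : ∀ Ψ : X → ℝ, (∀ x, |Ψ x| ≤ 1) → (∃ L, LipschitzWith L Ψ) →
      ∫ x, A.indicator 1 x * Ψ x ∂μ = (∫ x, A.indicator (1 : X → ℝ) x ∂μ) * ∫ x, Ψ x ∂μ := by
    rintro Ψ hΨ ⟨L, hL⟩
    set M : ℝ := (L : ℝ) + 1 with hM
    have hM0 : 0 < M := by positivity
    have hM1 : M⁻¹ ≤ 1 := inv_le_one_of_one_le₀ (by rw [hM]; linarith [L.2])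
    have hMi : 0 ≤ M⁻¹ := inv_nonneg.2 hM0.le
    have h1 := h (fun x => M⁻¹ * Ψ x) (fun x => by
        rw [abs_mul, abs_of_nonneg hMi]
        exact mul_le_one₀ hM1 (abs_nonneg _) (hΨ x)) (by
        refine LipschitzWith.of_dist_le_mul fun x y => ?_
        rw [Real.dist_eq, ← mul_sub, abs_mul, abs_of_nonneg hMi, NNReal.coe_one, one_mul,
          inv_mul_le_iff₀ hM0, ← Real.dist_eq]
        refine (hL.dist_le_mul x y).trans ?_
        exact mul_le_mul_of_nonneg_right (by rw [hM]; linarith) dist_nonneg)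
    have h2 : ∀ x, A.indicator (1 : X → ℝ) x * (M⁻¹ * Ψ x) =
        M⁻¹ * (A.indicator (1 : X → ℝ) x * Ψ x) := fun x => by ring
    simp only [h2] at h1
    rw [integral_const_mul, integral_const_mul] at h1
    have h3 : M⁻¹ ≠ 0 := inv_ne_zero hM0.ne'
    apply mul_left_cancel₀ h3
    rw [h1]
    ring
  have key : ∀ ε : ℝ, 0 < ε → |μ.real A - μ.real A * μ.real A| ≤ 0 + 2 * ε := by
    intro ε hε
    obtain ⟨Φ, hL, hΦ, hap⟩ := GB_approx μ hA hε
    have mΦ : Measurable Φ := by
      obtain ⟨L, hL⟩ := hL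
      exact hL.continuous.measurable
    have h1 := hLip Φ hΦ hL
    have h2 := GB_cor μ (u := A.indicator 1) (v := Φ) (w := A.indicator 1) mA mΦ mA bA hΦ bA hap
      (D := 0) (by
        have : ∀ x, Φ x * A.indicator (1 : X → ℝ) x = A.indicator (1 : X → ℝ) x * Φ x :=
          fun x => mul_comm _ _
        simp only [this]
        rw [h1, mul_comm, sub_self, abs_zero])
    have h3 : ∀ x, A.indicator (1 : X → ℝ) x * A.indicator (1 : X → ℝ) x =
        A.indicator (1 : X → ℝ) x := by
      intro x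
      by_cases hx : x ∈ A
      · rw [Set.indicator_of_mem hx]
        simp
      · rw [Set.indicator_of_notMem hx]
        simp
    simp only [h3] at h2
    rwa [integral_indicator_one hA] at h2
  have h4 : |μ.real A - μ.real A * μ.real A| ≤ 0 := by
    refine le_of_forall_pos_le_add fun ε hε => ?_
    have := key (ε / 2) (by linarith)
    linarith
  have h5 : μ.real A - μ.real A * μ.real A = 0 := abs_nonpos_iff.1 h4
  have h6 : μ.real A * (1 - μ.real A) = 0 := by linarith
  rcases mul_eq_zero.1 h6 with h7 | h7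
  · left
    exact (measureReal_eq_zero_iff (measure_ne_top _ _)).1 h7
  · right
    have h8 : μ.real A = 1 := by linarith
    rw [measureReal_def] at h8
    rw [← ENNReal.ofReal_toReal (measure_ne_top μ A), h8, ENNReal.ofReal_one]

/-! ### dilations -/

/-- multiplication by `t` -/
def GB_m (t : unitInterval) : C(unitInterval, unitInterval) :=
  ⟨fun s => t * s, by fun_prop⟩

/-- division by `t` -/
noncomputable def GB_k (t : unitInterval) : C(unitInterval, unitInterval) :=
  ⟨fun s => ⟨min ((s : ℝ) / t) 1, le_min (div_nonneg s.2.1 t.2.1) zero_le_one, min_le_right _ _⟩,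
    by fun_prop⟩

/-- the inverse of `shrink t` -/
noncomputable def GB_U (t : unitInterval) (g : C(unitInterval, ℂ)) : C(unitInterval, ℂ) :=
  ((((t : ℝ) ^ (4/7 : ℝ) : ℝ) : ℂ)) • g.comp (GB_k t)

theorem GB_smul_cont (m : C(unitInterval, unitInterval)) (z : ℂ) :
    Continuous fun f : C(unitInterval, ℂ) => z • f.comp m := by
  have h : Continuous fun f : C(unitInterval, ℂ) => f.comp m := ContinuousMap.continuous_precomp m
  exact h.const_smul z

theorem GB_U_cont (t : unitInterval) : Continuous (GB_U t) := GB_smul_cont (GB_k t) _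

theorem GB_shrink_cont (t : unitInterval) : Continuous (shrink t) := by
  have : shrink t = fun f => ((((t : ℝ) ^ (-(4/7) : ℝ) : ℝ) : ℂ)) • f.comp (GB_m t) := by
    funext f
    ext s
    rfl
  rw [this]
  exact GB_smul_cont (GB_m t) _

theorem GB_U_shrink {t : unitInterval} (ht : 0 < t) (f : C(unitInterval, ℂ)) {s : unitInterval}
    (hs : s ≤ t) : GB_U t (shrink t f) s = f s := by
  have ht0 : (0 : ℝ) < t := ht
  have h1 : (s : ℝ) / t ≤ 1 := by
    rw [div_le_one ht0]
    exact hs
  show (((t : ℝ) ^ (4/7 : ℝ) : ℝ) : ℂ) * ((((t : ℝ) ^ (-(4/7) : ℝ) : ℝ) : ℂ) *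
    f (t * GB_k t s)) = f s
  have h2 : t * GB_k t s = s := by
    apply Subtype.ext
    show (t : ℝ) * min ((s : ℝ) / t) 1 = s
    rw [min_eq_left h1]
    field_simp
  rw [h2, ← mul_assoc, ← Complex.ofReal_mul, ← Real.rpow_add ht0]
  norm_num

/-- GB -/
theorem gb (hG : S_GA) : S_GB := by
  obtain ⟨C, c, hC, hc, hdec⟩ := hG
  intro φ hφ μ hμ A hA hgerm
  have mA : Measurable (A.indicator (1 : C(unitInterval, ℂ) → ℝ)) := measurable_one.indicator hA
  have bA : ∀ (B : Set C(unitInterval, ℂ)) (x : C(unitInterval, ℂ)),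
      |B.indicator (1 : C(unitInterval, ℂ) → ℝ) x| ≤ 1 := by
    intro B x
    by_cases hx : x ∈ B
    · rw [Set.indicator_of_mem hx]
      simp
    · rw [Set.indicator_of_notMem hx]
      simp
  refine GB_triv (μ : Measure C(unitInterval, ℂ)) hA fun Ψ hΨ1 hΨ => ?_
  have mΨ : Measurable Ψ := hΨ.continuous.measurable
  -- the estimate
  have est : ∀ t : unitInterval, 0 < t → ∀ ε : ℝ, 0 < ε →
      |∫ f, A.indicator 1 f * Ψ f ∂(μ : Measure C(unitInterval, ℂ)) -
        (∫ f, A.indicator (1 : C(unitInterval, ℂ) → ℝ) f ∂(μ : Measure C(unitInterval, ℂ))) *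
          ∫ f, Ψ f ∂(μ : Measure C(unitInterval, ℂ))| ≤ C * (t : ℝ) ^ c + 2 * ε := by
    intro t ht ε hε
    have mS : Measurable (shrink t) := (GB_shrink_cont t).measurable
    set A' : Set C(unitInterval, ℂ) := GB_U t ⁻¹' A with hA'
    have mA' : MeasurableSet A' := (GB_U_cont t).measurable hA
    have : IsProbabilityMeasure ((μ : Measure C(unitInterval, ℂ)).map (shrink t)) :=
      Measure.isProbabilityMeasure_map mS.aemeasurable
    obtain ⟨Φ, hL, hΦ, hap⟩ := GB_approx ((μ : Measure C(unitInterval, ℂ)).map (shrink t)) mA' hε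
    have mΦ : Measurable Φ := by
      obtain ⟨L, hL⟩ := hL
      exact hL.continuous.measurable
    have h1 : ∀ f, A'.indicator (1 : C(unitInterval, ℂ) → ℝ) (shrink t f) =
        A.indicator (1 : C(unitInterval, ℂ) → ℝ) f := by
      intro f
      have h2 : shrink t f ∈ A' ↔ f ∈ A := hgerm t ht _ _ fun s hs => GB_U_shrink ht f hs
      by_cases hf : f ∈ A
      · rw [Set.indicator_of_mem hf, Set.indicator_of_mem (h2.2 hf)]
        rfl
      · rw [Set.indicator_of_notMem hf, Set.indicator_of_notMem fun h => hf (h2.1 h)]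
    have h3 : ∫ f, |A.indicator (1 : C(unitInterval, ℂ) → ℝ) f - Φ (shrink t f)|
        ∂(μ : Measure C(unitInterval, ℂ)) ≤ ε := by
      rw [integral_map mS.aemeasurable] at hap
      · simp only [h1] at hap
        exact hap
      · exact ((measurable_one.indicator mA').sub mΦ).abs.aestronglyMeasurable
    exact GB_cor (μ : Measure C(unitInterval, ℂ)) (u := A.indicator 1)
      (v := fun f => Φ (shrink t f)) (w := Ψ) mA (mΦ.comp mS) mΨ (bA A) (fun f => hΦ _) hΨ1 h3
      (hdec φ hφ μ hμ t ht Φ Ψ hΦ hΨ1 hL hΨ)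
  have h0 : |∫ f, A.indicator 1 f * Ψ f ∂(μ : Measure C(unitInterval, ℂ)) -
        (∫ f, A.indicator (1 : C(unitInterval, ℂ) → ℝ) f ∂(μ : Measure C(unitInterval, ℂ))) *
          ∫ f, Ψ f ∂(μ : Measure C(unitInterval, ℂ))| ≤ 0 := by
    refine le_of_forall_pos_le_add fun δ hδ => ?_
    set r : ℝ := min 1 ((δ / 2 / C) ^ (1 / c)) with hr
    have hr0 : 0 < r := lt_min one_pos (Real.rpow_pos_of_pos (by positivity) _)
    have hr1 : r ≤ 1 := min_le_left _ _
    have hr2 : r ^ c ≤ δ / 2 / C := by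
      calc r ^ c ≤ ((δ / 2 / C) ^ (1 / c)) ^ c :=
            Real.rpow_le_rpow hr0.le (min_le_right _ _) hc.le
        _ = δ / 2 / C := by
            rw [← Real.rpow_mul (by positivity), one_div, inv_mul_cancel₀ hc.ne', Real.rpow_one]
    have h1 := est ⟨r, hr0.le, hr1⟩ (show (0 : ℝ) < r from hr0) (δ / 4) (by linarith)
    refine h1.trans ?_
    have h2 : C * r ^ c ≤ δ / 2 := by
      calc C * r ^ c ≤ C * (δ / 2 / C) := mul_le_mul_of_nonneg_left hr2 hC.le
        _ = δ / 2 := by field_simp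
    show C * r ^ c + 2 * (δ / 4) ≤ 0 + δ
    linarith
  exact sub_eq_zero.1 (abs_nonpos_iff.1 h0)

end Pool.Agent.N956.EM
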