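import Pool.Agent.N956.EM.Stm
import Pool.Agent.N756.EM.LogA

/-!
# Law of large numbers for logarithmic averages of bounded variables (helper756)

The proof is in `Pool/Agent/N756/EM/LogA.lean` (a port of `N931/AS/LogAvg.lean`).
-/

set_option autoImplicit false

namespace Pool.Agent.N956.EM

theorem log_lln : S_LOG := by
  intro Ω _ μ _ X C γ hX hb hC hγ hγ1 h
  exact Pool.Agent.N756.EM.log_lln0 X C γ hX hb hC hγ hγ1 h

end Pool.Agent.N956.EM
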