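import Pool.Agent.N956.EM.Stm

/-!
# EM/MIX: decorrelation by flipping finitely many edges
-/

set_option autoImplicit false

namespace Pool.Agent.N956.EM

open H974 Finset H342P H984P H984H MeasureTheory Filter Topology

theorem Mix_coin_not : Measure.map (fun b : Bool => !b) (PMF.uniformOfFintype Bool).toMeasure =
    (PMF.uniformOfFintype Bool).toMeasure := by
  have hm : Measurable (fun b : Bool => !b) := measurable_of_finite _
  refine Measure.ext_of_singleton fun b => ?_
  rw [Measure.map_apply hm (measurableSet_singleton b)]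
  have h1 : (fun b : Bool => !b) ⁻¹' {b} = {!b} := by
    ext x
    cases x <;> cases b <;> simp
  rw [h1, PMF.toMeasure_apply_singleton _ _ (measurableSet_singleton _),
    PMF.toMeasure_apply_singleton _ _ (measurableSet_singleton _)]
  simp

theorem flip_mp : S_FLIP := by
  intro H
  have hm : ∀ e : Edg, Measurable (fun b : Bool => if e ∈ H then !b else b) :=
    fun e => measurable_of_finite _
  have hm2 : Measurable (flip H) := by
    rw [measurable_pi_iff]
    intro e
    exact (hm e).comp (measurable_pi_apply e)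
  refine ⟨hm2, ?_⟩
  have h1 := Measure.infinitePi_map_pi (fun _ : Edg => (PMF.uniformOfFintype Bool).toMeasure)
    (f := fun (e : Edg) (b : Bool) => if e ∈ H then !b else b) hm
  show Measure.map (fun (x : Conf) e => if e ∈ H then !(x e) else x e) perc = perc
  unfold perc
  rw [h1]
  congr 1
  funext e
  by_cases he : e ∈ H
  · simp only [he, if_true]
    exact Mix_coin_not
  · simp only [he, if_false]
    exact Measure.map_id

theorem Mix_flip_eq (S H : Finset Edg) (ω ω1 : Conf) (e : Edg) (he : e ∈ S) :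
    flip H ω e = flip (symmDiff H (S.filter fun e => ω e ≠ ω1 e)) ω1 e := by
  unfold flip
  have hm : e ∈ symmDiff H (S.filter fun e => ω e ≠ ω1 e) ↔
      (e ∈ H ∧ ¬ (ω e ≠ ω1 e)) ∨ (ω e ≠ ω1 e ∧ e ∉ H) := by
    rw [Finset.mem_symmDiff, Finset.mem_filter]
    constructor
    · rintro (⟨h1, h2⟩ | ⟨⟨-, h2⟩, h3⟩)
      · exact Or.inl ⟨h1, fun h3 => h2 ⟨he, h3⟩⟩
      · exact Or.inr ⟨h2, h3⟩
    · rintro (⟨h1, h2⟩ | ⟨h2, h3⟩)
      · exact Or.inl ⟨h1, fun h3 => h2 h3.2⟩
      · exact Or.inr ⟨⟨he, h2⟩, h3⟩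
  by_cases h1 : e ∈ H
  · by_cases h2 : ω e = ω1 e
    · have h3 : e ∈ symmDiff H (S.filter fun e => ω e ≠ ω1 e) := hm.2 (Or.inl ⟨h1, fun h => h h2⟩)
      rw [if_pos h1, if_pos h3, h2]
    · have h3 : e ∉ symmDiff H (S.filter fun e => ω e ≠ ω1 e) := fun h => by
        rcases hm.1 h with ⟨-, h4⟩ | ⟨-, h4⟩
        · exact h4 h2
        · exact h4 h1
      rw [if_pos h1, if_neg h3]
      revert h2
      cases ω e <;> cases ω1 e <;> simp
  · by_cases h2 : ω e = ω1 e
    · have h3 : e ∉ symmDiff H (S.filter fun e => ω e ≠ ω1 e) := fun h => by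
        rcases hm.1 h with ⟨h4, -⟩ | ⟨h4, -⟩
        · exact h1 h4
        · exact h4 h2
      rw [if_neg h1, if_neg h3, h2]
    · have h3 : e ∈ symmDiff H (S.filter fun e => ω e ≠ ω1 e) := hm.2 (Or.inr ⟨h2, h1⟩)
      rw [if_neg h1, if_pos h3]
      revert h2
      cases ω e <;> cases ω1 e <;> simp

theorem mix (hF : S_FLIP) : S_MIX := by
  intro S f g δ hf hg hf1 hg1 hloc hδ
  have hfi : ∀ H, Integrable (fun ω => f (flip H ω)) perc := fun H =>
    Integrable.of_bound (C := 1) (hf.comp (hF H).measurable).aestronglyMeasurable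
      (Eventually.of_forall fun ω => by rw [Real.norm_eq_abs]; exact hf1 _)
  have hgi : ∀ H, Integrable (fun ω => g (flip H ω)) perc := fun H =>
    Integrable.of_bound (C := 1) (hg.comp (hF H).measurable).aestronglyMeasurable
      (Eventually.of_forall fun ω => by rw [Real.norm_eq_abs]; exact hg1 _)
  have hg0 : Integrable g perc :=
    Integrable.of_bound (C := 1) hg.aestronglyMeasurable
      (Eventually.of_forall fun ω => by rw [Real.norm_eq_abs]; exact hg1 _)
  have hmul : ∀ H, Integrable (fun ω => f (flip H ω) * g ω) perc := fun H =>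
    Integrable.of_bound (C := 1)
      ((hf.comp (hF H).measurable).mul hg).aestronglyMeasurable
      (Eventually.of_forall fun ω => by
        rw [Real.norm_eq_abs, abs_mul]
        exact mul_le_one₀ (hf1 _) (abs_nonneg _) (hg1 _))
  have hmul2 : ∀ H, Integrable (fun ω => f (flip H ω) * g (flip H ω)) perc := fun H =>
    Integrable.of_bound (C := 1)
      ((hf.comp (hF H).measurable).mul (hg.comp (hF H).measurable)).aestronglyMeasurable
      (Eventually.of_forall fun ω => by
        rw [Real.norm_eq_abs, abs_mul]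
        exact mul_le_one₀ (hf1 _) (abs_nonneg _) (hg1 _))
  -- invariance
  have hinv : ∀ (u : Conf → ℝ), Measurable u → ∀ H, ∫ ω, u (flip H ω) ∂perc = ∫ ω, u ω ∂perc := by
    intro u hu H
    have h1 := integral_map (μ := perc) (φ := flip H) (hF H).measurable.aemeasurable
      (f := u) hu.aestronglyMeasurable
    rw [(hF H).map_eq] at h1
    exact h1.symm
  -- the comparison for one `H`
  have hcmp : ∀ H ∈ S.powerset, |∫ ω, f ω * g ω ∂perc - ∫ ω, f (flip H ω) * g ω ∂perc| ≤ δ := by
    intro H hH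
    have h1 : ∫ ω, f ω * g ω ∂perc = ∫ ω, f (flip H ω) * g (flip H ω) ∂perc :=
      (hinv (fun ω => f ω * g ω) (hf.mul hg) H).symm
    rw [h1, ← integral_sub (hmul2 H) (hmul H)]
    refine le_trans abs_integral_le_integral_abs ?_
    refine le_trans (integral_mono ?_ ?_ fun ω => ?_) (hδ H (Finset.mem_powerset.1 hH))
    · exact ((hmul2 H).sub (hmul H)).abs
    · exact (hg0.sub (hgi H)).abs
    · show |f (flip H ω) * g (flip H ω) - f (flip H ω) * g ω| ≤ |g ω - g (flip H ω)|
      rw [← mul_sub, abs_mul, abs_sub_comm (g ω)]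
      exact mul_le_of_le_one_left (abs_nonneg _) (hf1 _)
  -- the average is constant
  have hconst : ∀ ω ω1 : Conf, ∑ H ∈ S.powerset, f (flip H ω) = ∑ H ∈ S.powerset, f (flip H ω1) := by
    intro ω ω1
    set D := S.filter fun e => ω e ≠ ω1 e with hD
    have hsub : ∀ H ∈ S.powerset, symmDiff H D ∈ S.powerset := by
      intro H hH
      rw [Finset.mem_powerset] at hH ⊢
      intro e he
      rw [Finset.mem_symmDiff] at he
      rcases he with ⟨h1, -⟩ | ⟨h1, -⟩
      · exact hH h1
      · exact (Finset.mem_filter.1 h1).1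
    refine Finset.sum_nbij' (fun H => symmDiff H D) (fun H => symmDiff H D) hsub hsub
      (fun H _ => symmDiff_symmDiff_cancel_right _ _) (fun H _ => symmDiff_symmDiff_cancel_right _ _) ?_
    intro H hH
    exact hloc _ _ fun e he => Mix_flip_eq S H ω ω1 e he
  have hN : (0 : ℝ) < (S.powerset.card : ℝ) := by
    have : 0 < S.powerset.card := Finset.card_pos.2 ⟨∅, Finset.empty_mem_powerset _⟩
    exact_mod_cast this
  have hF2 : ∀ ω1, ∑ H ∈ S.powerset, f (flip H ω1) = (S.powerset.card : ℝ) * ∫ ω, f ω ∂perc := by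
    intro ω1
    have h1 : ∫ ω, ∑ H ∈ S.powerset, f (flip H ω) ∂perc = ∑ H ∈ S.powerset, f (flip H ω1) := by
      have h2 : (fun ω => ∑ H ∈ S.powerset, f (flip H ω)) =
          fun _ => ∑ H ∈ S.powerset, f (flip H ω1) := funext fun ω => hconst ω ω1
      rw [h2, integral_const]
      simp
    rw [← h1, integral_finsetSum _ fun H _ => hfi H]
    rw [Finset.sum_congr rfl fun H _ => hinv f hf H, Finset.sum_const, nsmul_eq_mul]
  have hsum : ∑ H ∈ S.powerset, ∫ ω, f (flip H ω) * g ω ∂perc =
      (S.powerset.card : ℝ) * ((∫ ω, f ω ∂perc) * ∫ ω, g ω ∂perc) := by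
    rw [← integral_finsetSum _ fun H _ => hmul H]
    have h2 : (fun ω => ∑ H ∈ S.powerset, f (flip H ω) * g ω) =
        fun ω => ((S.powerset.card : ℝ) * ∫ ω, f ω ∂perc) * g ω := by
      funext ω
      rw [← Finset.sum_mul, hF2 ω]
    rw [h2, integral_const_mul]
    ring
  have h3 : (S.powerset.card : ℝ) *
      |∫ ω, f ω * g ω ∂perc - (∫ ω, f ω ∂perc) * ∫ ω, g ω ∂perc| ≤ (S.powerset.card : ℝ) * δ := by
    rw [← abs_of_pos hN, ← abs_mul, abs_of_pos hN]
    have h4 : (S.powerset.card : ℝ) *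
        (∫ ω, f ω * g ω ∂perc - (∫ ω, f ω ∂perc) * ∫ ω, g ω ∂perc) =
        ∑ H ∈ S.powerset, (∫ ω, f ω * g ω ∂perc - ∫ ω, f (flip H ω) * g ω ∂perc) := by
      rw [Finset.sum_sub_distrib, hsum, Finset.sum_const, nsmul_eq_mul]
      ring
    rw [h4]
    refine le_trans (Finset.abs_sum_le_sum_abs _ _) ?_
    refine le_trans (Finset.sum_le_sum hcmp) ?_
    rw [Finset.sum_const, nsmul_eq_mul]
  exact le_of_mul_le_mul_left h3 hN
end Pool.Agent.N956.EM
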