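import Pool.Agent.N956.EM.Stm
import Pool.Agent.H984R4.HN.Scale
import Pool.Agent.H984R4.HN.TailUp
import Pool.Agent.H984R4.HN.TailLow

/-!
# Project EM, task OSC: tail of the oscillation of the half-plane exploration path
-/

set_option autoImplicit false

namespace Pool.Agent.N956.EM

open H974 Finset H342P H984P H984H MeasureTheory Filter Topology

/-- a large increment in a short time gives a fast subpath of the path in the box -/
theorem Osc_fast {ρ w : ℤ} (hρ : 1 ≤ ρ) {ω : Conf} {n τ : ℕ} {M δ : ℝ} (hM : (τ : ℝ) < M)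
    (hw : 2 * (w : ℝ) + 1 ≤ δ) (hS : Stay ρ n ω) (hO : Osc ω n τ δ) :
    (bx ρ).Fast w M (cut ω ρ) := by
  obtain ⟨i, j, hij, hjt, hjn, hd⟩ := hO
  obtain ⟨h1, h2⟩ := couple hρ ω (k := i) fun k hk => hS k (by omega)
  obtain ⟨h3, h4⟩ := couple hρ ω (k := j) fun k hk => hS k (by omega)
  refine ⟨(bx ρ).len (cut ω ρ) - 1 - j, (bx ρ).len (cut ω ρ) - 1 - i, by omega, by omega, ?_, ?_⟩
  · rw [h2, h4]
    have h5 := dist_place_le (path ω j) (path ω i)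
    rw [dist_eq_norm] at h5
    have h6 : δ ≤ 2 * ((sd (path ω j).1 (path ω i).1 : ℤ) : ℝ) + 1 := hd.trans h5
    have h7 : (w : ℝ) ≤ ((sd (path ω j).1 (path ω i).1 : ℤ) : ℝ) := by linarith
    exact_mod_cast h7
  · have h6 : (bx ρ).len (cut ω ρ) - 1 - i - ((bx ρ).len (cut ω ρ) - 1 - j) = j - i := by omega
    rw [h6]
    have h7 : ((j - i : ℕ) : ℝ) ≤ τ := by
      have : j - i ≤ τ := by omega
      exact_mod_cast this
    linarith

theorem Osc_exp4 {a z : ℝ} (ha : 0 < a) (hz : 0 < z) :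
    Real.exp (-(a * z)) ≤ 24 / (a ^ 4 * z ^ 4) := by
  have h2 := Real.pow_div_factorial_le_exp (a * z) (by positivity) 4
  have h5 : ((Nat.factorial 4 : ℕ) : ℝ) = 24 := by norm_num [Nat.factorial]
  rw [h5, mul_pow] at h2
  rw [Real.exp_neg, le_div_iff₀ (by positivity), inv_mul_le_iff₀ (Real.exp_pos _)]
  have h3 : a ^ 4 * z ^ 4 = 24 * (a ^ 4 * z ^ 4 / 24) := by ring
  rw [h3]
  nlinarith

theorem Osc_exp6 {l : ℝ} (hl : 0 < l) {K : ℝ} (hK : 0 < K) :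
    K ^ 4 * Real.exp (-(l * K)) ≤ 720 / l ^ 6 / K ^ 2 := by
  have h2 := Real.pow_div_factorial_le_exp (l * K) (by positivity) 6
  have h5 : ((Nat.factorial 6 : ℕ) : ℝ) = 720 := by norm_num [Nat.factorial]
  rw [h5, mul_pow] at h2
  rw [div_div, le_div_iff₀ (by positivity), Real.exp_neg]
  have h3 : K ^ 4 * (Real.exp (l * K))⁻¹ * (l ^ 6 * K ^ 2) =
      (Real.exp (l * K))⁻¹ * (720 * (l ^ 6 * K ^ 6 / 720)) := by ring
  rw [h3, inv_mul_le_iff₀ (Real.exp_pos _)]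
  nlinarith

theorem osc {c C : ℝ} (hc : 0 < c) (hC : 0 < C) (hL : LowA c (1/4)) (hU : TwoUp C (1/4)) :
    S_OSC := by
  obtain ⟨c1, C1, q, hc1, hC1, hq0, hq1, hsc⟩ := scale_one hc hC hL hU
  obtain ⟨a, A, ha, hA, htail⟩ := tail_up hc hC hL hU
  obtain ⟨κ, hκ⟩ : ∃ κ : ℝ, κ = min 1 (min (c1 / 2) (1 / C1)) := ⟨_, rfl⟩
  have hκ0 : 0 < κ := by rw [hκ]; positivity
  have hκ1 : κ ≤ 1 := by rw [hκ]; exact min_le_left _ _
  have hκ2 : κ ≤ c1 / 2 := by rw [hκ]; exact (min_le_right _ _).trans (min_le_left _ _)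
  have hκ3 : κ * C1 ≤ 1 := by
    have : κ ≤ 1 / C1 := by rw [hκ]; exact (min_le_right _ _).trans (min_le_right _ _)
    rwa [le_div_iff₀ hC1] at this
  obtain ⟨l, hl⟩ : ∃ l : ℝ, l = - Real.log q := ⟨_, rfl⟩
  have hl0 : 0 < l := by
    rw [hl]
    have := Real.log_neg hq0 hq1
    linarith
  have hql : ∀ K : ℕ, q ^ K = Real.exp (-(l * K)) := by
    intro K
    rw [hl, neg_mul, neg_neg, mul_comm, Real.exp_nat_mul, Real.exp_log hq0]
  obtain ⟨C5, hC5⟩ : ∃ C5 : ℝ, C5 = max 4 (8 / κ) := ⟨_, rfl⟩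
  have hC54 : 4 ≤ C5 := by rw [hC5]; exact le_max_left _ _
  have hC5κ : 8 ≤ κ * C5 := by
    have : 8 / κ ≤ C5 := by rw [hC5]; exact le_max_right _ _
    rw [div_le_iff₀ hκ0] at this
    linarith
  obtain ⟨C4, hC4⟩ : ∃ C4 : ℝ, C4 = C1 * 4096 * (720 / l ^ 6) * (32 / κ) := ⟨_, rfl⟩
  have hC40 : 0 < C4 := by rw [hC4]; positivity
  obtain ⟨B, hB⟩ : ∃ B : ℝ, B = 3 + C5 + (A * (24 / a ^ 4) + C4) := ⟨_, rfl⟩
  have hA4 : 0 < A * (24 / a ^ 4) := by positivity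
  have hB0 : 0 < B := by rw [hB]; linarith
  have hB3 : 3 ≤ B := by rw [hB]; linarith
  refine ⟨1/7, B, by norm_num, hB0, ?_⟩
  intro n τ η hτ hτn hη hη1
  have hτ0 : (0 : ℝ) < τ := by exact_mod_cast (by omega : 0 < τ)
  have hτ1 : (1 : ℝ) ≤ τ := by exact_mod_cast hτ
  have hn0 : (0 : ℝ) < n := by exact_mod_cast (by omega : 0 < n)
  have hτn' : (τ : ℝ) ≤ n := by exact_mod_cast hτn
  have hn1 : 1 ≤ n := by omega
  -- the parameter `z`
  obtain ⟨z, hz⟩ : ∃ z : ℝ, z = ((n : ℝ) / τ) ^ (1/28 : ℝ) := ⟨_, rfl⟩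
  have hlam : 1 ≤ (n : ℝ) / τ := by rw [le_div_iff₀ hτ0]; linarith
  have hz1 : 1 ≤ z := by rw [hz]; exact Real.one_le_rpow hlam (by norm_num)
  have hz0 : 0 < z := by linarith
  have hz4 : ((τ : ℝ) / n) ^ (1/7 : ℝ) = 1 / z ^ 4 := by
    rw [hz, ← Real.rpow_natCast, ← Real.rpow_mul (by positivity), ← inv_div (n : ℝ) τ,
      Real.inv_rpow (by positivity), one_div]
    norm_num
  obtain ⟨Y, hY⟩ : ∃ Y : ℝ, Y = (τ : ℝ) ^ (4/7 : ℝ) := ⟨_, rfl⟩
  have hY1 : 1 ≤ Y := by rw [hY]; exact Real.one_le_rpow hτ1 (by norm_num)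
  have hY0 : 0 < Y := by linarith
  have hn47 : (n : ℝ) ^ (4/7 : ℝ) = z ^ 16 * Y := by
    have h1 : z ^ 16 = ((n : ℝ) / τ) ^ (4/7 : ℝ) := by
      rw [hz, ← Real.rpow_natCast, ← Real.rpow_mul (by positivity)]
      norm_num
    rw [h1, hY, ← Real.mul_rpow (by positivity) (by positivity)]
    congr 1
    field_simp
  have hYτ : Y ^ (7/4 : ℝ) = τ := by
    rw [hY, ← Real.rpow_mul hτ0.le]
    norm_num
  rw [hn47, hz4]
  have hηB : 1 / η ^ 3 ≤ η ^ (-B) := by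
    have h1 : 1 / η ^ 3 = η ^ (-(3:ℝ)) := by
      rw [Real.rpow_neg hη.le, one_div]
      congr 1
      exact_mod_cast (Real.rpow_natCast η 3).symm
    rw [h1]
    exact Real.rpow_le_rpow_of_exponent_ge hη hη1 (by linarith)
  have hη3 : 1 / η ≤ 1 / η ^ 3 := by
    apply one_div_le_one_div_of_le (by positivity)
    calc η ^ 3 = η * (η ^ 2) := by ring
      _ ≤ η * 1 := mul_le_mul_of_nonneg_left (pow_le_one₀ hη.le hη1) hη.le
      _ = η := mul_one η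
  have hη31 : 1 ≤ 1 / η ^ 3 := by
    rw [le_div_iff₀ (by positivity), one_mul]
    exact pow_le_one₀ hη.le hη1
  rcases lt_or_ge (η * z ^ 16) C5 with hs | hs
  · -- the trivial range
    have h1 : perc.real {ω | Osc ω n τ (η * (z ^ 16 * Y))} ≤ 1 := measureReal_le_one
    refine h1.trans ?_
    have h2 : 1 ≤ C5 * (1 / η) * (1 / z ^ 16) := by
      have : C5 * (1 / η) * (1 / z ^ 16) = C5 / (η * z ^ 16) := by
        field_simp
      rw [this, le_div_iff₀ (by positivity), one_mul]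
      exact hs.le
    have h3 : 1 / z ^ 16 ≤ 1 / z ^ 4 := by
      apply one_div_le_one_div_of_le (by positivity)
      exact pow_le_pow_right₀ hz1 (by norm_num)
    refine h2.trans ?_
    refine mul_le_mul ?_ h3 (by positivity) (by positivity)
    refine mul_le_mul ?_ (hη3.trans hηB) (by positivity) hB0.le
    rw [hB]
    linarith
  · -- the nontrivial range
    obtain ⟨δ, hδ⟩ : ∃ δ : ℝ, δ = η * (z ^ 16 * Y) := ⟨_, rfl⟩
    rw [← hδ]
    have hδ4 : 4 ≤ δ := by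
      rw [hδ]
      nlinarith
    obtain ⟨R, hR⟩ : ∃ R : ℝ, R = z ^ 2 * (z ^ 16 * Y) := ⟨_, rfl⟩
    have hz16 : 1 ≤ z ^ 16 := one_le_pow₀ hz1
    have hz2 : 1 ≤ z ^ 2 := one_le_pow₀ hz1
    have hLL : 1 ≤ z ^ 16 * Y := by nlinarith
    have hδR : δ ≤ R := by
      rw [hδ, hR]
      exact mul_le_mul_of_nonneg_right (hη1.trans hz2) (by positivity)
    have hR4 : 4 ≤ R := hδ4.trans hδR
    obtain ⟨ρ, hρ⟩ : ∃ ρ : ℤ, ρ = ⌈R⌉ + 2 := ⟨_, rfl⟩
    have hρ1 : R ≤ (ρ : ℝ) := by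
      rw [hρ]
      push_cast
      have := Int.le_ceil R
      linarith
    have hρ2 : (ρ : ℝ) ≤ R + 3 := by
      rw [hρ]
      push_cast
      have := (Int.ceil_lt_add_one R).le
      linarith
    have hρ0 : (1 : ℤ) ≤ ρ := by
      have : (1 : ℝ) ≤ ρ := by linarith
      exact_mod_cast this
    obtain ⟨w, hw⟩ : ∃ w : ℤ, w = ⌊(δ - 1) / 2⌋ := ⟨_, rfl⟩
    have hw1 : (w : ℝ) ≤ (δ - 1) / 2 := by rw [hw]; exact Int.floor_le _
    have hw2 : (δ - 1) / 2 < w + 1 := by rw [hw]; exact Int.lt_floor_add_one _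
    have hwδ : δ / 8 ≤ w := by linarith
    have hw0 : (0 : ℝ) < w := by linarith
    have hwρ : 2 * w ≤ ρ := by
      have : 2 * (w : ℝ) ≤ ρ := by linarith
      exact_mod_cast this
    obtain ⟨v, hv⟩ : ∃ v : ℝ, v = κ * w / Y := ⟨_, rfl⟩
    have hv1 : κ * (η * z ^ 16) / 8 ≤ v := by
      rw [hv, le_div_iff₀ hY0]
      calc κ * (η * z ^ 16) / 8 * Y = κ * (δ / 8) := by rw [hδ]; ring
        _ ≤ κ * w := mul_le_mul_of_nonneg_left hwδ hκ0.le
    have hv2 : 1 ≤ v := by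
      refine le_trans ?_ hv1
      have : κ * C5 ≤ κ * (η * z ^ 16) := mul_le_mul_of_nonneg_left hs hκ0.le
      linarith
    obtain ⟨K, hK⟩ : ∃ K : ℕ, K = ⌊Real.sqrt v⌋₊ := ⟨_, rfl⟩
    have hsv : 1 ≤ Real.sqrt v := by rw [Real.one_le_sqrt]; exact hv2
    have hK1 : 1 ≤ K := by rw [hK, Nat.one_le_floor_iff]; exact hsv
    have hKr : (1 : ℝ) ≤ K := by exact_mod_cast hK1
    have hKle : (K : ℝ) ≤ Real.sqrt v := by rw [hK]; exact Nat.floor_le (by positivity)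
    have hKge : Real.sqrt v < K + 1 := by rw [hK]; exact Nat.lt_floor_add_one _
    have hsv2 : Real.sqrt v ^ 2 = v := Real.sq_sqrt (by linarith)
    have hK2 : (K : ℝ) ^ 2 ≤ v := by
      rw [← hsv2]
      exact pow_le_pow_left₀ (by positivity) hKle 2
    have hK3 : v ≤ 4 * (K : ℝ) ^ 2 := by
      rw [← hsv2]
      have : Real.sqrt v ≤ 2 * K := by linarith
      calc Real.sqrt v ^ 2 ≤ (2 * K) ^ 2 := pow_le_pow_left₀ (by positivity) this 2
        _ = 4 * (K : ℝ) ^ 2 := by ring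
    have hCK : C1 * (K : ℝ) ^ 2 ≤ w := by
      have h1 : v ≤ κ * w := by
        rw [hv]
        exact div_le_self (by positivity) hY1
      calc C1 * (K : ℝ) ^ 2 ≤ C1 * (κ * w) := mul_le_mul_of_nonneg_left (hK2.trans h1) hC1.le
        _ = (κ * C1) * w := by ring
        _ ≤ 1 * w := mul_le_mul_of_nonneg_right hκ3 hw0.le
        _ = w := one_mul _
    -- the time
    have hM : (τ : ℝ) < c1 * ((w : ℝ) / K ^ 2) ^ (7/4 : ℝ) := by
      have h1 : Y / κ ≤ (w : ℝ) / K ^ 2 := by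
        rw [div_le_div_iff₀ hκ0 (by positivity)]
        calc Y * (K : ℝ) ^ 2 ≤ Y * v := mul_le_mul_of_nonneg_left hK2 hY0.le
          _ = w * κ := by rw [hv]; field_simp
      have h2 : (Y / κ) ^ (7/4 : ℝ) ≤ ((w : ℝ) / K ^ 2) ^ (7/4 : ℝ) :=
        Real.rpow_le_rpow (by positivity) h1 (by norm_num)
      have h3 : (Y / κ) ^ (7/4 : ℝ) = τ / κ ^ (7/4 : ℝ) := by
        rw [Real.div_rpow (by positivity) hκ0.le, hYτ]
      have h4 : κ ^ (7/4 : ℝ) ≤ c1 / 2 := by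
        refine le_trans ?_ hκ2
        calc κ ^ (7/4 : ℝ) ≤ κ ^ (1 : ℝ) :=
              Real.rpow_le_rpow_of_exponent_ge hκ0 hκ1 (by norm_num)
          _ = κ := Real.rpow_one κ
      have h5 : 0 < κ ^ (7/4 : ℝ) := Real.rpow_pos_of_pos hκ0 _
      rw [h3] at h2
      have h6 : (τ : ℝ) < c1 * (τ / κ ^ (7/4 : ℝ)) := by
        rw [← mul_div_assoc, lt_div_iff₀ h5]
        have h7 : (τ : ℝ) * κ ^ (7/4 : ℝ) ≤ τ * (c1 / 2) :=
          mul_le_mul_of_nonneg_left h4 (by positivity)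
        have h8 : 0 < (τ : ℝ) * c1 := by positivity
        linarith
      exact h6.trans_le (mul_le_mul_of_nonneg_left h2 hc1.le)
    -- the events
    have hsub : {ω | Osc ω n τ δ} ⊆ {ω | z ^ 2 * (n : ℝ) ^ (4/7 : ℝ) ≤ reach n ω} ∪
        {ω | (bx ρ).Fast w (c1 * ((w : ℝ) / K ^ 2) ^ (7/4 : ℝ)) (cut ω ρ)} := by
      intro ω hω
      rcases le_or_gt (z ^ 2 * (n : ℝ) ^ (4/7 : ℝ)) (reach n ω) with h1 | h1
      · exact Or.inl h1
      · right
        rw [hn47, ← hR] at h1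
        have hS : Stay ρ n ω := by
          rw [hρ]
          exact TailLow_stay h1.le
        exact Osc_fast hρ0 hM (by linarith) hS hω
    have hP1 : perc.real {ω | z ^ 2 * (n : ℝ) ^ (4/7 : ℝ) ≤ reach n ω} ≤
        A * (24 / a ^ 4) * (1 / z ^ 4) := by
      refine (htail n (z ^ 2) hn1 (by positivity)).trans ?_
      have h1 : (z ^ 2) ^ (1/2 : ℝ) = z := by
        rw [← Real.sqrt_eq_rpow]
        exact Real.sqrt_sq hz0.le
      rw [h1]
      calc A * Real.exp (-(a * z)) ≤ A * (24 / (a ^ 4 * z ^ 4)) :=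
            mul_le_mul_of_nonneg_left (Osc_exp4 ha hz0) hA.le
        _ = A * (24 / a ^ 4) * (1 / z ^ 4) := by
            field_simp
    have hP2 : perc.real {ω | (bx ρ).Fast w (c1 * ((w : ℝ) / K ^ 2) ^ (7/4 : ℝ)) (cut ω ρ)} ≤
        C1 * (((2 * ρ : ℤ) : ℝ) / w) ^ 2 * (K : ℝ) ^ 4 * q ^ K := by
      rw [perc_cut ρ (fun F => (bx ρ).Fast w (c1 * ((w : ℝ) / K ^ 2) ^ (7/4 : ℝ)) F)]
      refine hsc (bx ρ) K w ((2 * ρ : ℤ) : ℝ) (bx_ok hρ0) hK1 hCK ?_ hwρ hwρ ?_ ?_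
      · show 2 * w ≤ - -ρ
        omega
      · show ((ρ - -ρ : ℤ) : ℝ) ≤ ((2 * ρ : ℤ) : ℝ)
        have : ρ - -ρ = 2 * ρ := by ring
        rw [this]
      · show ((ρ : ℤ) : ℝ) ≤ ((2 * ρ : ℤ) : ℝ)
        exact_mod_cast (by omega : ρ ≤ 2 * ρ)
    have hsw : (((2 * ρ : ℤ) : ℝ) / w) ^ 2 ≤ 4096 * (z ^ 4 / η ^ 2) := by
      have h1 : ((2 * ρ : ℤ) : ℝ) / w ≤ 64 * (z ^ 2 / η) := by
        rw [div_le_iff₀ hw0]
        push_cast
        calc 2 * (ρ : ℝ) ≤ 8 * R := by linarith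
          _ = 64 * (z ^ 2 / η) * (δ / 8) := by
              rw [hR, hδ]
              field_simp
              ring
          _ ≤ 64 * (z ^ 2 / η) * w := mul_le_mul_of_nonneg_left hwδ (by positivity)
      have h2 : 0 ≤ ((2 * ρ : ℤ) : ℝ) / w := by
        have : (0:ℝ) ≤ ((2 * ρ : ℤ) : ℝ) := by exact_mod_cast (by omega : 0 ≤ 2 * ρ)
        positivity
      calc (((2 * ρ : ℤ) : ℝ) / w) ^ 2 ≤ (64 * (z ^ 2 / η)) ^ 2 := pow_le_pow_left₀ h2 h1 2
        _ = 4096 * (z ^ 4 / η ^ 2) := by ring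
    have hK4 : (K : ℝ) ^ 4 * q ^ K ≤ 720 / l ^ 6 * (32 / (κ * (η * z ^ 16))) := by
      rw [hql]
      refine (Osc_exp6 hl0 (by linarith)).trans ?_
      rw [div_eq_mul_one_div (720 / l ^ 6)]
      refine mul_le_mul_of_nonneg_left ?_ (by positivity)
      rw [div_le_div_iff₀ (by positivity) (by positivity), one_mul]
      linarith
    have hP3 : C1 * (((2 * ρ : ℤ) : ℝ) / w) ^ 2 * (K : ℝ) ^ 4 * q ^ K ≤
        C4 * (1 / η ^ 3) * (1 / z ^ 4) := by
      calc C1 * (((2 * ρ : ℤ) : ℝ) / w) ^ 2 * (K : ℝ) ^ 4 * q ^ K =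
          C1 * ((((2 * ρ : ℤ) : ℝ) / w) ^ 2 * ((K : ℝ) ^ 4 * q ^ K)) := by ring
        _ ≤ C1 * ((4096 * (z ^ 4 / η ^ 2)) * (720 / l ^ 6 * (32 / (κ * (η * z ^ 16))))) := by
            refine mul_le_mul_of_nonneg_left ?_ hC1.le
            exact mul_le_mul hsw hK4 (by positivity) (by positivity)
        _ = C4 * (1 / η ^ 3) * (1 / z ^ 12) := by
            rw [hC4]
            field_simp
        _ ≤ C4 * (1 / η ^ 3) * (1 / z ^ 4) := by
            refine mul_le_mul_of_nonneg_left ?_ (by positivity)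
            apply one_div_le_one_div_of_le (by positivity)
            exact pow_le_pow_right₀ hz1 (by norm_num)
    calc perc.real {ω | Osc ω n τ δ} ≤ A * (24 / a ^ 4) * (1 / z ^ 4) +
          C4 * (1 / η ^ 3) * (1 / z ^ 4) := by
          refine (measureReal_mono hsub).trans ((measureReal_union_le _ _).trans ?_)
          exact add_le_add hP1 (hP2.trans hP3)
      _ ≤ A * (24 / a ^ 4) * (1 / η ^ 3) * (1 / z ^ 4) + C4 * (1 / η ^ 3) * (1 / z ^ 4) := by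
          have h9 : A * (24 / a ^ 4) ≤ A * (24 / a ^ 4) * (1 / η ^ 3) :=
            le_mul_of_one_le_right hA4.le hη31
          exact add_le_add (mul_le_mul_of_nonneg_right h9 (by positivity)) le_rfl
      _ = (A * (24 / a ^ 4) + C4) * (1 / η ^ 3) * (1 / z ^ 4) := by ring
      _ ≤ B * η ^ (-B) * (1 / z ^ 4) := by
          refine mul_le_mul_of_nonneg_right ?_ (by positivity)
          refine mul_le_mul ?_ hηB (by positivity) hB0.le
          rw [hB]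
          linarith

end Pool.Agent.N956.EM
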