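import Pool.Agent.N956.EM.Stm

/-!
# PORT: countably many Lipschitz functions determine the convergence of logarithmic averages
-/

set_option autoImplicit false
set_option linter.unusedSectionVars false

namespace Pool.Agent.N956.EM.Port

open MeasureTheory Filter Topology

noncomputable section

variable {X : Type} [MetricSpace X] [MeasurableSpace X] [BorelSpace X]

/-- the harmonic numbers -/
def H (N : ℕ) : ℝ := ∑ n ∈ Finset.Icc 1 N, (n : ℝ)⁻¹

theorem H_pos {N : ℕ} (hN : 1 ≤ N) : 0 < H N := by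
  unfold H
  refine Finset.sum_pos (fun n hn => ?_) ⟨1, by simpa using hN⟩
  have : 1 ≤ n := (Finset.mem_Icc.1 hn).1
  positivity

theorem H_eq (N : ℕ) : H N = (harmonic N : ℝ) := by
  unfold H
  rw [harmonic_eq_sum_Icc]
  push_cast
  rfl

theorem log_le_H (N : ℕ) (hN : 1 ≤ N) : Real.log N ≤ H N := by
  rw [H_eq]
  refine le_trans ?_ (log_add_one_le_harmonic N)
  refine Real.log_le_log (by positivity) ?_
  push_cast
  linarith

theorem H_le (N : ℕ) : H N ≤ 1 + Real.log N := by
  rw [H_eq]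
  exact harmonic_le_one_add_log N

/-- the weighted average of the measures -/
def W (κ : ℕ → ProbabilityMeasure X) (N : ℕ) : Measure X :=
  ∑ n ∈ Finset.Icc 1 N, ENNReal.ofReal ((n : ℝ)⁻¹ / H N) • (κ n : Measure X)

theorem W_apply_le (κ : ℕ → ProbabilityMeasure X) {N : ℕ} (hN : 1 ≤ N) (s : Set X) (c : ENNReal)
    (h : ∀ n, (κ n : Measure X) s ≤ c) : W κ N s ≤ c := by
  have hH := H_pos hN
  unfold W
  rw [Measure.finsetSum_apply]
  calc ∑ n ∈ Finset.Icc 1 N, (ENNReal.ofReal ((n : ℝ)⁻¹ / H N) • (κ n : Measure X)) s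
      ≤ ∑ n ∈ Finset.Icc 1 N, ENNReal.ofReal ((n : ℝ)⁻¹ / H N) * c := by
        refine Finset.sum_le_sum fun n _ => ?_
        rw [Measure.smul_apply, smul_eq_mul]
        exact mul_le_mul_right (h n) _
    _ = c := by
        rw [← Finset.sum_mul, ← ENNReal.ofReal_sum_of_nonneg (fun n _ => by positivity),
          ← Finset.sum_div]
        change ENNReal.ofReal (H N / H N) * c = c
        rw [div_self hH.ne', ENNReal.ofReal_one, one_mul]

theorem W_prob (κ : ℕ → ProbabilityMeasure X) {N : ℕ} (hN : 1 ≤ N) :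
    IsProbabilityMeasure (W κ N) := by
  refine ⟨?_⟩
  have hH := H_pos hN
  unfold W
  rw [Measure.finsetSum_apply]
  calc ∑ n ∈ Finset.Icc 1 N, (ENNReal.ofReal ((n : ℝ)⁻¹ / H N) • (κ n : Measure X)) Set.univ
      = ∑ n ∈ Finset.Icc 1 N, ENNReal.ofReal ((n : ℝ)⁻¹ / H N) := by
        refine Finset.sum_congr rfl fun n _ => ?_
        rw [Measure.smul_apply, smul_eq_mul, measure_univ, mul_one]
    _ = 1 := by
        rw [← ENNReal.ofReal_sum_of_nonneg (fun n _ => by positivity), ← Finset.sum_div]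
        change ENNReal.ofReal (H N / H N) = 1
        rw [div_self hH.ne', ENNReal.ofReal_one]

/-- the same as a probability measure -/
def P (κ : ℕ → ProbabilityMeasure X) (N : ℕ) : ProbabilityMeasure X :=
  ⟨W κ (N + 1), W_prob κ (Nat.le_add_left 1 N)⟩

theorem P_int (κ : ℕ → ProbabilityMeasure X) (N : ℕ) (Φ : X → ℝ) (hΦ : Continuous Φ)
    (M : ℝ) (hM : ∀ f, |Φ f| ≤ M) :
    ∫ f, Φ f ∂(P κ N : Measure X) =
      (∑ n ∈ Finset.Icc 1 (N + 1), (n : ℝ)⁻¹ * ∫ f, Φ f ∂(κ n : Measure X)) / H (N + 1) := by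
  have hH := H_pos (Nat.le_add_left 1 N)
  have hi : ∀ n, Integrable Φ (κ n : Measure X) := fun n =>
    Integrable.of_bound hΦ.aestronglyMeasurable M (Eventually.of_forall fun f => hM f)
  change ∫ f, Φ f ∂(W κ (N + 1)) = _
  unfold W
  rw [integral_finsetSum_measure]
  · rw [Finset.sum_div]
    refine Finset.sum_congr rfl fun n _ => ?_
    rw [integral_smul_measure, ENNReal.toReal_ofReal (by positivity), smul_eq_mul]
    ring
  · intro n _
    exact (hi n).smul_measure ENNReal.ofReal_ne_top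

/-- the sum -/
def A (x : ℕ → X) (ν : ℕ → ProbabilityMeasure X) (Φ : X → ℝ) (N : ℕ) : ℝ :=
  ∑ n ∈ Finset.Icc 1 N, (n : ℝ)⁻¹ * (Φ (x n) - ∫ f, Φ f ∂(ν n : Measure X))

theorem toH (x : ℕ → X) (ν : ℕ → ProbabilityMeasure X) (Φ : X → ℝ)
    (h : Tendsto (fun N => A x ν Φ N / Real.log N) atTop (𝓝 0)) :
    Tendsto (fun N => A x ν Φ (N + 1) / H (N + 1)) atTop (𝓝 0) := by
  have h1 : Tendsto (fun N => A x ν Φ N / H N) atTop (𝓝 0) := by
    have h' : Tendsto (fun N => ‖A x ν Φ N / Real.log N‖) atTop (𝓝 0) := by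
      simpa using h.norm
    refine squeeze_zero_norm' ?_ h'
    filter_upwards [eventually_ge_atTop 2] with N hN
    have hl : 0 < Real.log N := Real.log_pos (by exact_mod_cast hN)
    have hH := log_le_H N (by omega)
    rw [norm_div, norm_div, Real.norm_of_nonneg hl.le, Real.norm_of_nonneg (hl.le.trans hH)]
    gcongr
  exact h1.comp (tendsto_add_atTop_nat 1)

theorem fromH (x : ℕ → X) (ν : ℕ → ProbabilityMeasure X) (Φ : X → ℝ)
    (h : Tendsto (fun N => A x ν Φ (N + 1) / H (N + 1)) atTop (𝓝 0)) :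
    Tendsto (fun N => A x ν Φ N / Real.log N) atTop (𝓝 0) := by
  have h0 : Tendsto (fun N => A x ν Φ N / H N) atTop (𝓝 0) :=
    (tendsto_add_atTop_iff_nat (f := fun N => A x ν Φ N / H N) 1).1 h
  have h1 : Tendsto (fun N => 3 * ‖A x ν Φ N / H N‖) atTop (𝓝 0) := by
    have := h0.norm.const_mul 3
    simpa using this
  refine squeeze_zero_norm' ?_ h1
  filter_upwards [eventually_ge_atTop 2] with N hN
  have hl2 : (1 : ℝ) / 2 ≤ Real.log N := by
    have h2 : Real.log 2 ≤ Real.log N := Real.log_le_log (by norm_num) (by exact_mod_cast hN)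
    have := Real.log_two_gt_d9
    linarith
  have hl : 0 < Real.log N := by linarith
  have hH : 0 < H N := H_pos (by omega)
  have hH2 := H_le N
  rw [norm_div, norm_div, Real.norm_of_nonneg hl.le, Real.norm_of_nonneg hH.le]
  rw [div_le_iff₀ hl]
  have h3 : 1 ≤ 3 * Real.log N / H N := by
    rw [le_div_iff₀ hH]
    linarith
  calc ‖A x ν Φ N‖ = ‖A x ν Φ N‖ * 1 := (mul_one _).symm
    _ ≤ ‖A x ν Φ N‖ * (3 * Real.log N / H N) := by gcongr
    _ = 3 * (‖A x ν Φ N‖ / H N) * Real.log N := by ring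

/-- the point masses -/
def dx (x : ℕ → X) (n : ℕ) : ProbabilityMeasure X := ⟨Measure.dirac (x n), inferInstance⟩

theorem diff_eq (x : ℕ → X) (ν : ℕ → ProbabilityMeasure X) (Φ : X → ℝ) (hΦ : Continuous Φ)
    (M : ℝ) (hM : ∀ f, |Φ f| ≤ M) (N : ℕ) :
    ∫ f, Φ f ∂(P (dx x) N : Measure X) - ∫ f, Φ f ∂(P ν N : Measure X) = A x ν Φ (N + 1) / H (N + 1) := by
  rw [P_int _ N Φ hΦ M hM, P_int _ N Φ hΦ M hM, ← sub_div, ← Finset.sum_sub_distrib]
  unfold A
  congr 1
  refine Finset.sum_congr rfl fun n _ => ?_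
  rw [← mul_sub]
  congr 2
  change ∫ f, Φ f ∂(Measure.dirac (x n)) = _
  exact integral_dirac' _ _ hΦ.stronglyMeasurable

/-- the real function given by the thickened indicator -/
def thk (k : ℕ) (C : Set X) (f : X) : ℝ :=
  ((thickenedIndicator (by positivity : (0 : ℝ) < 1 / ((k : ℝ) + 1)) C f : NNReal) : ℝ)

theorem thk_nonneg (k : ℕ) (C : Set X) (f : X) : 0 ≤ thk k C f := NNReal.coe_nonneg _

theorem thk_le (k : ℕ) (C : Set X) (f : X) : thk k C f ≤ 1 := by
  unfold thk
  exact_mod_cast thickenedIndicator_le_one _ C f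

theorem thk_cont (k : ℕ) (C : Set X) : Continuous (thk k C) :=
  NNReal.continuous_coe.comp (thickenedIndicator _ C).continuous

theorem thk_one (k : ℕ) {C : Set X} {f : X} (h : f ∈ C) : thk k C f = 1 := by
  unfold thk
  rw [thickenedIndicator_one _ C h]
  rfl

theorem thk_tendsto (μ : Measure X) [IsProbabilityMeasure μ] {C : Set X} (hC : IsClosed C) :
    Tendsto (fun k => ∫ f, thk k C f ∂μ) atTop (𝓝 (μ.real C)) := by
  have h := tendsto_lintegral_thickenedIndicator_of_isClosed μ hC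
    (δs := fun k : ℕ => 1 / ((k : ℝ) + 1)) (fun k => by positivity)
    tendsto_one_div_add_atTop_nhds_zero_nat
  have h2 := (ENNReal.tendsto_toReal (measure_ne_top μ C)).comp h
  refine h2.congr fun k => ?_
  rw [integral_eq_lintegral_of_nonneg_ae (Eventually.of_forall fun f => thk_nonneg k C f)
    (thk_cont k C).aestronglyMeasurable]
  simp only [Function.comp_apply, thk]
  congr 1
  refine lintegral_congr fun f => ?_
  rw [ENNReal.ofReal_coe_nnreal]

theorem le_thk (μ : Measure X) [IsProbabilityMeasure μ] (k : ℕ) {C D : Set X} (hC : IsClosed C)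
    (hCD : C ⊆ D) : μ.real C ≤ ∫ f, thk k D f ∂μ := by
  have h1 : μ.real C = ∫ f, C.indicator (fun _ => (1 : ℝ)) f ∂μ := by
    rw [integral_indicator hC.measurableSet]
    simp
  rw [h1]
  refine integral_mono ?_ ?_ fun f => ?_
  · exact (integrable_const (1 : ℝ)).indicator hC.measurableSet
  · refine Integrable.of_bound (thk_cont k D).aestronglyMeasurable 1
      (Eventually.of_forall fun f => ?_)
    rw [Real.norm_of_nonneg (thk_nonneg k D f)]
    exact thk_le k D f
  · by_cases hf : f ∈ C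
    · rw [Set.indicator_of_mem hf, thk_one k (hCD hf)]
    · rw [Set.indicator_of_notMem hf]
      exact thk_nonneg k D f

/-- weak convergence from the thickened indicators of the sets `D J` -/
theorem weak (e : ℕ → Set X) (he : TopologicalSpace.IsTopologicalBasis (Set.range e))
    (μs : ℕ → ProbabilityMeasure X) (μ : ProbabilityMeasure X)
    (h : ∀ (J : Finset ℕ) (k : ℕ), Tendsto (fun i => ∫ f, thk k (⋃ j ∈ J, e j)ᶜ f
      ∂(μs i : Measure X)) atTop (𝓝 (∫ f, thk k (⋃ j ∈ J, e j)ᶜ f ∂(μ : Measure X)))) :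
    Tendsto μs atTop (𝓝 μ) := by
  classical
  refine tendsto_of_forall_isClosed_limsup_real_le' fun C hC => ?_
  have heo : ∀ j, IsOpen (e j) := fun j => he.isOpen ⟨j, rfl⟩
  let J : ℕ → Finset ℕ := fun m => (Finset.range m).filter fun j => e j ⊆ Cᶜ
  let D : ℕ → Set X := fun m => (⋃ j ∈ J m, e j)ᶜ
  have hDc : ∀ m, IsClosed (D m) := fun m =>
    (isOpen_biUnion fun j _ => heo j).isClosed_compl
  have hCD : ∀ m, C ⊆ D m := by
    intro m f hf hf2
    obtain ⟨j, hj, hfj⟩ := Set.mem_iUnion₂.1 hf2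
    exact (Finset.mem_filter.1 hj).2 hfj hf
  have hanti : Antitone D := by
    intro m m' hmm f hf hf2
    apply hf
    obtain ⟨j, hj, hfj⟩ := Set.mem_iUnion₂.1 hf2
    refine Set.mem_iUnion₂.2 ⟨j, ?_, hfj⟩
    refine Finset.mem_filter.2 ⟨?_, (Finset.mem_filter.1 hj).2⟩
    exact Finset.range_mono hmm (Finset.mem_filter.1 hj).1
  have hInter : ⋂ m, D m = C := by
    refine Set.Subset.antisymm ?_ (Set.subset_iInter hCD)
    intro f hf
    by_contra hfC
    obtain ⟨B, ⟨j, rfl⟩, hfB, hBC⟩ := he.exists_subset_of_mem_open (Set.mem_compl hfC)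
      hC.isOpen_compl
    have := Set.mem_iInter.1 hf (j + 1)
    apply this
    refine Set.mem_iUnion₂.2 ⟨j, ?_, hfB⟩
    exact Finset.mem_filter.2 ⟨Finset.mem_range.2 (Nat.lt_succ_self j), hBC⟩
  have hD : Tendsto (fun m => (μ : Measure X).real (D m)) atTop (𝓝 ((μ : Measure X).real C)) := by
    have h1 := tendsto_measure_iInter_atTop (μ := (μ : Measure X)) (s := D)
      (fun m => (hDc m).measurableSet.nullMeasurableSet) hanti ⟨0, measure_ne_top _ _⟩
    rw [hInter] at h1
    exact (ENNReal.tendsto_toReal (measure_ne_top _ _)).comp h1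
  refine le_of_forall_pos_le_add fun ε hε => ?_
  obtain ⟨m, hm⟩ := (hD.eventually (gt_mem_nhds (by linarith :
    (μ : Measure X).real C < (μ : Measure X).real C + ε / 3))).exists
  obtain ⟨k, hk⟩ := ((thk_tendsto (μ : Measure X) (hDc m)).eventually (gt_mem_nhds (by linarith :
    (μ : Measure X).real (D m) < (μ : Measure X).real (D m) + ε / 3))).exists
  have hev : ∀ᶠ i in atTop, (μs i : Measure X).real C ≤ (μ : Measure X).real C + ε := by
    filter_upwards [(h (J m) k).eventually (gt_mem_nhds (by linarith :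
      ∫ f, thk k (⋃ j ∈ J m, e j)ᶜ f ∂(μ : Measure X) <
      ∫ f, thk k (⋃ j ∈ J m, e j)ᶜ f ∂(μ : Measure X) + ε / 3))] with i hi
    have h1 := le_thk (μs i : Measure X) k hC (hCD m)
    change ∫ f, thk k (D m) f ∂(μs i : Measure X) < ∫ f, thk k (D m) f ∂(μ : Measure X) + ε / 3
      at hi
    linarith
  refine limsup_le_of_le ?_ hev
  refine isCoboundedUnder_le_of_le atTop (x := 0) fun i => measureReal_nonneg

theorem port_gen [SecondCountableTopology X] [CompleteSpace X] :
    ∃ F : ℕ → X → ℝ, (∀ i, (∀ f, |F i f| ≤ 1) ∧ LipschitzWith 1 (F i)) ∧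
    ∀ (x : ℕ → X) (ν : ℕ → ProbabilityMeasure X),
      (∀ ε : ℝ, 0 < ε → ∃ K : Set X, IsCompact K ∧
        ∀ n, (ν n : Measure X) Kᶜ ≤ ENNReal.ofReal ε) →
      (∀ i, Tendsto (fun N => A x ν (F i) N / Real.log N) atTop (𝓝 0)) →
      ∀ Φ : X → ℝ, Continuous Φ → (∃ M, ∀ f, |Φ f| ≤ M) →
        Tendsto (fun N => A x ν Φ N / Real.log N) atTop (𝓝 0) := by
  classical
  obtain ⟨e, he⟩ : ∃ e : ℕ → Set X, TopologicalSpace.IsTopologicalBasis (Set.range e) := by
    have hB := TopologicalSpace.isBasis_countableBasis X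
    have hc := TopologicalSpace.countable_countableBasis X
    rcases (TopologicalSpace.countableBasis X).eq_empty_or_nonempty with h0 | h0
    · refine ⟨fun _ => ∅, ?_⟩
      have hE : ∀ f : X, False := by
        intro f
        have h1 := hB.exists_subset_of_mem_open (Set.mem_univ f) isOpen_univ
        obtain ⟨B, hB1, _⟩ := h1
        rw [h0] at hB1
        exact hB1
      have hE' : IsEmpty X := ⟨hE⟩
      refine TopologicalSpace.isTopologicalBasis_of_isOpen_of_nhds ?_ ?_
      · rintro _ ⟨_, rfl⟩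
        exact isOpen_empty
      · intro f
        exact (hE f).elim
    · obtain ⟨e, he⟩ := hc.exists_eq_range h0
      exact ⟨e, he ▸ hB⟩
  obtain ⟨p, hp⟩ := exists_surjective_nat (Finset ℕ × ℕ)
  let F : ℕ → X → ℝ := fun i f =>
    1 / (((p i).2 : ℝ) + 1) * thk (p i).2 (⋃ j ∈ (p i).1, e j)ᶜ f
  have hFc : ∀ i, Continuous (F i) := fun i => continuous_const.mul (thk_cont _ _)
  have hFb : ∀ i f, |F i f| ≤ 1 := by
    intro i f
    have h1 := thk_nonneg (p i).2 (⋃ j ∈ (p i).1, e j)ᶜ f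
    have h2 := thk_le (p i).2 (⋃ j ∈ (p i).1, e j)ᶜ f
    have h3 : (1 : ℝ) / (((p i).2 : ℝ) + 1) ≤ 1 := by
      rw [div_le_one (by positivity)]
      linarith [(Nat.cast_nonneg (p i).2 : (0 : ℝ) ≤ _)]
    have h4 : (0 : ℝ) ≤ 1 / (((p i).2 : ℝ) + 1) := by positivity
    rw [abs_of_nonneg (mul_nonneg h4 h1)]
    exact mul_le_one₀ h3 h1 h2
  refine ⟨F, fun i => ⟨hFb i, ?_⟩, ?_⟩
  · refine LipschitzWith.of_dist_le_mul fun f g => ?_
    have hL := (lipschitzWith_thickenedIndicator
      (by positivity : (0 : ℝ) < 1 / (((p i).2 : ℝ) + 1)) (⋃ j ∈ (p i).1, e j)ᶜ).dist_le_mul f g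
    have h4 : (0 : ℝ) < 1 / (((p i).2 : ℝ) + 1) := by positivity
    have h5 : dist (F i f) (F i g) = 1 / (((p i).2 : ℝ) + 1) *
        dist (thk (p i).2 (⋃ j ∈ (p i).1, e j)ᶜ f) (thk (p i).2 (⋃ j ∈ (p i).1, e j)ᶜ g) := by
      rw [Real.dist_eq, Real.dist_eq, ← mul_sub, abs_mul, abs_of_pos h4]
    rw [h5]
    change _ * dist ((thickenedIndicator h4 (⋃ j ∈ (p i).1, e j)ᶜ f : NNReal) : ℝ)
      ((thickenedIndicator h4 (⋃ j ∈ (p i).1, e j)ᶜ g : NNReal) : ℝ) ≤ _
    rw [Real.dist_eq, ← NNReal.dist_eq]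
    refine (mul_le_mul_of_nonneg_left hL h4.le).trans (le_of_eq ?_)
    rw [NNReal.coe_inv, Real.coe_toNNReal _ h4.le, ← mul_assoc, mul_inv_cancel₀ h4.ne']
    simp
  · intro x ν htight hF Φ hΦ ⟨M, hM⟩
    refine fromH x ν Φ ?_
    have key : Tendsto (fun N => ∫ f, Φ f ∂(P (dx x) N : Measure X) - ∫ f, Φ f ∂(P ν N : Measure X))
        atTop (𝓝 0) := by
      have hcomp : IsCompact (closure (Set.range (P ν))) := by
        refine isCompact_closure_of_isTightMeasureSet ?_
        rw [isTightMeasureSet_iff_exists_isCompact_measure_compl_le]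
        intro ε hε
        by_cases htop : ε = ⊤
        · exact ⟨∅, isCompact_empty, fun ν _ => by rw [htop]; exact le_top⟩
        have hε' : 0 < ε.toReal := ENNReal.toReal_pos hε.ne' htop
        obtain ⟨K, hK, hKν⟩ := htight ε.toReal hε'
        refine ⟨K, hK, ?_⟩
        rintro _ ⟨_, ⟨N, rfl⟩, rfl⟩
        refine (W_apply_le ν (Nat.le_add_left 1 N) Kᶜ _ hKν).trans (le_of_eq ?_)
        exact ENNReal.ofReal_toReal htop
      refine tendsto_of_subseq_tendsto fun ns hns => ?_
      obtain ⟨ν', _, φ, hφ, hlim⟩ := hcomp.tendsto_subseq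
        (x := fun i => P ν (ns i)) (fun i => subset_closure ⟨ns i, rfl⟩)
      refine ⟨φ, ?_⟩
      have hlim2 := ProbabilityMeasure.tendsto_iff_forall_integral_tendsto.1 hlim
      have hint : ∀ (G : X → ℝ), Continuous G → ∀ M : ℝ, (∀ f, |G f| ≤ M) →
          Tendsto (fun n => ∫ f, G f ∂(P ν (ns (φ n)) : Measure X)) atTop
            (𝓝 (∫ f, G f ∂(ν' : Measure X))) := by
        intro G hG M hM
        exact hlim2 (BoundedContinuousFunction.ofNormedAddCommGroup G hG M hM)
      have hnsφ : Tendsto (fun n => ns (φ n)) atTop atTop := hns.comp hφ.tendsto_atTop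
      have hx : Tendsto (fun n => P (dx x) (ns (φ n))) atTop (𝓝 ν') := by
        refine weak e he _ _ fun J k => ?_
        obtain ⟨i, hi⟩ := hp (J, k)
        have h1 := (toH x ν (F i) (hF i)).comp hnsφ
        have h2 := h1.add (hint (F i) (hFc i) 1 (hFb i))
        rw [zero_add] at h2
        have h3 : Tendsto (fun n => ∫ f, F i f ∂(P (dx x) (ns (φ n)) : Measure X)) atTop
            (𝓝 (∫ f, F i f ∂(ν' : Measure X))) := by
          refine h2.congr fun n => ?_
          simp only [Function.comp_apply]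
          rw [← diff_eq x ν (F i) (hFc i) 1 (hFb i)]
          ring
        have h4 := h3.const_mul ((k : ℝ) + 1)
        have h5 : ∀ μ : Measure X, ((k : ℝ) + 1) * ∫ f, F i f ∂μ =
            ∫ f, thk k (⋃ j ∈ J, e j)ᶜ f ∂μ := by
          intro μ
          rw [← integral_const_mul]
          refine integral_congr_ae (Eventually.of_forall fun f => ?_)
          simp only [F, hi]
          have : (k : ℝ) + 1 ≠ 0 := by positivity
          field_simp
        simpa only [h5] using h4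
      have hx2 := ProbabilityMeasure.tendsto_iff_forall_integral_tendsto.1 hx
        (BoundedContinuousFunction.ofNormedAddCommGroup Φ hΦ M hM)
      have h6 := hx2.sub (hint Φ hΦ M hM)
      rw [show (∫ ω, (BoundedContinuousFunction.ofNormedAddCommGroup Φ hΦ M hM) ω ∂(ν' : Measure X))
        - ∫ f, Φ f ∂(ν' : Measure X) = 0 from sub_self _] at h6
      exact h6
    refine key.congr fun N => ?_
    exact diff_eq x ν Φ hΦ M hM N

end

end Pool.Agent.N956.EM.Port

namespace Pool.Agent.N956.EM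

open H974 Finset H342P H984P H984H MeasureTheory Filter Topology

theorem port : S_PORT := by
  obtain ⟨F, h1, h2⟩ := Port.port_gen (X := C(unitInterval, ℂ))
  exact ⟨F, h1, h2⟩

end Pool.Agent.N956.EM
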