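import Pool.Agent.N956.EM.Stm

/-!
# EM-CES and EM-RIE: logarithmic averages
-/

set_option autoImplicit false

namespace Pool.Agent.N956.EM

open H974 Finset H342P H984P H984H MeasureTheory Filter Topology

namespace Rie

theorem icc_sum (f : ℕ → ℝ) (N : ℕ) : ∑ n ∈ Finset.Icc 1 N, f n = ∑ i ∈ range N, f (i + 1) := by
  induction N with
  | zero => simp
  | succ N ih => rw [Finset.sum_Icc_succ_top (by omega), ih, sum_range_succ]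

theorem harm (N : ℕ) : ∑ i ∈ range N, ((i : ℝ) + 1)⁻¹ = (harmonic N : ℝ) := by
  rw [harmonic]; push_cast; rfl

theorem log_top : Tendsto (fun N : ℕ => Real.log N) atTop atTop :=
  Real.tendsto_log_atTop.comp tendsto_natCast_atTop_atTop

theorem ratio : Tendsto (fun N : ℕ => (harmonic N : ℝ) / Real.log N) atTop (𝓝 1) := by
  have h1 : Tendsto (fun N : ℕ => ((harmonic N : ℝ) - Real.log N) / Real.log N + 1) atTop (𝓝 (0 + 1)) :=
    (Real.tendsto_harmonic_sub_log.div_atTop log_top).add_const 1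
  rw [zero_add] at h1
  refine h1.congr' ?_
  filter_upwards [log_top.eventually_gt_atTop 0] with N hN
  field_simp
  ring

theorem harm_top : Tendsto (fun N : ℕ => (harmonic N : ℝ)) atTop atTop := by
  refine tendsto_atTop_mono (fun N => ?_) (log_top.comp (tendsto_add_atTop_nat 1))
  exact log_add_one_le_harmonic N

end Rie

theorem ces : S_CES := by
  intro b L hb
  have h1 : (fun i : ℕ => b (i + 1) - L) =o[atTop] (fun _ : ℕ => (1 : ℝ)) := by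
    rw [Asymptotics.isLittleO_one_iff]
    have := (hb.comp (tendsto_add_atTop_nat 1)).sub_const L
    rwa [sub_self] at this
  have h2 := (Asymptotics.isBigO_refl (fun i : ℕ => ((i : ℝ) + 1)⁻¹) atTop).mul_isLittleO h1
  simp only [mul_one] at h2
  have h3 := h2.sum_range (fun i => by positivity) (by
    simp only [Rie.harm]; exact Rie.harm_top)
  simp only [Rie.harm] at h3
  have h4 := h3.tendsto_div_nhds_zero
  have h5 := (h4.mul Rie.ratio).add (Rie.ratio.const_mul L)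
  rw [zero_mul, mul_one, zero_add] at h5
  refine h5.congr' ?_
  filter_upwards [Rie.harm_top.eventually_gt_atTop 0, Rie.log_top.eventually_gt_atTop 0] with N hN hN2
  rw [Rie.icc_sum]
  have h6 : ∑ i ∈ range N, (((i + 1 : ℕ) : ℝ))⁻¹ * b (i + 1) =
      ∑ i ∈ range N, ((i : ℝ) + 1)⁻¹ * (b (i + 1) - L) + L * (harmonic N : ℝ) := by
    rw [← Rie.harm, mul_sum, ← sum_add_distrib]
    refine sum_congr rfl fun i _ => ?_
    push_cast; ring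
  rw [h6]
  field_simp

namespace Rie

/-- the fractional part of `t n` -/
noncomputable def g (t : ℝ) (n : ℕ) : ℝ := t * n - ⌊t * n⌋₊

theorem g_nonneg {t : ℝ} (ht : 0 < t) (n : ℕ) : 0 ≤ g t n := by
  have := Nat.floor_le (show (0 : ℝ) ≤ t * n by positivity)
  unfold g; linarith

theorem g_le (t : ℝ) (n : ℕ) : g t n ≤ 1 := by
  have := Nat.lt_floor_add_one (t * n)
  unfold g; linarith

theorem fl_succ {t : ℝ} (ht : 0 < t) (ht1 : t ≤ 1) (n : ℕ) :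
    ⌊t * ((n + 1 : ℕ) : ℝ)⌋₊ = ⌊t * n⌋₊ ∨ ⌊t * ((n + 1 : ℕ) : ℝ)⌋₊ = ⌊t * n⌋₊ + 1 := by
  have h1 : ⌊t * n⌋₊ ≤ ⌊t * ((n + 1 : ℕ) : ℝ)⌋₊ := Nat.floor_mono (by push_cast; nlinarith)
  have h2 : ⌊t * ((n + 1 : ℕ) : ℝ)⌋₊ ≤ ⌊t * n⌋₊ + 1 := by
    rw [← Nat.floor_add_one (by positivity)]
    exact Nat.floor_mono (by push_cast; nlinarith)
  omega

theorem fl_top {t : ℝ} (ht : 0 < t) : Tendsto (fun n : ℕ => ⌊t * (n : ℝ)⌋₊) atTop atTop :=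
  tendsto_nat_floor_atTop.comp (tendsto_natCast_atTop_atTop.const_mul_atTop ht)

/-- the partial sums -/
noncomputable def B (a : ℕ → ℝ) (M : ℕ) : ℝ := ∑ i ∈ range M, ((i : ℝ) + 1)⁻¹ * a (i + 1)

theorem B_diff {a : ℕ → ℝ} (ha : ∀ n, |a n| ≤ 1) {m n : ℕ} (h : m ≤ n) :
    |B a m - B a n| ≤ (harmonic n : ℝ) - (harmonic m : ℝ) := by
  rw [abs_sub_comm]
  unfold B
  rw [← harm, ← harm, ← sum_range_add_sum_Ico _ h, ← sum_range_add_sum_Ico _ h, add_sub_cancel_left, add_sub_cancel_left]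
  refine (abs_sum_le_sum_abs _ _).trans (sum_le_sum fun i _ => ?_)
  rw [abs_mul, abs_of_nonneg (by positivity)]
  exact mul_le_of_le_one_right (by positivity) (ha _)

/-- the potential -/
noncomputable def G (a : ℕ → ℝ) (t : ℝ) (n : ℕ) : ℝ :=
  B a ⌊t * n⌋₊ - B a n + g t n * (a ⌊t * n⌋₊ / ⌊t * n⌋₊)

/-- the sum -/
noncomputable def P (a : ℕ → ℝ) (t : ℝ) (N : ℕ) : ℝ :=
  ∑ i ∈ range N, ((i : ℝ) + 1)⁻¹ * (a ⌊t * ((i + 1 : ℕ) : ℝ)⌋₊ - a (i + 1))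

theorem B_succ (a : ℕ → ℝ) (M : ℕ) : B a (M + 1) = B a M + ((M : ℝ) + 1)⁻¹ * a (M + 1) :=
  sum_range_succ _ _

theorem P_succ (a : ℕ → ℝ) (t : ℝ) (N : ℕ) :
    P a t (N + 1) = P a t N + ((N : ℝ) + 1)⁻¹ * (a ⌊t * ((N + 1 : ℕ) : ℝ)⌋₊ - a (N + 1)) :=
  sum_range_succ _ _

theorem step (a : ℕ → ℝ) {t : ℝ} (ht : 0 < t) (ht1 : t ≤ 1) (n : ℕ) (h0 : 0 < ⌊t * n⌋₊) :
    (P a t (n + 1) - G a t (n + 1)) - (P a t n - G a t n) =
      a ⌊t * ((n + 1 : ℕ) : ℝ)⌋₊ * (((n : ℝ) + 1)⁻¹ - t / ⌊t * ((n + 1 : ℕ) : ℝ)⌋₊) +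
      g t n * (a ⌊t * n⌋₊ / ⌊t * n⌋₊ - a ⌊t * ((n + 1 : ℕ) : ℝ)⌋₊ / ⌊t * ((n + 1 : ℕ) : ℝ)⌋₊) := by
  unfold G g
  rw [P_succ, B_succ a n]
  have hm0 : ((⌊t * n⌋₊ : ℕ) : ℝ) ≠ 0 := Nat.cast_ne_zero.2 h0.ne'
  rcases fl_succ ht ht1 n with h | h
  · rw [h]
    push_cast
    field_simp
    ring
  · rw [h, B_succ]
    have hm1 : ((⌊t * n⌋₊ : ℕ) : ℝ) + 1 ≠ 0 := by positivity
    push_cast
    field_simp
    ring

theorem bound {a : ℕ → ℝ} (ha : ∀ n, |a n| ≤ 1) {t : ℝ} (ht : 0 < t) (ht1 : t ≤ 1) (n : ℕ)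
    (h0 : 1 ≤ t * n) :
    |((n : ℝ) + 1) * ((P a t (n + 1) - G a t (n + 1)) - (P a t n - G a t n))| ≤
      (1 + 4 / t) * ((⌊t * n⌋₊ : ℕ) : ℝ)⁻¹ + 4 / t * |a (⌊t * n⌋₊ + 1) - a ⌊t * n⌋₊| := by
  have hf0 : 0 < ⌊t * n⌋₊ := Nat.floor_pos.2 h0
  rw [step a ht ht1 n hf0]
  have hm0 : (0 : ℝ) < ((⌊t * n⌋₊ : ℕ) : ℝ) := Nat.cast_pos.2 hf0
  have hm1 : (1 : ℝ) ≤ ((⌊t * n⌋₊ : ℕ) : ℝ) := by exact_mod_cast hf0
  have hlt := Nat.lt_floor_add_one (t * n)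
  have hnn : (0 : ℝ) ≤ n := Nat.cast_nonneg n
  -- (n+1) ≤ (4/t) m'
  have hn : ((n : ℝ) + 1) ≤ 4 / t * ((⌊t * n⌋₊ : ℕ) : ℝ) := by
    rw [div_mul_eq_mul_div, le_div_iff₀ ht]
    nlinarith
  have hg0 := g_nonneg ht n
  have hg1 := g_le t n
  set m : ℝ := ((⌊t * n⌋₊ : ℕ) : ℝ) with hm
  set m1 : ℝ := ((⌊t * ((n + 1 : ℕ) : ℝ)⌋₊ : ℕ) : ℝ) with hm1d
  have hmm : m ≤ m1 := by
    rw [hm, hm1d]
    rcases fl_succ ht ht1 n with h | h <;> rw [h] <;> push_cast <;> linarith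
  have hmm1 : m1 ≤ m + 1 := by
    rw [hm, hm1d]
    rcases fl_succ ht ht1 n with h | h <;> rw [h] <;> push_cast <;> linarith
  have hm10 : 0 < m1 := hm0.trans_le hmm
  have hfl1 : m1 ≤ t * (n + 1) := by
    have := Nat.floor_le (show (0 : ℝ) ≤ t * ((n + 1 : ℕ) : ℝ) by positivity)
    push_cast at this
    rw [hm1d]; push_cast; exact this
  have hfl2 : t * (n + 1) ≤ m1 + 1 := by
    have := (Nat.lt_floor_add_one (t * ((n + 1 : ℕ) : ℝ))).le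
    push_cast at this
    rw [hm1d]; push_cast; exact this
  have ha1 := ha ⌊t * ((n + 1 : ℕ) : ℝ)⌋₊
  have hda : |a ⌊t * n⌋₊ - a ⌊t * ((n + 1 : ℕ) : ℝ)⌋₊| ≤ |a (⌊t * n⌋₊ + 1) - a ⌊t * n⌋₊| := by
    rcases fl_succ ht ht1 n with h | h <;> rw [h]
    · rw [sub_self, abs_zero]; exact abs_nonneg _
    · rw [abs_sub_comm]
  have hnp : (0 : ℝ) < (n : ℝ) + 1 := by positivity
  rw [mul_add]
  refine (abs_add_le _ _).trans ?_
  have e1 : |((n : ℝ) + 1) * (a ⌊t * ((n + 1 : ℕ) : ℝ)⌋₊ * (((n : ℝ) + 1)⁻¹ - t / m1))| ≤ m⁻¹ := by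
    have e : ((n : ℝ) + 1) * (a ⌊t * ((n + 1 : ℕ) : ℝ)⌋₊ * (((n : ℝ) + 1)⁻¹ - t / m1)) =
        a ⌊t * ((n + 1 : ℕ) : ℝ)⌋₊ * ((m1 - t * (n + 1)) / m1) := by
      field_simp
    rw [e, abs_mul, abs_div, abs_of_pos hm10]
    have h1 : |m1 - t * (n + 1)| ≤ 1 := by rw [abs_le]; constructor <;> linarith
    calc _ ≤ 1 * (1 / m1) := by
          apply mul_le_mul ha1 _ (by positivity) zero_le_one
          gcongr
      _ ≤ m⁻¹ := by rw [one_mul, one_div]; exact inv_anti₀ hm0 hmm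
  have e2 : |((n : ℝ) + 1) * (g t n * (a ⌊t * n⌋₊ / m - a ⌊t * ((n + 1 : ℕ) : ℝ)⌋₊ / m1))| ≤
      4 / t * m⁻¹ + 4 / t * |a (⌊t * n⌋₊ + 1) - a ⌊t * n⌋₊| := by
    have e : a ⌊t * n⌋₊ / m - a ⌊t * ((n + 1 : ℕ) : ℝ)⌋₊ / m1 =
        (a ⌊t * n⌋₊ - a ⌊t * ((n + 1 : ℕ) : ℝ)⌋₊) / m + a ⌊t * ((n + 1 : ℕ) : ℝ)⌋₊ * ((m1 - m) / (m * m1)) := by
      field_simp
      ring
    have h2 : |a ⌊t * n⌋₊ / m - a ⌊t * ((n + 1 : ℕ) : ℝ)⌋₊ / m1| ≤
        |a (⌊t * n⌋₊ + 1) - a ⌊t * n⌋₊| / m + 1 / (m * m) := by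
      rw [e]
      refine (abs_add_le _ _).trans (add_le_add ?_ ?_)
      · rw [abs_div, abs_of_pos hm0]; gcongr
      · rw [abs_mul, abs_div, abs_of_pos (mul_pos hm0 hm10), abs_of_nonneg (by linarith : 0 ≤ m1 - m)]
        calc _ ≤ 1 * ((m1 - m) / (m * m1)) := by
              apply mul_le_mul_of_nonneg_right ha1 (div_nonneg (by linarith) (by positivity))
          _ ≤ 1 / (m * m) := by
              rw [one_mul]
              apply div_le_div₀ zero_le_one (by linarith) (by positivity)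
              exact mul_le_mul_of_nonneg_left hmm hm0.le
    rw [abs_mul, abs_mul, abs_of_pos hnp, abs_of_nonneg hg0]
    have h3 : (0 : ℝ) ≤ |a (⌊t * n⌋₊ + 1) - a ⌊t * n⌋₊| / m + 1 / (m * m) := by positivity
    calc ((n : ℝ) + 1) * (g t n * |a ⌊t * n⌋₊ / m - a ⌊t * ((n + 1 : ℕ) : ℝ)⌋₊ / m1|)
        ≤ (4 / t * m) * (1 * (|a (⌊t * n⌋₊ + 1) - a ⌊t * n⌋₊| / m + 1 / (m * m))) := by
          apply mul_le_mul hn _ (by positivity) (by positivity)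
          exact mul_le_mul hg1 h2 (abs_nonneg _) zero_le_one
      _ = 4 / t * m⁻¹ + 4 / t * |a (⌊t * n⌋₊ + 1) - a ⌊t * n⌋₊| := by
          field_simp
          ring
  calc _ ≤ m⁻¹ + (4 / t * m⁻¹ + 4 / t * |a (⌊t * n⌋₊ + 1) - a ⌊t * n⌋₊|) := add_le_add e1 e2
    _ = _ := by ring

theorem small {a : ℕ → ℝ} (ha : ∀ n, |a n| ≤ 1) (hd : Tendsto (fun n : ℕ => a (n + 1) - a n) atTop (𝓝 0))
    {t : ℝ} (ht : 0 < t) (ht1 : t ≤ 1) :
    Tendsto (fun n : ℕ => ((n : ℝ) + 1) * ((P a t (n + 1) - G a t (n + 1)) - (P a t n - G a t n)))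
      atTop (𝓝 0) := by
  have h1 : Tendsto (fun n : ℕ => (1 + 4 / t) * ((⌊t * (n : ℝ)⌋₊ : ℕ) : ℝ)⁻¹ +
      4 / t * |a (⌊t * (n : ℝ)⌋₊ + 1) - a ⌊t * (n : ℝ)⌋₊|) atTop (𝓝 ((1 + 4 / t) * 0 + 4 / t * |(0 : ℝ)|)) := by
    refine Tendsto.add (Tendsto.const_mul _ ?_) (Tendsto.const_mul _ ?_)
    · exact (tendsto_inv_atTop_nhds_zero_nat (𝕜 := ℝ)).comp (fl_top ht)
    · exact (hd.comp (fl_top ht)).abs
  rw [abs_zero, mul_zero, mul_zero, zero_add] at h1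
  refine squeeze_zero_norm' ?_ h1
  have h2 : Tendsto (fun n : ℕ => t * (n : ℝ)) atTop atTop := tendsto_natCast_atTop_atTop.const_mul_atTop ht
  filter_upwards [h2.eventually_ge_atTop 1] with n hn
  rw [Real.norm_eq_abs]
  exact bound ha ht ht1 n hn

theorem G_bound {a : ℕ → ℝ} (ha : ∀ n, |a n| ≤ 1) {t : ℝ} (ht : 0 < t) (ht1 : t ≤ 1) :
    ∃ C, ∀ᶠ n : ℕ in atTop, |G a t n| ≤ C := by
  refine ⟨1 + 1 + (-Real.log t) + 1, ?_⟩
  have h2 : Tendsto (fun n : ℕ => t * (n : ℝ)) atTop atTop := tendsto_natCast_atTop_atTop.const_mul_atTop ht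
  filter_upwards [h2.eventually_ge_atTop 1, eventually_ge_atTop 1] with n hn hn1
  have hf0 : 0 < ⌊t * n⌋₊ := Nat.floor_pos.2 hn
  have hn1' : (1 : ℝ) ≤ n := by exact_mod_cast hn1
  have hle : ⌊t * (n : ℝ)⌋₊ ≤ n := by
    have : ⌊t * (n : ℝ)⌋₊ ≤ ⌊(n : ℝ)⌋₊ := Nat.floor_mono (by nlinarith)
    rwa [Nat.floor_natCast] at this
  have h3 := B_diff ha hle
  have h4 : (harmonic n : ℝ) ≤ 1 + Real.log n := harmonic_le_one_add_log n
  have h5 : Real.log ((⌊t * (n : ℝ)⌋₊ + 1 : ℕ)) ≤ (harmonic ⌊t * (n : ℝ)⌋₊ : ℝ) := log_add_one_le_harmonic _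
  have h6 : Real.log (t * n) ≤ Real.log ((⌊t * (n : ℝ)⌋₊ + 1 : ℕ)) := by
    apply Real.log_le_log (by linarith)
    push_cast
    exact (Nat.lt_floor_add_one _).le
  rw [Real.log_mul ht.ne' (by linarith)] at h6
  unfold G
  refine (abs_add_le _ _).trans ?_
  have h7 : |g t n * (a ⌊t * n⌋₊ / ⌊t * n⌋₊)| ≤ 1 := by
    rw [abs_mul, abs_div, abs_of_nonneg (g_nonneg ht n), Nat.abs_cast]
    have hm1 : (1 : ℝ) ≤ ((⌊t * n⌋₊ : ℕ) : ℝ) := by exact_mod_cast hf0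
    have h8 : |a ⌊t * n⌋₊| / ((⌊t * n⌋₊ : ℕ) : ℝ) ≤ 1 := by
      rw [div_le_one (by linarith)]
      exact (ha _).trans hm1
    exact mul_le_one₀ (g_le t n) (by positivity) h8
  linarith

end Rie

theorem rie (hC : S_CES) : S_RIE := by
  intro a t ha hd ht ht1
  obtain ⟨C, hG⟩ := Rie.G_bound ha ht ht1
  -- CES applied to the increments
  have h1 := hC (fun n => (n : ℝ) * ((Rie.P a t n - Rie.G a t n) - (Rie.P a t (n - 1) - Rie.G a t (n - 1)))) 0 (by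
    rw [← tendsto_add_atTop_iff_nat 1]
    refine (Rie.small ha hd ht ht1).congr fun n => ?_
    rw [Nat.add_sub_cancel]
    push_cast
    ring)
  have h2 : ∀ N : ℕ, ∑ n ∈ Finset.Icc 1 N, (n : ℝ)⁻¹ * ((n : ℝ) * ((Rie.P a t n - Rie.G a t n) -
      (Rie.P a t (n - 1) - Rie.G a t (n - 1)))) = (Rie.P a t N - Rie.G a t N) - (Rie.P a t 0 - Rie.G a t 0) := by
    intro N
    rw [Rie.icc_sum, ← sum_range_sub (fun n => Rie.P a t n - Rie.G a t n)]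
    refine sum_congr rfl fun i _ => ?_
    rw [Nat.add_sub_cancel, ← mul_assoc, inv_mul_cancel₀ (Nat.cast_ne_zero.2 (Nat.succ_ne_zero i)), one_mul]
  simp only [h2] at h1
  have h3 : Tendsto (fun N : ℕ => (Rie.G a t N + (Rie.P a t 0 - Rie.G a t 0)) / Real.log N) atTop (𝓝 0) := by
    have h4 : Tendsto (fun N : ℕ => (C + |Rie.P a t 0 - Rie.G a t 0|) / Real.log N) atTop (𝓝 0) :=
      Tendsto.const_div_atTop Rie.log_top _
    refine squeeze_zero_norm' ?_ h4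
    filter_upwards [hG, Rie.log_top.eventually_gt_atTop 0] with N hN hN2
    rw [Real.norm_eq_abs, abs_div, abs_of_pos hN2]
    gcongr
    exact (abs_add_le _ _).trans (add_le_add hN le_rfl)
  have h5 := h1.add h3
  rw [add_zero] at h5
  refine h5.congr fun N => ?_
  rw [← add_div]
  congr 1
  rw [Rie.icc_sum]
  have h6 : Rie.P a t N = ∑ i ∈ range N, (((i + 1 : ℕ) : ℝ))⁻¹ * (a ⌊t * ((i + 1 : ℕ) : ℝ)⌋₊ - a (i + 1)) := by
    unfold Rie.P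
    refine sum_congr rfl fun i _ => ?_
    push_cast; ring
  rw [← h6]
  ring

end Pool.Agent.N956.EM
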