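import Pool.Agent.N956.EM.Stm

/-!
# The path of `t n` steps and the first part of the path of `n` steps
-/

set_option autoImplicit false

namespace Pool.Agent.N956.EM

open H974 Finset H342P H984P H984H MeasureTheory Filter Topology

noncomputable section

namespace SHR

theorem reach_le {n k : ℕ} (ω : Conf) (hk : k ≤ n) : ‖gam ω k‖ ≤ reach n ω := by
  unfold reach
  exact Finset.le_sup' (fun k => ‖gam ω k‖) (Finset.mem_range.mpr (by omega))

theorem reach_nonneg (n : ℕ) (ω : Conf) : 0 ≤ reach n ω :=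
  (norm_nonneg _).trans (reach_le ω (Nat.zero_le n))

theorem gam_dist (ω : Conf) (k j : ℕ) : ‖gam ω (k + j) - gam ω k‖ ≤ j * (1/2) := by
  induction j with
  | zero => simp
  | succ j ih =>
    have h1 := gam_step ω (k + j)
    rw [dist_comm, dist_eq_norm] at h1
    have h2 : gam ω (k + (j + 1)) - gam ω k =
        (gam ω (k + j + 1) - gam ω (k + j)) + (gam ω (k + j) - gam ω k) := by
      rw [← add_assoc]
      ring
    rw [h2]
    refine (norm_add_le _ _).trans ?_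
    push_cast
    linarith

theorem gam_dist2 (ω : Conf) {k l : ℕ} (h1 : k ≤ l + 2) (h2 : l ≤ k + 2) :
    ‖gam ω k - gam ω l‖ ≤ 1 := by
  rcases le_total k l with h | h
  · obtain ⟨j, rfl⟩ := Nat.exists_eq_add_of_le h
    have h3 := gam_dist ω k j
    rw [norm_sub_rev]
    have h4 : (j : ℝ) ≤ 2 := by exact_mod_cast (by omega : j ≤ 2)
    linarith
  · obtain ⟨j, rfl⟩ := Nat.exists_eq_add_of_le h
    have h3 := gam_dist ω l j
    have h4 : (j : ℝ) ≤ 2 := by exact_mod_cast (by omega : j ≤ 2)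
    linarith

/-- the deterministic estimate -/
theorem core {m n : ℕ} (hm : 1 ≤ m) (t : unitInterval) (ht : 0 < (t : ℝ))
    (h1 : (m : ℝ) ≤ t * n) (h2 : (t : ℝ) * n ≤ m + 1) (ω : Conf) :
    dist (shrink t (curve n ω)) (curve m ω) ≤
      ((m : ℝ) ^ (-(4/7) : ℝ) - ((t : ℝ) * n) ^ (-(4/7) : ℝ)) * reach n ω +
        2 * (m : ℝ) ^ (-(4/7) : ℝ) := by
  have hm0 : (0 : ℝ) < m := by exact_mod_cast hm
  have htn : (0 : ℝ) < t * n := hm0.trans_le h1
  have hn0 : (0 : ℝ) < n := by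
    by_contra h
    push Not at h
    have : (n : ℝ) = 0 := le_antisymm h (Nat.cast_nonneg n)
    rw [this, mul_zero] at htn
    exact lt_irrefl _ htn
  have hn : 0 < n := by exact_mod_cast hn0
  set a : ℝ := (m : ℝ) ^ (-(4/7) : ℝ) with ha
  set b : ℝ := ((t : ℝ) * n) ^ (-(4/7) : ℝ) with hb
  have hb1 : b = (t : ℝ) ^ (-(4/7) : ℝ) * (n : ℝ) ^ (-(4/7) : ℝ) := by
    rw [hb, Real.mul_rpow ht.le hn0.le]
  have hba : b ≤ a := by
    rw [ha, hb]
    exact Real.rpow_le_rpow_of_nonpos hm0 h1 (by norm_num)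
  have hb0 : 0 ≤ b := by positivity
  have ha0 : 0 ≤ a := by positivity
  have hr := reach_nonneg n ω
  rw [ContinuousMap.dist_le (by nlinarith)]
  intro s
  have hs0 : 0 ≤ (s : ℝ) := s.2.1
  have hs1 : (s : ℝ) ≤ 1 := s.2.2
  obtain ⟨k, hk, hk1, hk2⟩ := H984N.pl_exists_seg (by omega : 0 < m) s
  obtain ⟨l, hl, hl1, hl2⟩ := H984N.pl_exists_seg hn (t * s)
  have hc1 := curve_node ω hk hk1 hk2
  have hc2 := curve_node ω hl hl1 hl2
  have e1 : ((t * s : unitInterval) : ℝ) * n = s * (t * n) := by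
    show ((t : ℝ) * s) * n = s * (t * n)
    ring
  rw [e1] at hl1 hl2
  have e2 : (s : ℝ) * m ≤ s * (t * n) := mul_le_mul_of_nonneg_left h1 hs0
  have e3 : (s : ℝ) * (t * n) ≤ s * m + 1 := by nlinarith
  have hkl : k ≤ l + 2 := by
    have : (k : ℝ) ≤ l + 1 := by linarith
    have : k ≤ l + 1 := by exact_mod_cast this
    omega
  have hlk : l ≤ k + 2 := by
    have : (l : ℝ) ≤ k + 2 := by linarith
    exact_mod_cast this
  have hg := gam_dist2 ω hlk hkl
  have hshr : shrink t (curve n ω) s = (((t : ℝ) ^ (-(4/7) : ℝ) : ℝ) : ℂ) * curve n ω (t * s) := rfl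
  rw [dist_eq_norm, hshr]
  have e4 : (((t : ℝ) ^ (-(4/7) : ℝ) : ℝ) : ℂ) * curve n ω (t * s) - curve m ω s =
      (((t : ℝ) ^ (-(4/7) : ℝ) : ℝ) : ℂ) *
        (curve n ω (t * s) - (((n : ℝ) ^ (-(4/7) : ℝ) : ℝ) : ℂ) * gam ω l) +
      (-(((a - b : ℝ) : ℂ) * gam ω l)) + ((a : ℝ) : ℂ) * (gam ω l - gam ω k) -
      (curve m ω s - ((a : ℝ) : ℂ) * gam ω k) := by
    rw [hb1]
    push_cast
    ring
  rw [e4]
  have n1 : ‖(((t : ℝ) ^ (-(4/7) : ℝ) : ℝ) : ℂ) *
        (curve n ω (t * s) - (((n : ℝ) ^ (-(4/7) : ℝ) : ℝ) : ℂ) * gam ω l)‖ ≤ b * (1/2) := by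
    have hp : 0 ≤ (t : ℝ) ^ (-(4/7) : ℝ) := by positivity
    rw [norm_mul, Complex.norm_real, Real.norm_eq_abs, abs_of_nonneg hp, hb1, mul_assoc]
    exact mul_le_mul_of_nonneg_left hc2 hp
  have n2 : ‖-(((a - b : ℝ) : ℂ) * gam ω l)‖ ≤ (a - b) * reach n ω := by
    rw [norm_neg, norm_mul, Complex.norm_real, Real.norm_eq_abs,
      abs_of_nonneg (by linarith : 0 ≤ a - b)]
    exact mul_le_mul_of_nonneg_left (reach_le ω hl.le) (by linarith)
  have n3 : ‖((a : ℝ) : ℂ) * (gam ω l - gam ω k)‖ ≤ a := by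
    rw [norm_mul, Complex.norm_real, Real.norm_eq_abs, abs_of_nonneg ha0]
    nlinarith
  have n4 : ‖curve m ω s - ((a : ℝ) : ℂ) * gam ω k‖ ≤ a * (1/2) := hc1
  refine (norm_sub_le _ _).trans ?_
  refine (add_le_add_left ((norm_add_le _ _).trans (add_le_add_left (norm_add_le _ _) _)) _).trans ?_
  nlinarith

theorem shrink_cont (t : unitInterval) : Continuous (shrink t) := by
  refine ContinuousMap.continuous_of_continuous_uncurry _ ?_
  show Continuous fun z : C(unitInterval, ℂ) × unitInterval =>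
    (((t : ℝ) ^ (-(4/7) : ℝ) : ℝ) : ℂ) * z.1 (t * z.2)
  fun_prop

/-- the factors are close -/
theorem factor {m : ℕ} (hm : 1 ≤ m) {y : ℝ} (h1 : (m : ℝ) ≤ y) (h2 : y ≤ m + 1) :
    (m : ℝ) ^ (-(4/7) : ℝ) - y ^ (-(4/7) : ℝ) ≤ y ^ (-(4/7) : ℝ) / m := by
  have hm0 : (0 : ℝ) < m := by exact_mod_cast hm
  have hy0 : 0 < y := hm0.trans_le h1
  have h3 : (m : ℝ) ^ (-(4/7) : ℝ) = y ^ (-(4/7) : ℝ) * (y / m) ^ (4/7 : ℝ) := by
    rw [Real.div_rpow hy0.le hm0.le, Real.rpow_neg hm0.le, Real.rpow_neg hy0.le]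
    have := (Real.rpow_pos_of_pos hy0 (4/7)).ne'
    field_simp
  have h4 : (y / m) ^ (4/7 : ℝ) ≤ y / m := by
    have h5 : 1 ≤ y / m := by rw [le_div_iff₀ hm0]; linarith
    calc (y / m) ^ (4/7 : ℝ) ≤ (y / m) ^ (1 : ℝ) :=
          Real.rpow_le_rpow_of_exponent_le h5 (by norm_num)
      _ = y / m := Real.rpow_one _
  have h6 : y / m ≤ 1 + 1 / m := by
    rw [div_le_iff₀ hm0, add_mul, one_div, inv_mul_cancel₀ hm0.ne']
    linarith
  have h7 : 0 < y ^ (-(4/7) : ℝ) := Real.rpow_pos_of_pos hy0 _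
  rw [h3]
  have h8 : y ^ (-(4/7) : ℝ) * (y / m) ^ (4/7 : ℝ) ≤ y ^ (-(4/7) : ℝ) * (1 + 1 / m) :=
    mul_le_mul_of_nonneg_left (h4.trans h6) h7.le
  have h9 : y ^ (-(4/7) : ℝ) * (1 + 1 / m) = y ^ (-(4/7) : ℝ) + y ^ (-(4/7) : ℝ) / m := by
    ring
  linarith

/-- the estimate in mean -/
theorem mean {c C : ℝ} (hc : 0 < c) (hC : 0 < C) (hL : LowA c (1/4)) (hU : TwoUp C (1/4))
    (Φ : C(unitInterval, ℂ) → ℝ) (hΦ1 : ∀ f, |Φ f| ≤ 1) (hΦ : LipschitzWith 1 Φ)
    (t : unitInterval) (ht : 0 < (t : ℝ)) {ε : ℝ} (hε : 0 < ε) :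
    ∃ M : ℕ, ∀ m ≥ M, ∀ n : ℕ, (m : ℝ) ≤ t * n → (t : ℝ) * n ≤ m + 1 →
      |∫ ω, Φ (shrink t (curve n ω)) ∂perc - ∫ ω, Φ (curve m ω) ∂perc| ≤ 2 * ε := by
  obtain ⟨a, A, ha, hA, htail⟩ := tail_up hc hC hL hU
  set κ : ℝ := (ε / 2) * (t : ℝ) ^ (4/7 : ℝ) with hκ
  have hκ0 : 0 < κ := by positivity
  -- the limits
  have l1 : Tendsto (fun m : ℕ => 2 * (m : ℝ) ^ (-(4/7) : ℝ)) atTop (𝓝 0) := by
    have h := ((tendsto_rpow_neg_atTop (by norm_num : (0:ℝ) < 4/7)).comp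
      tendsto_natCast_atTop_atTop).const_mul 2
    rw [mul_zero] at h
    exact h
  have l2 : Tendsto (fun m : ℕ => 2 * (A * Real.exp (-(a * (κ * m) ^ (1/2 : ℝ))))) atTop
      (𝓝 0) := by
    have h1 : Tendsto (fun m : ℕ => a * (κ * (m : ℝ)) ^ (1/2 : ℝ)) atTop atTop := by
      refine Tendsto.const_mul_atTop ha ?_
      exact (tendsto_rpow_atTop (by norm_num : (0:ℝ) < 1/2)).comp
        (Tendsto.const_mul_atTop hκ0 tendsto_natCast_atTop_atTop)
    have h2 := ((Real.tendsto_exp_neg_atTop_nhds_zero.comp h1).const_mul A).const_mul 2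
    rw [mul_zero, mul_zero] at h2
    exact h2
  have e1 := (l1.eventually (gt_mem_nhds (by positivity : (0:ℝ) < ε / 2)))
  have e2 := (l2.eventually (gt_mem_nhds hε))
  obtain ⟨M, hM⟩ := (e1.and (e2.and (eventually_ge_atTop 1))).exists_forall_of_atTop
  refine ⟨M, fun m hm n h1 h2 => ?_⟩
  obtain ⟨hM1, hM2, hM3⟩ := hM m hm
  have hm0 : (0 : ℝ) < m := by exact_mod_cast hM3
  have htn : (0 : ℝ) < t * n := hm0.trans_le h1
  have hn0 : (0 : ℝ) < n := by
    by_contra h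
    push Not at h
    have : (n : ℝ) = 0 := le_antisymm h (Nat.cast_nonneg n)
    rw [this, mul_zero] at htn
    exact lt_irrefl _ htn
  have hn : 1 ≤ n := by exact_mod_cast hn0
  have hΦc := hΦ.continuous
  have m1 : Measurable fun ω => Φ (shrink t (curve n ω)) :=
    (hΦc.comp (shrink_cont t)).measurable.comp (curve_meas n)
  have m2 : Measurable fun ω => Φ (curve m ω) := hΦc.measurable.comp (curve_meas m)
  have i1 : Integrable (fun ω => Φ (shrink t (curve n ω))) perc :=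
    Integrable.of_bound m1.aestronglyMeasurable 1 (Eventually.of_forall fun ω => by
      rw [Real.norm_eq_abs]
      exact hΦ1 _)
  have i2 : Integrable (fun ω => Φ (curve m ω)) perc :=
    Integrable.of_bound m2.aestronglyMeasurable 1 (Eventually.of_forall fun ω => by
      rw [Real.norm_eq_abs]
      exact hΦ1 _)
  rw [← integral_sub i1 i2]
  refine (abs_integral_le_integral_abs).trans ?_
  set B : Set Conf := {ω | κ * m * (n : ℝ) ^ (4/7 : ℝ) ≤ reach n ω} with hB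
  set G : Set Conf := {ω | ε ≤ |Φ (shrink t (curve n ω)) - Φ (curve m ω)|} with hG
  have hGm : MeasurableSet G := measurableSet_le measurable_const (m1.sub m2).abs
  have hGB : G ⊆ B := by
    intro ω hω
    have h3 : ε ≤ dist (shrink t (curve n ω)) (curve m ω) := by
      have h4 := hΦ.dist_le_mul (shrink t (curve n ω)) (curve m ω)
      rw [Real.dist_eq, NNReal.coe_one, one_mul] at h4
      exact (show ε ≤ _ from hω).trans h4
    have h5 := core hM3 t ht h1 h2 ω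
    have h6 := factor hM3 h1 h2
    have h7 := reach_nonneg n ω
    have h8 : ε / 2 ≤ ((t : ℝ) * n) ^ (-(4/7) : ℝ) / m * reach n ω := by
      have := mul_le_mul_of_nonneg_right h6 h7
      linarith
    show κ * m * (n : ℝ) ^ (4/7 : ℝ) ≤ reach n ω
    have h9 : κ * m * (n : ℝ) ^ (4/7 : ℝ) = (ε / 2) * (m * ((t : ℝ) * n) ^ (4/7 : ℝ)) := by
      rw [hκ, Real.mul_rpow ht.le hn0.le]
      ring
    rw [h9]
    have h10 : 0 < m * ((t : ℝ) * n) ^ (4/7 : ℝ) := by positivity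
    refine (mul_le_mul_of_nonneg_right h8 h10.le).trans (le_of_eq ?_)
    rw [Real.rpow_neg htn.le]
    have := (Real.rpow_pos_of_pos htn (4/7)).ne'
    field_simp
  have hPB : perc.real B ≤ A * Real.exp (-(a * (κ * m) ^ (1/2 : ℝ))) :=
    htail n (κ * m) hn (by positivity)
  have hPG : perc.real G ≤ perc.real B := measureReal_mono hGB
  have hle : ∀ ω, |Φ (shrink t (curve n ω)) - Φ (curve m ω)| ≤ ε + G.indicator (fun _ => 2) ω := by
    intro ω
    by_cases hω : ω ∈ G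
    · rw [Set.indicator_of_mem hω]
      have h3 := hΦ1 (shrink t (curve n ω))
      have h4 := hΦ1 (curve m ω)
      have h5 := abs_sub (Φ (shrink t (curve n ω))) (Φ (curve m ω))
      linarith
    · rw [Set.indicator_of_notMem hω, add_zero]
      have : ¬ ε ≤ |Φ (shrink t (curve n ω)) - Φ (curve m ω)| := hω
      linarith
  calc ∫ ω, |Φ (shrink t (curve n ω)) - Φ (curve m ω)| ∂perc
      ≤ ∫ ω, (ε + G.indicator (fun _ => (2:ℝ)) ω) ∂perc := by
        refine integral_mono (i1.sub i2).abs ?_ hle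
        exact (integrable_const _).add ((integrable_const _).indicator hGm)
    _ = ε + perc.real G * 2 := by
        rw [integral_add (integrable_const _) ((integrable_const _).indicator hGm),
          integral_const, integral_indicator_const _ hGm]
        simp
    _ ≤ 2 * ε := by linarith

end SHR

open SHR in
theorem shr {c C : ℝ} (hc : 0 < c) (hC : 0 < C) (hL : LowA c (1/4)) (hU : TwoUp C (1/4)) :
    S_SHR := by
  intro Φ hΦ1 hΦ
  refine ⟨fun t ht => ?_, ?_⟩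
  · have ht' : 0 < (t : ℝ) := ht
    rw [Metric.tendsto_atTop]
    intro ε hε
    obtain ⟨M, hM⟩ := mean hc hC hL hU Φ hΦ1 hΦ t ht' (by positivity : 0 < ε / 4)
    have h1 : Tendsto (fun n : ℕ => ⌊(t : ℝ) * n⌋₊) atTop atTop :=
      tendsto_nat_floor_atTop.comp (Tendsto.const_mul_atTop ht' tendsto_natCast_atTop_atTop)
    obtain ⟨N, hN⟩ := (h1.eventually_ge_atTop M).exists_forall_of_atTop
    refine ⟨N, fun n hn => ?_⟩
    have h2 := hM _ (hN n hn) n (Nat.floor_le (by positivity)) (Nat.lt_floor_add_one _).le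
    rw [Real.dist_eq, sub_zero]
    linarith
  · rw [Metric.tendsto_atTop]
    intro ε hε
    obtain ⟨M, hM⟩ := mean hc hC hL hU Φ hΦ1 hΦ 1 (by norm_num) (by positivity : 0 < ε / 4)
    refine ⟨M, fun n hn => ?_⟩
    have h1 : ∀ f, shrink 1 f = f := by
      intro f
      ext s
      show ((((1 : unitInterval) : ℝ) ^ (-(4/7) : ℝ) : ℝ) : ℂ) * f (1 * s) = f s
      rw [one_mul]
      simp
    have h2 := hM n hn (n + 1) (by push_cast; simp) (by push_cast; simp)
    rw [Real.dist_eq, sub_zero]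
    simp only [h1] at h2
    linarith

end

end Pool.Agent.N956.EM
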