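import Pool.Agent.N956.EM.Stm2
import Pool.Agent.N956.EM.Shr

/-!
# The path of `t n` steps and the first part of the path of `n` steps, in mean
-/

set_option autoImplicit false

namespace Pool.Agent.N956.EM

open H974 Finset H342P H984P H984H MeasureTheory Filter Topology

noncomputable section

namespace SHR

/-- the estimate in mean -/
theorem mean1 {c C : ℝ} (hc : 0 < c) (hC : 0 < C) (hL : LowA c (1/4)) (hU : TwoUp C (1/4))
    (Φ : C(unitInterval, ℂ) → ℝ) (hΦ1 : ∀ f, |Φ f| ≤ 1) (hΦ : LipschitzWith 1 Φ)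
    (t : unitInterval) (ht : 0 < (t : ℝ)) {ε : ℝ} (hε : 0 < ε) :
    ∃ M : ℕ, ∀ m ≥ M, ∀ n : ℕ, (m : ℝ) ≤ t * n → (t : ℝ) * n ≤ m + 1 →
      ∫ ω, |Φ (shrink t (curve n ω)) - Φ (curve m ω)| ∂perc ≤ 2 * ε := by
  obtain ⟨a, A, ha, hA, htail⟩ := tail_up hc hC hL hU
  set κ : ℝ := (ε / 2) * (t : ℝ) ^ (4/7 : ℝ) with hκ
  have hκ0 : 0 < κ := by positivity
  -- the limits
  have l1 : Tendsto (fun m : ℕ => 2 * (m : ℝ) ^ (-(4/7) : ℝ)) atTop (𝓝 0) := by
    have h := ((tendsto_rpow_neg_atTop (by norm_num : (0:ℝ) < 4/7)).comp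
      tendsto_natCast_atTop_atTop).const_mul 2
    rw [mul_zero] at h
    exact h
  have l2 : Tendsto (fun m : ℕ => 2 * (A * Real.exp (-(a * (κ * m) ^ (1/2 : ℝ))))) atTop
      (𝓝 0) := by
    have h1 : Tendsto (fun m : ℕ => a * (κ * (m : ℝ)) ^ (1/2 : ℝ)) atTop atTop := by
      refine Tendsto.const_mul_atTop ha ?_
      exact (tendsto_rpow_atTop (by norm_num : (0:ℝ) < 1/2)).comp
        (Tendsto.const_mul_atTop hκ0 tendsto_natCast_atTop_atTop)
    have h2 := ((Real.tendsto_exp_neg_atTop_nhds_zero.comp h1).const_mul A).const_mul 2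
    rw [mul_zero, mul_zero] at h2
    exact h2
  have e1 := (l1.eventually (gt_mem_nhds (by positivity : (0:ℝ) < ε / 2)))
  have e2 := (l2.eventually (gt_mem_nhds hε))
  obtain ⟨M, hM⟩ := (e1.and (e2.and (eventually_ge_atTop 1))).exists_forall_of_atTop
  refine ⟨M, fun m hm n h1 h2 => ?_⟩
  obtain ⟨hM1, hM2, hM3⟩ := hM m hm
  have hm0 : (0 : ℝ) < m := by exact_mod_cast hM3
  have htn : (0 : ℝ) < t * n := hm0.trans_le h1
  have hn0 : (0 : ℝ) < n := by
    by_contra h
    push Not at h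
    have : (n : ℝ) = 0 := le_antisymm h (Nat.cast_nonneg n)
    rw [this, mul_zero] at htn
    exact lt_irrefl _ htn
  have hn : 1 ≤ n := by exact_mod_cast hn0
  have hΦc := hΦ.continuous
  have m1 : Measurable fun ω => Φ (shrink t (curve n ω)) :=
    (hΦc.comp (shrink_cont t)).measurable.comp (curve_meas n)
  have m2 : Measurable fun ω => Φ (curve m ω) := hΦc.measurable.comp (curve_meas m)
  have i1 : Integrable (fun ω => Φ (shrink t (curve n ω))) perc :=
    Integrable.of_bound m1.aestronglyMeasurable 1 (Eventually.of_forall fun ω => by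
      rw [Real.norm_eq_abs]
      exact hΦ1 _)
  have i2 : Integrable (fun ω => Φ (curve m ω)) perc :=
    Integrable.of_bound m2.aestronglyMeasurable 1 (Eventually.of_forall fun ω => by
      rw [Real.norm_eq_abs]
      exact hΦ1 _)
  set B : Set Conf := {ω | κ * m * (n : ℝ) ^ (4/7 : ℝ) ≤ reach n ω} with hB
  set G : Set Conf := {ω | ε ≤ |Φ (shrink t (curve n ω)) - Φ (curve m ω)|} with hG
  have hGm : MeasurableSet G := measurableSet_le measurable_const (m1.sub m2).abs
  have hGB : G ⊆ B := by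
    intro ω hω
    have h3 : ε ≤ dist (shrink t (curve n ω)) (curve m ω) := by
      have h4 := hΦ.dist_le_mul (shrink t (curve n ω)) (curve m ω)
      rw [Real.dist_eq, NNReal.coe_one, one_mul] at h4
      exact (show ε ≤ _ from hω).trans h4
    have h5 := core hM3 t ht h1 h2 ω
    have h6 := factor hM3 h1 h2
    have h7 := reach_nonneg n ω
    have h8 : ε / 2 ≤ ((t : ℝ) * n) ^ (-(4/7) : ℝ) / m * reach n ω := by
      have := mul_le_mul_of_nonneg_right h6 h7
      linarith
    show κ * m * (n : ℝ) ^ (4/7 : ℝ) ≤ reach n ω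
    have h9 : κ * m * (n : ℝ) ^ (4/7 : ℝ) = (ε / 2) * (m * ((t : ℝ) * n) ^ (4/7 : ℝ)) := by
      rw [hκ, Real.mul_rpow ht.le hn0.le]
      ring
    rw [h9]
    have h10 : 0 < m * ((t : ℝ) * n) ^ (4/7 : ℝ) := by positivity
    refine (mul_le_mul_of_nonneg_right h8 h10.le).trans (le_of_eq ?_)
    rw [Real.rpow_neg htn.le]
    have := (Real.rpow_pos_of_pos htn (4/7)).ne'
    field_simp
  have hPB : perc.real B ≤ A * Real.exp (-(a * (κ * m) ^ (1/2 : ℝ))) :=
    htail n (κ * m) hn (by positivity)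
  have hPG : perc.real G ≤ perc.real B := measureReal_mono hGB
  have hle : ∀ ω, |Φ (shrink t (curve n ω)) - Φ (curve m ω)| ≤ ε + G.indicator (fun _ => 2) ω := by
    intro ω
    by_cases hω : ω ∈ G
    · rw [Set.indicator_of_mem hω]
      have h3 := hΦ1 (shrink t (curve n ω))
      have h4 := hΦ1 (curve m ω)
      have h5 := abs_sub (Φ (shrink t (curve n ω))) (Φ (curve m ω))
      linarith
    · rw [Set.indicator_of_notMem hω, add_zero]
      have : ¬ ε ≤ |Φ (shrink t (curve n ω)) - Φ (curve m ω)| := hω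
      linarith
  calc ∫ ω, |Φ (shrink t (curve n ω)) - Φ (curve m ω)| ∂perc
      ≤ ∫ ω, (ε + G.indicator (fun _ => (2:ℝ)) ω) ∂perc := by
        refine integral_mono (i1.sub i2).abs ?_ hle
        exact (integrable_const _).add ((integrable_const _).indicator hGm)
    _ = ε + perc.real G * 2 := by
        rw [integral_add (integrable_const _) ((integrable_const _).indicator hGm),
          integral_const, integral_indicator_const _ hGm]
        simp
    _ ≤ 2 * ε := by linarith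

end SHR

open SHR in
theorem shr1 {c C : ℝ} (hc : 0 < c) (hC : 0 < C) (hL : LowA c (1/4)) (hU : TwoUp C (1/4)) :
    S_SHR1 := by
  intro Φ hΦ1 hΦ t ht
  have ht' : 0 < (t : ℝ) := ht
  rw [Metric.tendsto_atTop]
  intro ε hε
  obtain ⟨M, hM⟩ := mean1 hc hC hL hU Φ hΦ1 hΦ t ht' (by positivity : 0 < ε / 4)
  have h1 : Tendsto (fun n : ℕ => ⌊(t : ℝ) * n⌋₊) atTop atTop :=
    tendsto_nat_floor_atTop.comp (Tendsto.const_mul_atTop ht' tendsto_natCast_atTop_atTop)
  obtain ⟨N, hN⟩ := (h1.eventually_ge_atTop M).exists_forall_of_atTop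
  refine ⟨N, fun n hn => ?_⟩
  have h2 := hM _ (hN n hn) n (Nat.floor_le (by positivity)) (Nat.lt_floor_add_one _).le
  have h3 : 0 ≤ ∫ ω, |Φ (shrink t (curve n ω)) - Φ (curve ⌊(t : ℝ) * n⌋₊ ω)| ∂perc :=
    integral_nonneg fun ω => abs_nonneg _
  rw [Real.dist_eq, sub_zero, abs_of_nonneg h3]
  linarith

end

end Pool.Agent.N956.EM
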