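import Pool.Agent.N956.EM.Stm

/-!
Project EM (helper956), part SINV (helper335): limit points of the logarithmic averages are scale
invariant.
-/

set_option autoImplicit false

namespace Pool.Agent.N956.EM

open H974 Finset H342P H984P H984H MeasureTheory Filter Topology
open scoped ENNReal NNReal

noncomputable section

namespace SinvAux

theorem lip_aux {Y : Type} [MetricSpace Y] [MeasurableSpace Y] [BorelSpace Y]
    (μ ν : Measure Y) [IsFiniteMeasure μ] [IsFiniteMeasure ν]
    (h : ∀ Φ : Y → ℝ, (∀ f, |Φ f| ≤ 1) → LipschitzWith 1 Φ →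
      ∫ f, Φ f ∂μ = ∫ f, Φ f ∂ν) {δ : ℝ} (hδ : 0 < δ) (hδ1 : δ ≤ 1) (F : Set Y) :
    ∫⁻ f, (thickenedIndicator hδ F f : ℝ≥0∞) ∂μ = ∫⁻ f, (thickenedIndicator hδ F f : ℝ≥0∞) ∂ν := by
  have hL := lipschitzWith_thickenedIndicator hδ F
  have h3 : ∫ f, δ * (thickenedIndicator hδ F f : ℝ) ∂μ
      = ∫ f, δ * (thickenedIndicator hδ F f : ℝ) ∂ν := by
    refine h _ ?_ ?_
    · intro f
      have h4 : (thickenedIndicator hδ F f : ℝ) ≤ 1 := by
        have := thickenedIndicator_le_one hδ F f
        exact_mod_cast this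
      rw [abs_of_nonneg (mul_nonneg hδ.le (NNReal.coe_nonneg _))]
      calc δ * (thickenedIndicator hδ F f : ℝ) ≤ 1 * 1 :=
            mul_le_mul hδ1 h4 (NNReal.coe_nonneg _) zero_le_one
        _ = 1 := one_mul 1
    · refine LipschitzWith.of_dist_le_mul fun x y => ?_
      have h5 := hL.dist_le_mul x y
      rw [NNReal.dist_eq, NNReal.coe_inv, Real.coe_toNNReal _ hδ.le] at h5
      rw [Real.dist_eq, ← mul_sub, abs_mul, abs_of_pos hδ, NNReal.coe_one, one_mul]
      have h7 := mul_le_mul_of_nonneg_left h5 hδ.le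
      rwa [← mul_assoc, mul_inv_cancel₀ hδ.ne', one_mul] at h7
  rw [integral_const_mul, integral_const_mul] at h3
  have h8 := mul_left_cancel₀ hδ.ne' h3
  rw [← BoundedContinuousFunction.toReal_lintegral_coe_eq_integral,
    ← BoundedContinuousFunction.toReal_lintegral_coe_eq_integral] at h8
  exact (ENNReal.toReal_eq_toReal_iff'
    (BoundedContinuousFunction.lintegral_lt_top_of_nnreal μ _).ne
    (BoundedContinuousFunction.lintegral_lt_top_of_nnreal ν _).ne).mp h8

/-- Finite Borel measures are determined by the integrals of the Lipschitz functions. -/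
theorem eq_of_lip {Y : Type} [MetricSpace Y] [MeasurableSpace Y] [BorelSpace Y]
    (μ ν : Measure Y) [IsFiniteMeasure μ] [IsFiniteMeasure ν]
    (h : ∀ Φ : Y → ℝ, (∀ f, |Φ f| ≤ 1) → LipschitzWith 1 Φ →
      ∫ f, Φ f ∂μ = ∫ f, Φ f ∂ν) : μ = ν := by
  refine ext_of_generate_finite {s | IsClosed s}
    (BorelSpace.measurable_eq.trans borel_eq_generateFrom_isClosed) isPiSystem_isClosed ?_ ?_
  · intro F hF
    have hF' : IsClosed F := hF
    have hpos : ∀ n : ℕ, (0 : ℝ) < 1 / ((n : ℝ) + 1) := fun n => by positivity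
    have hlim : Tendsto (fun n : ℕ => 1 / ((n : ℝ) + 1)) atTop (𝓝 0) :=
      tendsto_one_div_add_atTop_nhds_zero_nat
    have h1 := tendsto_lintegral_thickenedIndicator_of_isClosed μ hF' hpos hlim
    have h2 := tendsto_lintegral_thickenedIndicator_of_isClosed ν hF' hpos hlim
    refine tendsto_nhds_unique h1 (h2.congr fun n => ?_)
    refine (lip_aux μ ν h (hpos n) ?_ F).symm
    rw [div_le_one (by positivity)]
    have : (0 : ℝ) ≤ n := Nat.cast_nonneg n
    linarith
  · have h3 := h (fun _ => 1) (fun _ => by simp)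
      ((LipschitzWith.const (1 : ℝ)).weaken zero_le_one)
    simp only [integral_const, smul_eq_mul, mul_one] at h3
    exact (ENNReal.toReal_eq_toReal_iff' (measure_ne_top _ _) (measure_ne_top _ _)).mp h3

theorem shrink_lip (t : unitInterval) :
    LipschitzWith ‖((((t : ℝ) ^ (-(4/7) : ℝ) : ℝ) : ℂ))‖₊ (shrink t) := by
  refine LipschitzWith.of_dist_le_mul fun f g => ?_
  rw [ContinuousMap.dist_le (by positivity)]
  intro s
  change dist (((((t : ℝ) ^ (-(4/7) : ℝ) : ℝ) : ℂ)) * f (t * s))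
    (((((t : ℝ) ^ (-(4/7) : ℝ) : ℝ) : ℂ)) * g (t * s)) ≤ _
  rw [dist_eq_norm, ← mul_sub, norm_mul, ← dist_eq_norm, coe_nnnorm]
  exact mul_le_mul_of_nonneg_left (ContinuousMap.dist_apply_le_dist _) (norm_nonneg _)

end SinvAux

open SinvAux in
/-- Part SINV. -/
theorem sinv (hS : S_SHR) (hR : S_RIE) (hC : S_CES) : S_SINV := by
  intro φ hφ ν hν t ht
  have hcont : Continuous (shrink t) := (shrink_lip t).continuous
  have : IsProbabilityMeasure ((ν : Measure C(unitInterval, ℂ)).map (shrink t)) :=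
    Measure.isProbabilityMeasure_map hcont.measurable.aemeasurable
  refine eq_of_lip _ _ fun Φ hΦ1 hΦL => ?_
  have hΦc : Continuous Φ := hΦL.continuous
  rw [integral_map hcont.measurable.aemeasurable hΦc.measurable.aestronglyMeasurable]
  have h1 := hν Φ hΦc ⟨1, hΦ1⟩
  have h2 := hν (fun f => Φ (shrink t f)) (hΦc.comp hcont) ⟨1, fun f => hΦ1 _⟩
  refine tendsto_nhds_unique h2 ?_
  obtain ⟨hs1, hs2⟩ := hS Φ hΦ1 hΦL
  set a : ℕ → ℝ := fun n => ∫ ω, Φ (curve n ω) ∂perc with ha
  set b : ℕ → ℝ := fun n => ∫ ω, Φ (shrink t (curve n ω)) ∂perc with hb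
  have habs : ∀ n, |a n| ≤ 1 := by
    intro n
    have h3 := norm_integral_le_of_norm_le_const (μ := perc) (f := fun ω => Φ (curve n ω))
      (C := 1) (Eventually.of_forall fun ω => by rw [Real.norm_eq_abs]; exact hΦ1 _)
    simpa using h3
  have h4 := hC _ 0 (hs1 t ht)
  have h5 := hR a t habs hs2 ht t.2.2
  have h6 : Tendsto (fun N : ℕ => avg (fun f => Φ (shrink t f)) N - avg Φ N) atTop (𝓝 0) := by
    have h7 := h4.add h5
    rw [add_zero] at h7
    refine h7.congr fun N => ?_
    unfold avg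
    rw [← add_div, ← sub_div, ← Finset.sum_add_distrib, ← Finset.sum_sub_distrib]
    congr 1
    refine Finset.sum_congr rfl fun n _ => ?_
    simp only [ha]
    ring
  have h8 := (h6.comp hφ).add h1
  rw [zero_add] at h8
  refine h8.congr fun i => ?_
  simp only [Function.comp]
  ring

end

end Pool.Agent.N956.EM
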