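import Pool.Agent.H984R4.HN.NoZero
import Pool.Agent.TH992.L.Ev
import Pool.Agent.TH992.L.VisH

/-!
# Empirical law of the half-plane exploration path: definitions and statements of the parts
-/

set_option autoImplicit false
set_option linter.unusedVariables false

namespace Pool.Agent.N956.EM

open H974 Finset H342P H984P H984H MeasureTheory Filter Topology

noncomputable section

/-! ### the visited states -/

/-- the vertices connected to the origin by open edges (the cluster of the negative half-axis) -/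
def Cl (ω : Conf) : Set Vtx := {v | Reach (opn ω) (0, 0) v}

/-- the closed edges of the half-plane -/
def clo (ω : Conf) : Set Edg := {e | 0 ≤ e.2.1 ∧ e ∉ opn ω}

/-- the faces connected, across closed edges, to the faces below the positive half-axis -/
def Dl (ω : Conf) : Set Vtx := {f | ∃ x : ℤ, 0 ≤ x ∧ DReach (clo ω) (x, -1) f}

/-- the closed edges off the axis -/
def icl (ω : Conf) : Set Edg := {e | 0 ≤ e.2.1 ∧ ¬ (e.2.1 = 0 ∧ e.2.2 = true) ∧ ω e = false}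

/-- the dual cluster of the faces near the half-box of radius `r`, off the axis -/
def Du (ω : Conf) (r : ℤ) : Set Vtx :=
  {f | ∃ g : Vtx, sd g (0, 0) ≤ r + 1 ∧ 0 ≤ g.2 ∧ DReach (icl ω) g f}

/-- no open path off the axis from the half-box of radius `r` to distance `R` -/
def GoodO (ω : Conf) (r R : ℤ) : Prop := ∀ v ∈ Ret_S ω r, sd v (0, 0) < R

/-- no closed dual path off the axis from the half-box of radius `r` to distance `R` -/
def GoodD (ω : Conf) (r R : ℤ) : Prop := ∀ f ∈ Du ω r, sd f (0, 0) < R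

/-- VIS: the visited states above the axis -/
def S_VIS : Prop := ∀ (ω : Conf) (σ : St), 0 ≤ (face σ).2 →
  ((∃ k, path ω k = σ) ↔ (σ.1 ∈ Cl ω ∧ face σ ∈ Dl ω))

/-- AGR: the visited states far away do not depend on the configuration in the box -/
def S_AGR : Prop := ∀ (ω ω' : Conf) (r R : ℤ), 1 ≤ r → r < R →
  (∀ e ∉ (bx r).edges, ω e = ω' e) → GoodO ω r R → GoodD ω r R →
  ∀ σ : St, R < sd σ.1 (0, 0) → ((∃ k, path ω k = σ) ↔ (∃ k, path ω' k = σ))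

/-- ARM: probabilities of arms in the half-annulus -/
def S_ARM : Prop := ∃ a A : ℝ, 0 < a ∧ 0 < A ∧ ∀ r R : ℤ, 1 ≤ r → r ≤ R →
  perc.real {ω | ¬ GoodO ω r R} ≤ A * ((r : ℝ) / R) ^ a ∧
  perc.real {ω | ¬ GoodD ω r R} ≤ A * ((r : ℝ) / R) ^ a

/-- COAL: the paths in two configurations which agree off a box coalesce -/
def S_COAL : Prop := ∀ (ω ω' : Conf) (r R R₂ : ℤ), 1 ≤ r → r < R → R < R₂ →
  (∀ e ∉ (bx r).edges, ω e = ω' e) → GoodO ω r R → GoodD ω r R →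
  GoodO ω R R₂ → GoodO ω' R R₂ →
  ∃ T T' : ℕ, (∀ j, path ω (T + j) = path ω' (T' + j)) ∧
    (∀ k < T, sd (path ω k).1 (0, 0) < R₂) ∧ (∀ k < T', sd (path ω' k).1 (0, 0) < R₂)

/-! ### oscillation -/

/-- an increment of size at least `δ` in at most `τ` steps, up to time `N` -/
def Osc (ω : Conf) (N τ : ℕ) (δ : ℝ) : Prop :=
  ∃ i j : ℕ, i ≤ j ∧ j ≤ i + τ ∧ j ≤ N ∧ δ ≤ ‖gam ω j - gam ω i‖

/-- OSC: tail of the oscillation -/
def S_OSC : Prop := ∃ b B : ℝ, 0 < b ∧ 0 < B ∧ ∀ (n τ : ℕ) (η : ℝ), 1 ≤ τ → τ ≤ n → 0 < η → η ≤ 1 →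
  perc.real {ω | Osc ω n τ (η * (n : ℝ) ^ (4/7 : ℝ))} ≤ B * η ^ (-B) * ((τ : ℝ) / n) ^ b

/-- DIF: distance of the rescaled curves of two paths which coalesce -/
def S_DIF : Prop := ∀ (ω ω' : Conf) (n τ T T' : ℕ) (δ : ℝ), 1 ≤ n → τ ≤ n → T ≤ τ → T' ≤ τ → 0 ≤ δ →
  (∀ j, path ω (T + j) = path ω' (T' + j)) → ¬ Osc ω (2 * n) τ δ → ¬ Osc ω' (2 * n) τ δ →
  dist (curve n ω) (curve n ω') ≤ 2 * δ * (n : ℝ) ^ (-(4/7) : ℝ)

/-! ### resampling -/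

/-- the configuration flipped at the edges of `H` -/
def flip (H : Finset Edg) (ω : Conf) : Conf := fun e => if e ∈ H then !(ω e) else ω e

/-- FLIP -/
def S_FLIP : Prop := ∀ H : Finset Edg, MeasurePreserving (flip H) perc perc

/-- MIX: correlation of a function of the configuration in a finite set of edges with a function
which changes little if these edges are flipped -/
def S_MIX : Prop := ∀ (S : Finset Edg) (f g : Conf → ℝ) (δ : ℝ), Measurable f → Measurable g →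
  (∀ ω, |f ω| ≤ 1) → (∀ ω, |g ω| ≤ 1) →
  (∀ ω ω' : Conf, (∀ e ∈ S, ω e = ω' e) → f ω = f ω') →
  (∀ H ⊆ S, ∫ ω, |g ω - g (flip H ω)| ∂perc ≤ δ) →
  |∫ ω, f ω * g ω ∂perc - (∫ ω, f ω ∂perc) * ∫ ω, g ω ∂perc| ≤ δ

/-- DEC: decorrelation of the rescaled curves at different scales -/
def S_DEC : Prop := ∃ C c : ℝ, 0 < C ∧ 0 < c ∧ c ≤ 1 ∧ ∀ m n : ℕ, 1 ≤ m → m ≤ n →
  ∀ Φ Ψ : C(unitInterval, ℂ) → ℝ, Measurable Φ → (∀ f, |Φ f| ≤ 1) → (∀ f, |Ψ f| ≤ 1) →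
    LipschitzWith 1 Ψ →
    |∫ ω, Φ (curve m ω) * Ψ (curve n ω) ∂perc -
      (∫ ω, Φ (curve m ω) ∂perc) * ∫ ω, Ψ (curve n ω) ∂perc| ≤ C * ((m : ℝ) / n) ^ c

/-! ### logarithmic averages -/

/-- LOG: law of large numbers for logarithmic averages -/
def S_LOG : Prop := ∀ (Ω : Type) (_ : MeasurableSpace Ω) (μ : Measure Ω) (_ : IsProbabilityMeasure μ)
  (X : ℕ → Ω → ℝ) (C γ : ℝ), (∀ n, Measurable (X n)) → (∀ n ω, |X n ω| ≤ 1) → 0 ≤ C → 0 < γ →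
  γ ≤ 1 → (∀ m n, 1 ≤ m → m ≤ n →
    |∫ ω, X m ω * X n ω ∂μ - (∫ ω, X m ω ∂μ) * ∫ ω, X n ω ∂μ| ≤ C * ((m : ℝ) / n) ^ γ) →
  ∀ᵐ ω ∂μ, Tendsto (fun N : ℕ => (∑ n ∈ Finset.Icc 1 N, (n : ℝ)⁻¹ * (X n ω - ∫ ω', X n ω' ∂μ)) /
    Real.log N) atTop (𝓝 0)

/-- PORT: countably many Lipschitz functions determine the convergence of the logarithmic averages,
for a tight sequence of laws -/
def S_PORT : Prop := ∃ F : ℕ → C(unitInterval, ℂ) → ℝ,
  (∀ i, (∀ f, |F i f| ≤ 1) ∧ LipschitzWith 1 (F i)) ∧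
  ∀ (x : ℕ → C(unitInterval, ℂ)) (ν : ℕ → ProbabilityMeasure C(unitInterval, ℂ)),
    (∀ ε : ℝ, 0 < ε → ∃ K : Set C(unitInterval, ℂ), IsCompact K ∧
      ∀ n, (ν n : Measure C(unitInterval, ℂ)) Kᶜ ≤ ENNReal.ofReal ε) →
    (∀ i, Tendsto (fun N : ℕ => (∑ n ∈ Finset.Icc 1 N, (n : ℝ)⁻¹ *
      (F i (x n) - ∫ f, F i f ∂(ν n : Measure C(unitInterval, ℂ)))) / Real.log N) atTop (𝓝 0)) →
    ∀ Φ : C(unitInterval, ℂ) → ℝ, Continuous Φ → (∃ M, ∀ f, |Φ f| ≤ M) →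
      Tendsto (fun N : ℕ => (∑ n ∈ Finset.Icc 1 N, (n : ℝ)⁻¹ *
        (Φ (x n) - ∫ f, Φ f ∂(ν n : Measure C(unitInterval, ℂ)))) / Real.log N) atTop (𝓝 0)

/-! ### scale invariance -/

/-- the curve `s ↦ t ^ (-4/7) f (t s)` -/
def shrink (t : unitInterval) (f : C(unitInterval, ℂ)) : C(unitInterval, ℂ) where
  toFun s := ((((t : ℝ) ^ (-(4/7) : ℝ) : ℝ) : ℂ)) * f (t * s)
  continuous_toFun := by fun_prop

/-- SHR: the path of `⌊t n⌋` steps is close to the first part of the path of `n` steps -/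
def S_SHR : Prop := ∀ Φ : C(unitInterval, ℂ) → ℝ, (∀ f, |Φ f| ≤ 1) → LipschitzWith 1 Φ →
  (∀ t : unitInterval, 0 < t →
    Tendsto (fun n : ℕ => ∫ ω, Φ (shrink t (curve n ω)) ∂perc -
      ∫ ω, Φ (curve ⌊(t : ℝ) * n⌋₊ ω) ∂perc) atTop (𝓝 0)) ∧
  Tendsto (fun n : ℕ => ∫ ω, Φ (curve (n + 1) ω) ∂perc - ∫ ω, Φ (curve n ω) ∂perc) atTop (𝓝 0)

/-- CES: logarithmic averages of a convergent sequence -/
def S_CES : Prop := ∀ (b : ℕ → ℝ) (L : ℝ), Tendsto b atTop (𝓝 L) →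
  Tendsto (fun N : ℕ => (∑ n ∈ Finset.Icc 1 N, (n : ℝ)⁻¹ * b n) / Real.log N) atTop (𝓝 L)

/-- RIE: logarithmic averages of slowly varying sequences are invariant under dilations -/
def S_RIE : Prop := ∀ (a : ℕ → ℝ) (t : ℝ), (∀ n, |a n| ≤ 1) →
  Tendsto (fun n : ℕ => a (n + 1) - a n) atTop (𝓝 0) → 0 < t → t ≤ 1 →
  Tendsto (fun N : ℕ => (∑ n ∈ Finset.Icc 1 N, (n : ℝ)⁻¹ * (a ⌊t * n⌋₊ - a n)) / Real.log N)
    atTop (𝓝 0)

/-- the logarithmic average of the laws of the rescaled curves, tested with `Φ` -/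
def avg (Φ : C(unitInterval, ℂ) → ℝ) (N : ℕ) : ℝ :=
  (∑ n ∈ Finset.Icc 1 N, (n : ℝ)⁻¹ * ∫ ω, Φ (curve n ω) ∂perc) / Real.log N

/-- EXI: limit points of the logarithmic averages exist -/
def S_EXI : Prop := ∀ φ : ℕ → ℕ, Tendsto φ atTop atTop → ∃ ψ : ℕ → ℕ, StrictMono ψ ∧
  ∃ ν : ProbabilityMeasure C(unitInterval, ℂ), ∀ Φ : C(unitInterval, ℂ) → ℝ, Continuous Φ →
    (∃ M, ∀ f, |Φ f| ≤ M) →
    Tendsto (fun i => avg Φ (φ (ψ i))) atTop (𝓝 (∫ f, Φ f ∂(ν : Measure C(unitInterval, ℂ))))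

/-- SINV: limit points of the logarithmic averages are scale invariant -/
def S_SINV : Prop := ∀ φ : ℕ → ℕ, Tendsto φ atTop atTop →
  ∀ ν : ProbabilityMeasure C(unitInterval, ℂ),
    (∀ Φ : C(unitInterval, ℂ) → ℝ, Continuous Φ → (∃ M, ∀ f, |Φ f| ≤ M) →
      Tendsto (fun i => avg Φ (φ i)) atTop (𝓝 (∫ f, Φ f ∂(ν : Measure C(unitInterval, ℂ))))) →
    ∀ t : unitInterval, 0 < t →
      (ν : Measure C(unitInterval, ℂ)).map (shrink t) = (ν : Measure C(unitInterval, ℂ))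

/-- ALL: almost sure logarithmic law, all bounded continuous functions -/
def S_ALL : Prop := ∀ᵐ ω ∂perc, ∀ Φ : C(unitInterval, ℂ) → ℝ, Continuous Φ →
  (∃ M, ∀ f, |Φ f| ≤ M) →
  Tendsto (fun N : ℕ => (∑ n ∈ Finset.Icc 1 N, (n : ℝ)⁻¹ *
    (Φ (curve n ω) - ∫ ω', Φ (curve n ω') ∂perc)) / Real.log N) atTop (𝓝 0)

end

end Pool.Agent.N956.EM
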