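import Pool.Agent.N956.EM.Stm

/-!
# Zero-one law at the starting point for the limits of the exploration path: statements
-/

set_option autoImplicit false

namespace Pool.Agent.N956.EM

open H974 Finset H342P H984P H984H MeasureTheory Filter Topology

noncomputable section

/-- SHR1: the path of `⌊t n⌋` steps is close in mean to the first part of the path of `n` steps -/
def S_SHR1 : Prop := ∀ Φ : C(unitInterval, ℂ) → ℝ, (∀ f, |Φ f| ≤ 1) → LipschitzWith 1 Φ →
  ∀ t : unitInterval, 0 < t →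
    Tendsto (fun n : ℕ => ∫ ω, |Φ (shrink t (curve n ω)) - Φ (curve ⌊(t : ℝ) * n⌋₊ ω)| ∂perc)
      atTop (𝓝 0)

/-- GA: decorrelation between the first part and the whole curve, for the limits -/
def S_GA : Prop := ∃ C c : ℝ, 0 < C ∧ 0 < c ∧ ∀ φ : ℕ → ℕ, Tendsto φ atTop atTop →
  ∀ μ : ProbabilityMeasure C(unitInterval, ℂ), Tendsto (fun i => lawH (φ i)) atTop (𝓝 μ) →
    ∀ t : unitInterval, 0 < t → ∀ Φ Ψ : C(unitInterval, ℂ) → ℝ, (∀ f, |Φ f| ≤ 1) →
      (∀ f, |Ψ f| ≤ 1) → (∃ L, LipschitzWith L Φ) → LipschitzWith 1 Ψ →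
      |∫ f, Φ (shrink t f) * Ψ f ∂(μ : Measure C(unitInterval, ℂ)) -
        (∫ f, Φ (shrink t f) ∂(μ : Measure C(unitInterval, ℂ))) *
          ∫ f, Ψ f ∂(μ : Measure C(unitInterval, ℂ))| ≤ C * (t : ℝ) ^ c

/-- GB: every event which depends only on the germ of the curve at its starting point is trivial -/
def S_GB : Prop := ∀ φ : ℕ → ℕ, Tendsto φ atTop atTop →
  ∀ μ : ProbabilityMeasure C(unitInterval, ℂ), Tendsto (fun i => lawH (φ i)) atTop (𝓝 μ) →
    ∀ A : Set C(unitInterval, ℂ), MeasurableSet A →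
      (∀ t : unitInterval, 0 < t → ∀ f g : C(unitInterval, ℂ), (∀ s ≤ t, f s = g s) →
        (f ∈ A ↔ g ∈ A)) →
      (μ : Measure C(unitInterval, ℂ)) A = 0 ∨ (μ : Measure C(unitInterval, ℂ)) A = 1

end

end Pool.Agent.N956.EM
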