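import Pool.Agent.N956.EM.Stm

/-!
# Empirical law of the half-plane exploration path: the visited states
-/

set_option autoImplicit false

namespace Pool.Agent.N956.EM

open H974 Finset H342P H984P H984H MeasureTheory Filter Topology

namespace VisA

/-- the visited states and the states below the negative half-axis -/
def A (ω : Conf) : Set St :=
  {τ | (∃ k, path ω k = τ) ∨ ∃ k : ℕ, τ = ((-(k : ℤ), 0), .se) ∨ τ = ((-(k : ℤ), 0), .sw)}

theorem not_opn_neg (ω : Conf) (x : ℤ) (b : Bool) : ((x, -1, b) : Edg) ∉ opn ω := by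
  intro h
  have := Step_opn h
  simp only at this
  omega

theorem not_opn_axis (ω : Conf) (x : ℤ) (hx : 0 ≤ x) : ((x, 0, true) : Edg) ∉ opn ω := by
  rintro (⟨-, -, h⟩ | ⟨-, h, -⟩)
  · simp only at h
    omega
  · exact h ⟨rfl, rfl⟩

theorem opn_axis (ω : Conf) (x : ℤ) (hx : x < 0) : ((x, 0, true) : Edg) ∈ opn ω :=
  Or.inl ⟨rfl, rfl, hx⟩

theorem nxt_mem (ω : Conf) (τ : St) (h : τ ∈ A ω) : nxt (opn ω) τ ∈ A ω := by
  rcases h with ⟨k, rfl⟩ | ⟨k, rfl | rfl⟩
  · rcases k with _ | k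
    · right
      refine ⟨0, Or.inl ?_⟩
      show nxt (opn ω) ((0, 0), .ne) = _
      rw [nxt_closed (by rw [ae_ne]; exact not_opn_axis ω 0 le_rfl), rt_ne]
      simp
    · left
      refine ⟨k, ?_⟩
      rw [path_succ, nxt_step]
  · right
    refine ⟨k, Or.inr ?_⟩
    rw [nxt_closed (by rw [ae_se]; exact not_opn_neg ω _ _), rt_se]
  · right
    refine ⟨k + 1, Or.inl ?_⟩
    rw [nxt_open (by rw [ae_sw]; exact opn_axis ω _ (by omega)), mv_sw]
    have e : -(k : ℤ) - 1 = -((k + 1 : ℕ) : ℤ) := by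
      push_cast
      ring
    rw [e]

theorem step_mem (ω : Conf) (τ : St) (h : τ ∈ A ω) : step (opn ω) τ ∈ A ω := by
  rcases h with ⟨k, rfl⟩ | ⟨k, rfl | rfl⟩
  · exact Or.inl ⟨k + 1, rfl⟩
  · rcases k with _ | k
    · left
      refine ⟨0, ?_⟩
      have h1 := not_opn_axis ω 0 le_rfl
      simp [step, h1, path]
    · right
      refine ⟨k, Or.inr ?_⟩
      have h1 := opn_axis ω (-((k + 1 : ℕ) : ℤ)) (by omega)
      have e : -((k + 1 : ℕ) : ℤ) + 1 = -(k : ℤ) := by
        push_cast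
        ring
      unfold step
      simp only
      rw [if_pos h1, e]
  · right
    refine ⟨k, Or.inl ?_⟩
    have h1 := not_opn_neg ω (-(k : ℤ)) false
    have h2 : ((-(k : ℤ), (0 : ℤ) - 1, false) : Edg) ∉ opn ω := by
      rw [zero_sub]
      exact h1
    unfold step
    simp only
    rw [if_neg h2]

theorem inv (ω : Conf) (τ : St) : τ ∈ A ω ↔ nxt (opn ω) τ ∈ A ω := by
  constructor
  · exact nxt_mem ω τ
  · intro h
    have := step_mem ω _ h
    rwa [step_nxt] at this

theorem dl_step (ω : Conf) {f g : Vtx} (hf : f ∈ Dl ω) (h : DAdj (clo ω) f g) : g ∈ Dl ω := by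
  obtain ⟨x, hx, hr⟩ := hf
  exact ⟨x, hx, hr.trans h.reach⟩

theorem face_mem (ω : Conf) (k : ℕ) : face (path ω k) ∈ Dl ω := by
  induction k with
  | zero =>
    refine ⟨0, le_rfl, DAdj.reach ⟨(0, 0, true), ⟨le_rfl, not_opn_axis ω 0 le_rfl⟩, Or.inl ⟨rfl, rfl⟩⟩⟩
  | succ k ih =>
    have hnn := path_nonneg ω k
    have hb := Ret_not_bad ω k
    rw [path_succ]
    generalize path ω k = σ at ih hnn hb
    obtain ⟨⟨x, y⟩, q⟩ := σ
    simp only at hnn
    cases q
    all_goals
      simp only [step]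
    · split_ifs with hc
      · rw [face_se, add_sub_cancel_right]
        exact ih
      · rw [face_nw]
        exact dl_step ω ih ⟨(x, y, false), ⟨hnn, hc⟩, Or.inr ⟨rfl, rfl⟩⟩
    · split_ifs with hc
      · rw [face_ne]
        exact ih
      · rw [face_sw]
        refine dl_step ω ih ⟨(x - 1, y, true), ⟨hnn, hc⟩, Or.inr ⟨rfl, rfl⟩⟩
    · split_ifs with hc
      · rw [face_nw]
        exact ih
      · rw [face_se]
        rcases eq_or_lt_of_le hnn with h0 | h0
        · subst h0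
          have hx : 0 ≤ x := by
            by_contra hcon
            exact hb ⟨rfl, Or.inl ⟨rfl, by simp only; omega⟩⟩
          exact ⟨x, hx, DReach.refl _ _⟩
        · refine dl_step ω ih ⟨(x, y - 1, false), ⟨?_, hc⟩, Or.inl ⟨rfl, rfl⟩⟩
          show 0 ≤ y - 1
          omega
    · split_ifs with hc
      · rw [face_sw, add_sub_cancel_right]
        exact ih
      · rw [face_ne]
        exact dl_step ω ih ⟨(x, y, true), ⟨hnn, hc⟩, Or.inl ⟨rfl, rfl⟩⟩

theorem mem_A (ω : Conf) (σ : St) (h1 : σ.1 ∈ Cl ω) (h2 : face σ ∈ Dl ω) : σ ∈ A ω := by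
  obtain ⟨hv, hf, p1, p2, p3⟩ := pot_of_inv (opn ω) (A ω) (inv ω)
  have rv : ∀ {u v : Vtx}, Reach (opn ω) u v → hv u = hv v := by
    intro u v h
    induction h with
    | refl => rfl
    | tail _ hs ih =>
      obtain ⟨e, he, hc⟩ := hs
      have h1 := p2 e he
      rcases hc with ⟨h2, h3⟩ | ⟨h2, h3⟩
      · rw [ih, ← h2, ← h3, h1]
      · rw [ih, ← h2, ← h3, h1]
  have rf : ∀ {u v : Vtx}, DReach (clo ω) u v → hf u = hf v := by
    intro u v h
    induction h with
    | refl => rfl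
    | tail _ hs ih =>
      obtain ⟨e, he, hc⟩ := hs
      have h1 := p3 e he.2
      rcases hc with ⟨h2, h3⟩ | ⟨h2, h3⟩
      · rw [ih, ← h2, ← h3, h1]
      · rw [ih, ← h2, ← h3, h1]
  have hbot : ∀ n : ℕ, hf ((n : ℤ), -1) = hf (0, -1) := by
    intro n
    induction n with
    | zero => simp
    | succ n ih =>
      have h3 := p3 (((n + 1 : ℕ) : ℤ), -1, false) (not_opn_neg ω _ _)
      rw [dsrc_false, dtgt_mk] at h3
      have e : ((n + 1 : ℕ) : ℤ) - 1 = n := by
        push_cast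
        ring
      rw [e] at h3
      rw [← h3, ih]
  have h0 := p3 (0, 0, true) (not_opn_axis ω 0 le_rfl)
  rw [dsrc_true, dtgt_mk, zero_sub] at h0
  have c1 : hv (0, 0) = hv σ.1 := rv h1
  have c2 : hf (face σ) = hf (0, 0) := by
    obtain ⟨x, hx, hr⟩ := h2
    have h3 := rf hr
    have h4 := hbot x.toNat
    rw [Int.toNat_of_nonneg hx] at h4
    rw [← h3, h4, h0]
  have s0 : (((0, 0), .ne) : St) ∈ A ω := Or.inl ⟨0, rfl⟩
  have e1 := p1 ((0, 0), .ne)
  have e2 := p1 σ
  rw [face_ne] at e1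
  simp only at e1
  rw [c2, ← c1, e1, b2_of s0] at e2
  by_contra hcon
  rw [b2_not_of hcon] at e2
  exact absurd e2 (by decide)

end VisA

/-- the visited states above the axis -/
theorem vis : S_VIS := by
  intro ω σ hσ
  constructor
  · rintro ⟨k, rfl⟩
    exact ⟨path_clu ω k, VisA.face_mem ω k⟩
  · rintro ⟨h1, h2⟩
    rcases VisA.mem_A ω σ h1 h2 with h | ⟨k, rfl | rfl⟩
    · exact h
    · rw [face_se] at hσ
      simp only at hσ
      omega
    · rw [face_sw] at hσ
      simp only at hσ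
      omega

end Pool.Agent.N956.EM
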